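import Pool.Agent.H75.UK.F2a
import Pool.Agent.H86.UM.EX3
import Pool.Agent.H86.UM.UC

/-!
# Project UK, module F2: the exact stage for folded types

`L = AlgebraicClosure K`, `Ψ_L = mp ∘ Ψ` (`mp` is injective, maps `Gad K` to `Gad L` and commutes with
`sgl`: `sgl_mp`, `mp_Gad` or similar in UL). `folded_chamber` gives `g`, `Tgt C (srcOf he) (cj Ψ_L g)`.
`hfix`: for `σ : L ≃ₐ[K] L` put `g' = mp σ g`, `y = g⁻¹ g'`. For `u ∈ U`:
`y⁻¹ (g⁻¹ Ψ_L(u) g) y = g'⁻¹ Ψ_L(u) g' = mp σ (g⁻¹ Ψ_L(u) g)` is in `Fil 0` (`Fil_map`, `Fil_U_zero`), and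
`upper_of_fix` (UC) for `Γ = {g⁻¹ Ψ_L(u) g | u ∈ U}` (`nonvan` of `Tgt`) gives `Fil 0 y`. `exact_of_L`.
-/

set_option autoImplicit false
open Matrix
universe u
namespace Pool.Agent.H75.UL

open Pool.Agent.H86.UM

variable {n : ℕ} {C : SLC n} {D : Dg C} {k : Type*} [Field k] {H : Type*} [Group H]
  {S : StSys C k H} {s : H →* H} {p : H →* GL C.Idx k}

theorem exact_folded (he : Env D (RingEquiv.refl k) S s p) (hNA : D.NA) (hn : 0 < n)
    {K : Type*} [Field K] (Ψ : Eg S s →* GL C.Idx K) (hΨ : ∀ x, Ψ x ∈ C.Gad K)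
    (hσ : ∀ x, D.sgl (RingEquiv.refl K) (Ψ x) = Ψ x)
    (hker : ∀ x : Eg S s, Ψ x = 1 → x ∈ Subgroup.center (Eg S s)) :
    ∃ g₁ ∈ Eg (C.adS K) (D.sgl (RingEquiv.refl K)), ∃ π : Equiv.Perm D.Orb,
      Exact D S s (RingEquiv.refl K) Ψ g₁ π := by
  obtain ⟨Φ, hΦ0⟩ : ∃ Φ : Eg S s →* GL C.Idx (AlgebraicClosure K),
      Φ = (C.mp (algebraMap K (AlgebraicClosure K))).comp Ψ := ⟨_, rfl⟩
  have hΦ : ∀ x, Φ x = C.mp (algebraMap K (AlgebraicClosure K)) (Ψ x) := by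
    intro x
    rw [hΦ0]
    rfl
  have hΦm : ∀ x, Φ x ∈ C.Gad (AlgebraicClosure K) := by
    intro x
    rw [hΦ]
    exact C.mp_Gad _ _ (hΨ x)
  obtain ⟨g, hg, hT⟩ := folded_chamber he hNA hn Φ hΦm (by
    intro x
    rw [hΦ, ← sgl_mp D (RingEquiv.refl K) (RingEquiv.refl (AlgebraicClosure K))
      (algebraMap K (AlgebraicClosure K)) (fun t => rfl), hσ x]) (by
    intro x hx
    apply hker
    apply C.mp_injective (algebraMap K (AlgebraicClosure K))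
      (algebraMap K (AlgebraicClosure K)).injective
    rw [_root_.map_one, ← hΦ]
    exact hx)
  have hnv' : ∀ j, ∃ γ ∈ (cj Φ g) '' ((srcOf he).U : Set (Eg S s)),
      C.xi j (γ : Matrix C.Idx C.Idx (AlgebraicClosure K)) ≠ 0 := by
    intro j
    obtain ⟨J, x, hx, h⟩ := hT.nonvan j
    exact ⟨_, ⟨x, (srcOf he).X_le J hx, rfl⟩, h⟩
  have hΓU : ∀ γ ∈ (cj Φ g) '' ((srcOf he).U : Set (Eg S s)),
      γ ∈ (C.adS (AlgebraicClosure K)).U 1 := by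
    rintro _ ⟨u, hu, rfl⟩
    exact hT.U_le u hu
  refine exact_of_L (L := AlgebraicClosure K) he (RingEquiv.refl K) (fun t => ?_) (Or.inl hNA) Ψ hΨ
    hσ g hg ?_ ?_
  · change id^[D.m] t = t
    rw [Function.iterate_id]
    rfl
  · rw [← hΦ0]
    exact hT
  · intro σ
    refine upper_of_fix C _ hΓU hnv' _ (mul_mem (inv_mem hg) (C.mp_Gad _ g hg)) ?_
    rintro _ ⟨u, hu, rfl⟩
    have e : (g⁻¹ * C.mp (σ : AlgebraicClosure K →+* AlgebraicClosure K) g)⁻¹ * cj Φ g u *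
        (g⁻¹ * C.mp (σ : AlgebraicClosure K →+* AlgebraicClosure K) g) =
        C.mp (σ : AlgebraicClosure K →+* AlgebraicClosure K) (cj Φ g u) := by
      rw [cj_apply, _root_.map_mul, _root_.map_mul, _root_.map_inv, hΦ, C.P3b_mp_fix]
      group
    rw [e, C.mp_val]
    exact C.Fil_map _ (C.Fil_U_zero _ (hT.U_le u hu))

end Pool.Agent.H75.UL
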