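import Pool.Agent.H75.UK.F1a
import Pool.Agent.H86.UM.SR
import Pool.Agent.H86.UL.P2a

/-!
# Project UK, module F1b: the folded source group, `θ = 1`, non-adjacent

`yb D S s β t` is `x_β(t)` if `r β = β` (then `s (x_β(t)) = x_β(t)`, `sg_fix`) and the product of the
`s^l (x_β(t)) = x_{r^l β}(± t)`, `l < m`, otherwise, where the roots `r^l β` are pairwise orthogonal
(`ip_r_NA`, `ip_orb`, `r_ip`), so the factors commute; `s^m = 1` on them (`iter_m`), so the product is
fixed by `s`. `yb_T`: `SR_T`, `SR_chi` (`θ = 1`). `yb_one`: apply `p` and compare the entry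
`(inl i, inr (-β))`, or `lp_unique`, or the torus and `fixX_coord` with `z = 1`, `t' = 0`.
`yb_X`: `prod` is in `XO` (`sameCycle_iff`). `tor_sep`: `sep_orbit` and `exists_tor` with `c` such that
`c ^ (ip v β') ≠ 1` (`P2a_exists_unit` in H86/UL/P2a or directly; `k` is infinite); `c ^ 0 = 1`;
`chi (p τ) γ = c ^ ip v γ` by `SR_T` and `xg_inj`. `nu_yb`: `ν⁻¹ x_γ(u) ν = x_{w γ}(..)`, `w = wd (wl i)`,
`w⁻¹ = w` (`wJ_sq`), positive for all `γ` in the orbit of `β` (`wJ_pos`, `supp_NA`, `sameCycle_pos`).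
`nu_tor`: `exists_tor` with `v` the sum of the simple roots in the orbit of `i`, `w v = -v`, so
`ν τ ν⁻¹` acts by `c ^ (-ip v γ)` and `τ'' = τ⁻¹ ν τ ν⁻¹` by `c ^ (-2 ip v γ)`, `ip v α_i = 2`: take
`c ^ (-4) ≠ 1`. (`w_J α_i = -α_i`: the reflections of the orthogonal orbit.)
`yb_central`: take `τ` with `chi (p τ) β ≠ 1` (`exists_tor` with `v = B β`, `ip (B β) β > 0`);
`τ yb β t τ⁻¹ = yb β t` gives `yb β ((chi - 1) t) = 1`.
-/

set_option autoImplicit false
open Matrix
universe u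
namespace Pool.Agent.H75.UL

open Pool.Agent.H86.UM

variable {n : ℕ} {C : SLC n} {D : Dg C} {k : Type*} [Field k] {H : Type*} [Group H]
  {S : StSys C k H} {s : H →* H} {p : H →* GL C.Idx k}

private theorem F1b_chi (he : Env D (RingEquiv.refl k) S s p) (τ : H) (hτ : τ ∈ S.T) (β : C.Root)
    (c : k) (h : τ * S.x β 1 * τ⁻¹ = S.x β (c * 1)) :
    C.chi (p τ : Matrix C.Idx C.Idx k) β = c := by
  obtain ⟨h0, h1⟩ := SR_T he τ hτ β 1
  rw [h, mul_one, mul_one] at h1
  have h2 := congrArg p h1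
  rw [he.hp, he.hp] at h2
  exact (C.xg_inj β β _ _ h0 h2.symm).2

private theorem F1b_chi_r (he : Env D (RingEquiv.refl k) S s p) (τ : H)
    (hτ : τ ∈ S.T ⊓ Eg S s) (β : C.Root) (l : ℕ) :
    C.chi (p τ : Matrix C.Idx C.Idx k) (D.r^[l] β) = C.chi (p τ : Matrix C.Idx C.Idx k) β := by
  induction l with
  | zero => rfl
  | succ l ih =>
    rw [Function.iterate_succ_apply', SR_chi he τ hτ.1 (Eg_le_fix S s τ hτ.2), ih]
    rfl

private theorem F1b_iter (he : Env D (RingEquiv.refl k) S s p) (l : ℕ) (β : C.Root) (t : k) :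
    s^[l] (S.x β t) = S.x (D.r^[l] β) ((D.sgp l β : k) * t) := by
  rw [he.sig.iter]
  congr 2
  exact Function.iterate_fixed rfl l

private theorem F1b_r_fix (β : C.Root) (h : D.r β = β) (l : ℕ) : D.r^[l] β = β :=
  Function.iterate_fixed h l

private theorem F1b_ip0 (hNA : D.NA) (β : C.Root) : ∀ j : ℕ, 0 ≤ C.ip β.1 (D.r^[j] β).1 := by
  intro j
  induction j using Nat.strong_induction_on with
  | _ j ih =>
    by_cases h : D.r β = β
    · rw [F1b_r_fix β h, β.2]
      norm_num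
    · by_cases hj : j < D.m
      · rcases Nat.eq_zero_or_pos j with h0 | h0
        · subst h0
          change 0 ≤ C.ip β.1 β.1
          rw [β.2]
          norm_num
        · rw [D.ip_orb β h j h0 hj, D.ip_r_NA hNA β h]
      · have hm : 0 < D.m := by rcases D.m_cases with h | h | h <;> omega
        have h1 : D.r^[j] β = D.r^[j - D.m] β := by
          have h2 : j = (j - D.m) + D.m := by omega
          conv_lhs => rw [h2]
          rw [Function.iterate_add_apply, D.r_m]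
        rw [h1]
        exact ih _ (by omega)

private theorem F1b_ip_shift (β γ : C.Root) (l : ℕ) :
    C.ip (D.r^[l] β).1 (D.r^[l] γ).1 = C.ip β.1 γ.1 := by
  induction l with
  | zero => rfl
  | succ l ih =>
    rw [Function.iterate_succ_apply', Function.iterate_succ_apply', D.r_ip, ih]

private theorem F1b_ip (hNA : D.NA) (β : C.Root) (l l' : ℕ) :
    0 ≤ C.ip (D.r^[l] β).1 (D.r^[l'] β).1 := by
  rcases le_total l l' with h | h
  · have h2 : l' = l + (l' - l) := by omega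
    rw [h2, Function.iterate_add_apply, F1b_ip_shift]
    exact F1b_ip0 hNA β _
  · have h2 : l = l' + (l - l') := by omega
    rw [h2, Function.iterate_add_apply, F1b_ip_shift, C.ip_comm]
    exact F1b_ip0 hNA β _

private theorem F1b_comm (hNA : D.NA) (β : C.Root) (l l' : ℕ) (a b : k) :
    Commute (S.x (D.r^[l] β) a) (S.x (D.r^[l'] β) b) :=
  S.comm _ _ a b (F1b_ip hNA β l l')

private theorem F1b_form (he : Env D (RingEquiv.refl k) S s p) (β : C.Root) (t : k) :
    yb D S s β t = ((List.range (mo D β)).map fun l =>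
      S.x (D.r^[l] β) ((D.sgp l β : k) * t)).prod := by
  unfold yb
  congr 1
  apply List.map_congr_left
  intro l _
  exact F1b_iter he l β t

private theorem F1b_mo_pos (β : C.Root) : 0 < mo D β := by
  unfold mo
  split_ifs
  · exact one_pos
  · rcases D.m_cases with h | h | h <;> omega

private theorem F1b_mo_le (β : C.Root) : mo D β ≤ D.m := by
  unfold mo
  split_ifs
  · rcases D.m_cases with h | h | h <;> omega
  · exact le_rfl

private theorem F1b_fix (he : Env D (RingEquiv.refl k) S s p) (hNA : D.NA) (β : C.Root) (t : k) :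
    s (yb D S s β t) = yb D S s β t := by
  obtain ⟨m', hm'⟩ : ∃ m', mo D β = m' + 1 := ⟨mo D β - 1, by have := F1b_mo_pos (D := D) β; omega⟩
  have hper : s^[m' + 1] (S.x β t) = S.x β t := by
    rw [← hm', F1b_iter he]
    unfold mo
    split_ifs with h
    · have h1 : D.sgp 1 β = 1 := by
        unfold Dg.sgp
        rw [Finset.prod_range_one]
        exact D.sg_fix hNA β h
      rw [h1, F1b_r_fix β h]
      simp
    · rw [D.r_m, D.sgp_m]
      simp
  have hcomm : Commute (S.x β t) ((List.range m').map fun l => s^[l + 1] (S.x β t)).prod := by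
    apply Commute.list_prod_right
    intro x hx
    obtain ⟨l, -, rfl⟩ := List.mem_map.mp hx
    rw [F1b_iter he]
    exact F1b_comm hNA β 0 (l + 1) _ _
  have e1 : s (yb D S s β t) = ((List.range m').map fun l => s^[l + 1] (S.x β t)).prod *
      s^[m' + 1] (S.x β t) := by
    unfold yb
    rw [hm', map_list_prod, List.map_map, List.range_succ, List.map_append, List.prod_append,
      List.map_singleton, List.prod_singleton]
    simp only [Function.comp_def, Function.iterate_succ_apply']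
  have e2 : yb D S s β t = S.x β t * ((List.range m').map fun l => s^[l + 1] (S.x β t)).prod := by
    unfold yb
    rw [hm', List.range_succ_eq_map, List.map_cons, List.prod_cons, List.map_map]
    rfl
  rw [e1, e2, hper]
  exact hcomm.eq.symm

private theorem F1b_ht (β : C.Root) (l : ℕ) : ht (D.r^[l] β).1 = ht β.1 := by
  induction l with
  | zero => rfl
  | succ l ih => rw [Function.iterate_succ_apply', D.r_ht, ih]

theorem yb_fixU (he : Env D (RingEquiv.refl k) S s p) (hNA : D.NA) (β : C.Root) (hβ : C.Pos β)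
    (t : k) : yb D S s β t ∈ fixU S s := by
  refine ⟨?_, F1b_fix he hNA β t⟩
  rw [F1b_form he]
  apply Subgroup.list_prod_mem
  intro x hx
  obtain ⟨l, -, rfl⟩ := List.mem_map.mp hx
  refine Subgroup.subset_closure ⟨_, _, ?_, rfl⟩
  rw [F1b_ht]
  unfold SLC.Pos at hβ
  omega

private theorem F1b_prod {ι G : Type*} [Group G] (f g : ι → G) (hc : ∀ i j, Commute (g i) (f j))
    (L : List ι) : (L.map fun i => f i * g i).prod = (L.map f).prod * (L.map g).prod := by
  induction L with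
  | nil => simp
  | cons a L ih =>
    simp only [List.map_cons, List.prod_cons, ih]
    have h : Commute (g a) (L.map f).prod := by
      apply Commute.list_prod_right
      intro x hx
      obtain ⟨j, -, rfl⟩ := List.mem_map.mp hx
      exact hc a j
    rw [mul_assoc, mul_assoc, ← mul_assoc (g a), h.eq, mul_assoc]

theorem yb_add (he : Env D (RingEquiv.refl k) S s p) (hNA : D.NA) (β : C.Root) (t u : k) :
    yb D S s β (t + u) = yb D S s β t * yb D S s β u := by
  rw [F1b_form he, F1b_form he, F1b_form he, ← F1b_prod]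
  · congr 1
    apply List.map_congr_left
    intro l _
    rw [mul_add, S.map_add]
  · intro i j
    exact F1b_comm hNA β i j _ _

theorem yb_T (he : Env D (RingEquiv.refl k) S s p) (hNA : D.NA) (β : C.Root) (τ : H)
    (hτ : τ ∈ S.T ⊓ Eg S s) (t : k) : τ * yb D S s β t * τ⁻¹ =
      yb D S s β (C.chi (p τ : Matrix C.Idx C.Idx k) β * t) := by
  rw [F1b_form he, F1b_form he]
  have h1 : ∀ g : H, τ * g * τ⁻¹ = MulAut.conj τ g := fun g => rfl
  rw [h1, map_list_prod, List.map_map]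
  congr 1
  apply List.map_congr_left
  intro l _
  rw [Function.comp_apply, ← h1, (SR_T he τ hτ.1 (D.r^[l] β) _).2, F1b_chi_r he τ hτ]
  congr 1
  ring

private theorem F1b_yb_zero (β : C.Root) : yb D S s β 0 = 1 := by
  unfold yb
  apply List.prod_eq_one
  intro x hx
  obtain ⟨l, -, rfl⟩ := List.mem_map.mp hx
  rw [S.x_zero]
  exact iterate_map_one s l

private theorem F1b_inj (he : Env D (RingEquiv.refl k) S s p) (β : C.Root) (hβ : C.Pos β)
    (t t' : k) (h : yb D S s β t = yb D S s β t') : t = t' :=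
  fixX_coord he β hβ t t' 1 1 (one_mem _) (one_mem _) (by rw [mul_one, mul_one, h])

theorem yb_one (he : Env D (RingEquiv.refl k) S s p) (hNA : D.NA) (β : C.Root) (hβ : C.Pos β)
    (t : k) (h : yb D S s β t = 1) : t = 0 :=
  F1b_inj he β hβ t 0 (by rw [h, F1b_yb_zero])

theorem yb_X (he : Env D (RingEquiv.refl k) S s p) (hNA : D.NA) (i : Fin n) (β : C.Root)
    (h : D.rE.SameCycle (C.simple i) β) (t : k) : yb D S s β t ∈ fixX D S s (C.simple i) := by
  refine ⟨?_, F1b_fix he hNA β t⟩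
  obtain ⟨l0, -, rfl⟩ := (D.sameCycle_iff _ _).mp h
  rw [F1b_form he]
  apply Subgroup.list_prod_mem
  intro x hx
  obtain ⟨l, -, rfl⟩ := List.mem_map.mp hx
  refine Subgroup.subset_closure ⟨_, _, Or.inl ⟨l + l0, ?_⟩, rfl⟩
  rw [Function.iterate_add_apply]

private theorem F1b_tor (he : Env D (RingEquiv.refl k) S s p) (v : Fin n → ℤ)
    (hv : SLC.lmap D.ρ v = v) (c : k) (hc : c ≠ 0) :
    ∃ τ ∈ S.T ⊓ Eg S s, ∀ γ, C.chi (p τ : Matrix C.Idx C.Idx k) γ = c ^ C.ip v γ.1 := by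
  obtain ⟨τ, hτ, h⟩ := exists_tor he.sig he.hθ he.hA v hv c hc rfl
  exact ⟨τ, hτ, fun γ => F1b_chi he τ hτ.1 γ _ (h γ 1)⟩

theorem tor_sep (he : Env D (RingEquiv.refl k) S s p) (hNA : D.NA) (β β' : C.Root)
    (hβ : C.Pos β) (hβ' : C.Pos β') (hne : ¬ D.rE.SameCycle β β') :
    ∃ τ ∈ S.T ⊓ Eg S s, C.chi (p τ : Matrix C.Idx C.Idx k) β = 1 ∧
      C.chi (p τ : Matrix C.Idx C.Idx k) β' ≠ 1 := by
  obtain ⟨v, hv, h1, h2⟩ := D.sep_orbit hNA β β' hβ hβ' hne
  have := he.inf
  obtain ⟨c, hc, hc1⟩ := SLC.P2a_exists_unit (k := k) (C.ip v β'.1) h2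
  obtain ⟨τ, hτ, h3⟩ := F1b_tor he v hv c hc
  refine ⟨τ, hτ, ?_, ?_⟩
  · rw [h3, h1, zpow_zero]
  · rw [h3]
    exact hc1

private theorem F1b_conj_inv (ν : H) (w : Equiv.Perm C.Root) (h : S.Acts ν w) (γ : C.Root)
    (u : k) : ∃ u', ν⁻¹ * S.x γ u * ν = S.x (w⁻¹ γ) u' := by
  obtain ⟨c, hc, h1⟩ := h
  refine ⟨(c (w⁻¹ γ))⁻¹ * u, ?_⟩
  have h2 := h1 (w⁻¹ γ) ((c (w⁻¹ γ))⁻¹ * u)
  have h3 : w (w⁻¹ γ) = γ := w.apply_symm_apply γ
  rw [h3, ← mul_assoc, mul_inv_cancel₀ (hc _), one_mul] at h2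
  rw [← h2]
  group

theorem nu_yb (he : Env D (RingEquiv.refl k) S s p) (hNA : D.NA) (i : Fin n) (β : C.Root)
    (hβ : C.Pos β) (hne : ¬ D.rE.SameCycle (C.simple i) β) (t : k) :
    (nuJ he i)⁻¹ * yb D S s β t * nuJ he i ∈ fixU S s := by
  have hν := nuJ_mem he i
  have hs : s (nuJ he i) = nuJ he i := Eg_le_fix S s _ hν.2
  refine ⟨?_, ?_⟩
  · rw [F1b_form he]
    have h1 : ∀ g : H, (nuJ he i)⁻¹ * g * nuJ he i = MulAut.conj (nuJ he i)⁻¹ g := fun g => by
      rw [MulAut.conj_apply, inv_inv]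
    rw [h1, map_list_prod, List.map_map]
    apply Subgroup.list_prod_mem
    intro x hx
    obtain ⟨l, -, rfl⟩ := List.mem_map.mp hx
    rw [Function.comp_apply, ← h1]
    obtain ⟨u', hu'⟩ := F1b_conj_inv (S := S) (nuJ he i) _ (nuJ_acts he i) (D.r^[l] β)
      ((D.sgp l β : k) * t)
    rw [hu']
    refine Subgroup.subset_closure ⟨_, _, ?_, rfl⟩
    have hw : (C.wd (D.wl i))⁻¹ = C.wd (D.wl i) := inv_eq_of_mul_eq_one_left (D.wJ_sq i)
    rw [hw]
    have hpos : C.Pos (D.r^[l] β) := by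
      unfold SLC.Pos at hβ ⊢
      rw [F1b_ht]
      exact hβ
    have hsupp : ¬ D.supp i (D.r^[l] β) := by
      intro h2
      have h3 := D.supp_NA hNA i _ hpos h2
      apply hne
      refine h3.trans ?_
      refine Equiv.Perm.SameCycle.symm ⟨l, ?_⟩
      rw [zpow_natCast]
      clear hu' hpos h2 h3 hx
      induction l with
      | zero => rfl
      | succ l ih =>
        rw [pow_succ', Equiv.Perm.mul_apply, ih, Function.iterate_succ_apply']
        rfl
    have h4 := D.wJ_pos i _ hpos hsupp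
    unfold SLC.Pos at h4
    omega
  · change s _ = _
    rw [map_mul, map_mul, map_inv, hs, F1b_fix he hNA]
    rfl

private theorem F1b_chi_mul (he : Env D (RingEquiv.refl k) S s p) (a b : H)
    (ha : a ∈ S.T) (hb : b ∈ S.T) (β : C.Root) :
    C.chi (p (a * b) : Matrix C.Idx C.Idx k) β = C.chi (p a : Matrix C.Idx C.Idx k) β *
      C.chi (p b : Matrix C.Idx C.Idx k) β := by
  apply F1b_chi he _ (S.T.mul_mem ha hb)
  have h1 : a * b * S.x β 1 * (a * b)⁻¹ = a * (b * S.x β 1 * b⁻¹) * a⁻¹ := by group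
  rw [h1, (SR_T he b hb β 1).2, (SR_T he a ha β _).2]
  congr 1
  ring

theorem nu_tor (he : Env D (RingEquiv.refl k) S s p) (hNA : D.NA) (i : Fin n) :
    ∃ τ ∈ S.T ⊓ Eg S s, ∀ β, D.rE.SameCycle (C.simple i) β →
      C.chi (p (τ⁻¹ * (nuJ he i * τ * (nuJ he i)⁻¹)) : Matrix C.Idx C.Idx k) β ≠ 1 := by
  have hν := nuJ_mem he i
  have := he.inf
  have hd : (2 * (C.A.det.natAbs : ℤ)) ≠ 0 := by
    have := Int.natAbs_ne_zero.mpr C.det_ne_zero
    omega
  obtain ⟨c, hc, hc1⟩ := SLC.P2a_exists_unit (k := k) _ hd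
  obtain ⟨τ, hτ, h1, -⟩ := SR_sep he i c rfl hc
  refine ⟨τ, hτ, ?_⟩
  have hmem1 : nuJ he i * τ * (nuJ he i)⁻¹ ∈ S.T ⊓ Eg S s :=
    ⟨S.N_conj_T _ _ hν.1 hτ.1, (Eg S s).mul_mem ((Eg S s).mul_mem hν.2 hτ.2)
      ((Eg S s).inv_mem hν.2)⟩
  have hmem2 : τ⁻¹ * (nuJ he i * τ * (nuJ he i)⁻¹) ∈ S.T ⊓ Eg S s :=
    mul_mem (inv_mem hτ) hmem1
  intro β hβ
  obtain ⟨l, -, rfl⟩ := (D.sameCycle_iff _ _).mp hβ
  rw [F1b_chi_r he _ hmem2, F1b_chi_mul he _ _ (inv_mem hτ.1) hmem1.1]
  obtain ⟨-, -, l', h2⟩ := SR_ν he i (nuJ he i) hν (nuJ_acts he i)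
  have h3 := h2 _ hmem1
  have h4 : (nuJ he i)⁻¹ * (nuJ he i * τ * (nuJ he i)⁻¹) * nuJ he i = τ := by group
  have h5 : ∀ a : k, (⇑(RingEquiv.refl k))^[l'] a = a := fun a => Function.iterate_fixed rfl l'
  rw [h4, h5] at h3
  have h6 : C.chi (p τ : Matrix C.Idx C.Idx k) (C.simple i) = c ^ C.A.det.natAbs :=
    h1 i (Equiv.Perm.SameCycle.refl _ _)
  have h7 : C.chi (p τ⁻¹ : Matrix C.Idx C.Idx k) (C.simple i) *
      C.chi (p τ : Matrix C.Idx C.Idx k) (C.simple i) = 1 := by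
    rw [← F1b_chi_mul he _ _ (inv_mem hτ.1) hτ.1, inv_mul_cancel, map_one]
    simp [SLC.chi]
  intro h8
  have h9 : C.chi (p (nuJ he i * τ * (nuJ he i)⁻¹) : Matrix C.Idx C.Idx k) (C.simple i) =
      (c ^ C.A.det.natAbs)⁻¹ := by
    rw [← h6, h3, inv_inv]
  have h10 : C.chi (p τ⁻¹ : Matrix C.Idx C.Idx k) (C.simple i) = (c ^ C.A.det.natAbs)⁻¹ := by
    rw [← h6]
    exact eq_inv_of_mul_eq_one_left h7
  rw [h9, h10] at h8
  apply hc1
  have h11 : c ^ (2 * (C.A.det.natAbs : ℤ)) = c ^ C.A.det.natAbs * c ^ C.A.det.natAbs := by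
    rw [two_mul, zpow_add₀ hc, zpow_natCast]
  rw [h11]
  rw [← mul_inv] at h8
  exact inv_eq_one.mp h8

theorem yb_central (he : Env D (RingEquiv.refl k) S s p) (hNA : D.NA) (β : C.Root)
    (hβ : C.Pos β) (t : k) (h : ∀ τ ∈ S.T ⊓ Eg S s, τ * yb D S s β t = yb D S s β t * τ) :
    t = 0 := by
  have hm : 0 < D.m := by rcases D.m_cases with h | h | h <;> omega
  have hlsum : ∀ (F : Finset ℕ) (f : ℕ → Fin n → ℤ),
      SLC.lmap D.ρ (∑ l ∈ F, f l) = ∑ l ∈ F, SLC.lmap D.ρ (f l) := by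
    intro F f
    induction F using Finset.induction_on with
    | empty => rfl
    | insert a F ha ih => rw [Finset.sum_insert ha, SLC.lmap_add, ih, Finset.sum_insert ha]
  have hisum : ∀ (F : Finset ℕ) (f : ℕ → Fin n → ℤ) (w : Fin n → ℤ),
      C.ip (∑ l ∈ F, f l) w = ∑ l ∈ F, C.ip (f l) w := by
    intro F f w
    induction F using Finset.induction_on with
    | empty => simp [C.ip_zero_left]
    | insert a F ha ih => rw [Finset.sum_insert ha, C.ip_add_left, ih, Finset.sum_insert ha]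
  have hv : SLC.lmap D.ρ (∑ l ∈ Finset.range D.m, (D.r^[l] β).1) =
      ∑ l ∈ Finset.range D.m, (D.r^[l] β).1 := by
    rw [hlsum]
    have h1 : ∀ l, SLC.lmap D.ρ (D.r^[l] β).1 = (D.r^[l + 1] β).1 := fun l => by
      rw [Function.iterate_succ_apply']
      rfl
    simp only [h1]
    obtain ⟨m', hm'⟩ : ∃ m', D.m = m' + 1 := ⟨D.m - 1, by omega⟩
    rw [hm', Finset.sum_range_succ, Finset.sum_range_succ', ← hm', D.r_m]
    rfl
  have hpos : 0 < C.ip (∑ l ∈ Finset.range D.m, (D.r^[l] β).1) β.1 := by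
    rw [hisum]
    refine Finset.sum_pos' (fun l _ => F1b_ip hNA β l 0) ⟨0, Finset.mem_range.mpr hm, ?_⟩
    change 0 < C.ip β.1 β.1
    rw [β.2]
    norm_num
  have := he.inf
  obtain ⟨c, hc, hc1⟩ := SLC.P2a_exists_unit (k := k) _ hpos.ne'
  obtain ⟨τ, hτ, h3⟩ := F1b_tor he _ hv c hc
  have h4 := yb_T he hNA β τ hτ t
  rw [h τ hτ, mul_inv_cancel_right] at h4
  have h5 := F1b_inj he β hβ _ _ h4
  rw [h3] at h5
  by_contra h0
  apply hc1
  exact mul_right_cancel₀ h0 (by rw [one_mul]; exact h5.symm)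

end Pool.Agent.H75.UL
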