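import Pool.Agent.H75.UK.K1b
import Pool.Agent.H75.UL.R4b
import Pool.Agent.H75.UL.S6
import Pool.Agent.H75.UL.T3

/-!
# Project UK, module K6a: elements close to the identity are unipotent

`lam` dominant, `0 < m`, `γ ∈ Gad`, `γ - 1 ∈ FilR lam m`. `γ ∈ U 1` (`mem_U_of_FilR`): Bruhat
`γ = u ν b`, `ν` acting by `w`. `ν = u⁻¹ γ b⁻¹ ∈ FilR lam 0` (`FilR_U`), so `pr lam (w β) ≥ pr lam β` for
all `β` (`N_mono`), and equality by summing over all roots. Degree `0` parts (`gr_mul`):
`gr 0 γ = 1`, so `gr 0 ν = gr 0 u⁻¹ * gr 0 b⁻¹`; `gr 0 ν = ν` (as `w` preserves `pr lam`), and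
`gr 0 u⁻¹`, `gr 0 b⁻¹` satisfy `Fil 0` (entries of `u⁻¹`, `b⁻¹`), so `ν` satisfies `Fil 0`, so `w = 1`
(as in the proof of `upper`: `N_mono`, the map `w` does not decrease heights) and `ν ∈ T` (`N_one`),
`γ = u ν b = τ u'`; the diagonal entries of `γ` are `1` and those of `u'` are `1`
(`Fil_U`), `τ` is diagonal (`T_diag`), so `τ = 1`.
-/

set_option autoImplicit false
open Matrix
universe u
namespace Pool.Agent.H75.UL

namespace SLC
variable {n : ℕ} (C : SLC n) {F : Type*} [Field F]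

theorem mem_U_of_FilR (lam : Fin n → ℝ) (hd : ∀ i, 0 ≤ lam i) (m : ℝ) (hm : 0 < m)
    (γ : GL C.Idx F) (hγ : γ ∈ C.Gad F)
    (h : C.FilR lam m ((γ : Matrix C.Idx C.Idx F) - 1)) : γ ∈ (C.adS F).U 1 := by
  -- `γ` and its Bruhat decomposition
  have hγ0 : C.FilR lam 0 (γ : Matrix C.Idx C.Idx F) := by
    have e : (γ : Matrix C.Idx C.Idx F) = ((γ : Matrix C.Idx C.Idx F) - 1) + 1 := by abel
    rw [e]
    exact C.FilR_add (C.FilR_mono hm.le h) (C.FilR_one le_rfl)
  have hg := hγ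
  rw [← C.gen_adS F] at hg
  obtain ⟨u, hu, ν, hν, v, hv, huv⟩ := (C.adS F).bruhat γ hg
  have hu' := Subgroup.inv_mem _ hu
  have hv' := Subgroup.inv_mem _ hv
  have eν : ν = u⁻¹ * γ * v⁻¹ := by
    rw [huv]
    group
  have eνm : (ν : Matrix C.Idx C.Idx F) = ((u⁻¹ : GL C.Idx F) : Matrix C.Idx C.Idx F) *
      (γ : Matrix C.Idx C.Idx F) * ((v⁻¹ : GL C.Idx F) : Matrix C.Idx C.Idx F) := by
    rw [eν, Units.val_mul, Units.val_mul]
  have fu := C.FilR_U hd _ hu'
  have fv := C.FilR_U hd _ hv'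
  have fuγ : C.FilR lam 0 (((u⁻¹ : GL C.Idx F) : Matrix C.Idx C.Idx F) *
      (γ : Matrix C.Idx C.Idx F)) := by
    have := C.FilR_mul fu hγ0
    rwa [add_zero] at this
  have fν : C.FilR lam 0 (ν : Matrix C.Idx C.Idx F) := by
    have := C.FilR_mul fuγ fv
    rw [add_zero, ← eνm] at this
    exact this
  obtain ⟨w, hw, ha, -⟩ := (C.adS F).N_acts ν hν
  obtain ⟨-, m1, m2, m3, m4⟩ := C.N_mono ν w ha hν
  -- `w` preserves the degree
  have hle : ∀ β : C.Root, C.pr lam β ≤ C.pr lam (w β) := by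
    intro β
    have := fν _ _ (m4 β)
    simp only [dg, Sum.elim_inr, add_zero] at this
    exact this
  have heq : ∀ β : C.Root, C.pr lam (w β) = C.pr lam β := by
    have hs : ∑ β : C.Root, C.pr lam β = ∑ β : C.Root, C.pr lam (w β) :=
      (Equiv.sum_comp w (fun β => C.pr lam β)).symm
    intro β
    exact ((Finset.sum_eq_sum_iff_of_le (fun β _ => hle β)).1 hs β (Finset.mem_univ β)).symm
  -- parts of degree zero
  have gγ : C.gr lam 0 (γ : Matrix C.Idx C.Idx F) = 1 := by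
    ext a b
    unfold gr
    split_ifs with hab
    · by_contra hne
      have h1 : ((γ : Matrix C.Idx C.Idx F) - 1) a b ≠ 0 := by
        rw [Matrix.sub_apply]
        exact sub_ne_zero.2 hne
      have h2 := h a b h1
      linarith
    · symm
      apply Matrix.one_apply_ne
      rintro rfl
      exact hab (by rw [add_zero])
  have gν : C.gr lam 0 (ν : Matrix C.Idx C.Idx F) = (ν : Matrix C.Idx C.Idx F) := by
    ext a b
    unfold gr
    split_ifs with hab
    · rfl
    · symm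
      rcases a with i | γ'
      · rcases b with j | β
        · exact absurd (by simp [dg]) hab
        · exact m1 i β
      · rcases b with j | β
        · exact m2 j γ'
        · apply m3
          rintro rfl
          apply hab
          simp only [dg, Sum.elim_inr, add_zero]
          exact heq β
  have gmul : (ν : Matrix C.Idx C.Idx F) =
      C.gr lam 0 ((u⁻¹ : GL C.Idx F) : Matrix C.Idx C.Idx F) *
        C.gr lam 0 ((v⁻¹ : GL C.Idx F) : Matrix C.Idx C.Idx F) := by
    have h1 := C.gr_mul fuγ fv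
    have h2 := C.gr_mul fu hγ0
    rw [add_zero] at h1 h2
    rw [h2, gγ, mul_one, ← eνm, gν] at h1
    exact h1
  have hFil : ∀ M : Matrix C.Idx C.Idx F, C.Fil 0 M → C.Fil 0 (C.gr lam 0 M) := by
    intro M hM a b hab
    unfold gr
    split_ifs
    · exact hM a b hab
    · rfl
  have hν0 : C.Fil 0 (ν : Matrix C.Idx C.Idx F) := by
    have := C.Fil_mul (hFil _ (C.Fil_U_zero _ hu')) (hFil _ (C.Fil_U_zero _ hv'))
    rw [add_zero, ← gmul] at this
    exact this
  have hγF : C.Fil 0 (γ : Matrix C.Idx C.Idx F) := by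
    have h1 := C.Fil_mul (C.Fil_mul (C.Fil_U_zero _ hu) hν0) (C.Fil_U_zero _ hv)
    rw [add_zero, add_zero, ← Units.val_mul, ← Units.val_mul, ← huv] at h1
    exact h1
  -- the torus part is trivial
  obtain ⟨τ, hτ, u₁, hu₁, e⟩ := C.upper γ hγ hγF
  have hchi : ∀ β : C.Root, C.chi (τ : Matrix C.Idx C.Idx F) β = 1 := by
    intro β
    rw [← C.chi_mul_U τ u₁ hτ hu₁, ← e]
    unfold chi
    by_contra hne
    have h1 : ((γ : Matrix C.Idx C.Idx F) - 1) (Sum.inr β) (Sum.inr β) ≠ 0 := by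
      rw [Matrix.sub_apply, Matrix.one_apply_eq]
      exact sub_ne_zero.2 hne
    have h2 := h _ _ h1
    linarith
  have hτ1 : τ = 1 := by
    refine C.T_ext τ 1 hτ (Subgroup.one_mem _) fun j => ?_
    rw [hchi]
    unfold chi
    rw [Units.val_one, Matrix.one_apply_eq]
  rw [e, hτ1, one_mul]
  exact hu₁

end SLC

end Pool.Agent.H75.UL
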