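import Pool.Agent.H75.UK.K2
import Pool.Agent.H75.UK.K6a

/-!
# Project UK, module K10a: regular weights

`upper_of_FilR`: Bruhat `g = u ν b`, `ν` acting by `w ∈ W` (`bruhat`, `gen_adS`, `N_acts`);
`ν = u⁻¹ g b⁻¹ ∈ FilR lam 0` (`FilR_U`, `FilR_mul`), so `pr lam (w β) ≥ pr lam β` for all `β` (`N_mono`: the
entry `(inr (w β), inr β)` of `ν` is not zero), so equality (sum over all roots, `w` a permutation).
If `w ≠ 1` then `w α_i` is negative for some `i` (`eq_one_of_pos`), so `0 < lam i = pr lam α_i =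
pr lam (w α_i) ≤ 0`, a contradiction. So `w = 1`, `ν ∈ T` (`N_one`), and `u`, `ν`, `b` are in `Fil 0`.
-/

set_option autoImplicit false
open Matrix
universe u
namespace Pool.Agent.H75.UL

namespace SLC
variable {n : ℕ} (C : SLC n) {F : Type*} [Field F]

theorem upper_of_FilR (lam : Fin n → ℝ) (hd : ∀ i, 0 < lam i) (g : GL C.Idx F)
    (hg : g ∈ C.Gad F) (h : C.FilR lam 0 (g : Matrix C.Idx C.Idx F)) :
    C.Fil 0 (g : Matrix C.Idx C.Idx F) := by
  have hd' : ∀ i, 0 ≤ lam i := fun i => (hd i).le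
  rw [← C.gen_adS F] at hg
  obtain ⟨u, hu, ν, hν, v, hv, hguv⟩ := (C.adS F).bruhat g hg
  have hν0 : C.FilR lam 0 (ν : Matrix C.Idx C.Idx F) := by
    have e1 : ν = u⁻¹ * g * v⁻¹ := by
      rw [hguv]
      group
    rw [e1, Units.val_mul, Units.val_mul]
    have h1 := C.FilR_mul (C.FilR_mul (C.FilR_U hd' _ (Subgroup.inv_mem _ hu)) h)
      (C.FilR_U hd' _ (Subgroup.inv_mem _ hv))
    rwa [add_zero, add_zero] at h1
  obtain ⟨w, hw, ha, h1⟩ := (C.adS F).N_acts ν hν
  have hle : ∀ β, C.pr lam β ≤ C.pr lam (w β) := by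
    intro β
    have h2 := (C.N_mono ν w ha hν).2.2.2.2 β
    have h3 := hν0 _ _ h2
    change C.pr lam β + 0 ≤ C.pr lam (w β) at h3
    rwa [add_zero] at h3
  have heq : ∀ β, C.pr lam β = C.pr lam (w β) := by
    have hsum : ∑ β, C.pr lam (w β) = ∑ β, C.pr lam β := Equiv.sum_comp w _
    exact fun β => (Finset.sum_eq_sum_iff_of_le (fun β _ => hle β)).1 hsum.symm β
      (Finset.mem_univ _)
  have hw1 : w = 1 := by
    refine C.eq_one_of_pos w hw fun i => ?_
    by_contra hcon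
    have h2 : C.Pos (-(w (C.simple i))) := (C.not_pos_iff _).1 hcon
    have h3 := C.pr_pos_of_dom hd' _ h2
    rw [C.pr_neg, ← heq, C.pr_simple] at h3
    linarith [hd i]
  have hT := h1 hw1
  rw [hguv, Units.val_mul, Units.val_mul]
  have h5 := C.Fil_mul (C.Fil_mul (C.Fil_U_zero _ hu) (C.Fil_T _ hT)) (C.Fil_U_zero _ hv)
  simpa using h5

end SLC

end Pool.Agent.H75.UL
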