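import Pool.Agent.H75.UK.K6a

/-!
# Project UK, module K6: leading parts

`lam` dominant, `0 < m`, `γ ∈ Gad`, `γ - 1 ∈ FilR lam m`.
(2) `gr_mem`: let `𝒟 = {γ ∈ U 1 | γ - 1 ∈ FilR lam m}`, a subgroup. Claim: `γ ∈ 𝒟` is a product of
elements `x_β(t)`, `β > 0`, `pr lam β ≥ m`. Downward induction on `h` where `γ ∈ U h` (`exists_U_eq_bot`,
`mem_U_of_Fil`): `γ = lp t * γ'`, `t` supported in height `h`, `γ' ∈ U (h+1)` (`exists_layer`). The entries
of `γ - 1` at `(inl i, inr (-β))`, `ht β = h`, are `-(t β) β_i` (`lp_entry` for the full coordinates of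
`γ`), and `pr lam β = dg (inl i) - dg (inr (-β))`; so if `pr lam β < m` then `t β β_i = 0` for all `i`,
`t β = 0` (`exists_coeff_ne_zero` in R5). So `lp t ∈ 𝒟` (`FilR_xg`) and `γ' ∈ 𝒟`. Now `γ ↦ gr m (γ - 1)` is
additive on `𝒟` (`γγ' - 1 = (γ-1) + (γ'-1) + (γ-1)(γ'-1)`, the last term is in `FilR lam (2m)`), and on
`x_β(t)` it is `t • E β` if `pr lam β = m` (`gr_xg`) and `0` if `pr lam β > m`.
`gr_conj`: `p (γ - 1) p⁻¹ = p γ p⁻¹ - 1`, `gr_mul` twice.
`exists_max_deg`: among the finitely many differences `dg a - dg b` of entries `(a, b)` at which some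
`M ∈ X` is not zero, take the smallest as `m'`.
-/

set_option autoImplicit false
open Matrix
universe u
namespace Pool.Agent.H75.UL

namespace SLC
variable {n : ℕ} (C : SLC n) {F : Type*} [Field F]

/-! auxiliary facts -/

private theorem K6_gr_add (lam : Fin n → ℝ) (m : ℝ) (M N : Matrix C.Idx C.Idx F) :
    C.gr lam m (M + N) = C.gr lam m M + C.gr lam m N := by
  ext a b
  simp only [gr, Matrix.add_apply]
  split_ifs
  · rfl
  · rw [add_zero]

private theorem K6_gr_zero_of (lam : Fin n → ℝ) (m s : ℝ) (hs : m < s) (M : Matrix C.Idx C.Idx F)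
    (h : C.FilR lam s M) : C.gr lam m M = 0 := by
  ext a b
  simp only [gr, Matrix.zero_apply]
  split_ifs with h1
  · by_contra h2
    have := h a b h2
    linarith
  · rfl

private theorem K6_mul_sub (A B : Matrix C.Idx C.Idx F) :
    A * B - 1 = ((A - 1) + (B - 1)) + (A - 1) * (B - 1) := by
  rw [sub_mul, mul_sub, mul_one, one_mul]
  abel

theorem gr_prod (lam : Fin n → ℝ) (m : ℝ) (hm : 0 < m) (γ γ' : GL C.Idx F)
    (h : C.FilR lam m ((γ : Matrix C.Idx C.Idx F) - 1))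
    (h' : C.FilR lam m ((γ' : Matrix C.Idx C.Idx F) - 1)) :
    C.FilR lam m (((γ * γ' : GL C.Idx F) : Matrix C.Idx C.Idx F) - 1) ∧
    C.gr lam m (((γ * γ' : GL C.Idx F) : Matrix C.Idx C.Idx F) - 1) =
      C.gr lam m ((γ : Matrix C.Idx C.Idx F) - 1) +
        C.gr lam m ((γ' : Matrix C.Idx C.Idx F) - 1) := by
  have h2 := C.FilR_mul h h'
  rw [Units.val_mul, K6_mul_sub]
  constructor
  · exact C.FilR_add (C.FilR_add h h') (C.FilR_mono (by linarith) h2)
  · rw [K6_gr_add, K6_gr_add, C.K6_gr_zero_of lam m (m + m) (by linarith) _ h2, add_zero]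

theorem gr_conj (lam : Fin n → ℝ) (m : ℝ) (p γ : GL C.Idx F)
    (hp : C.FilR lam 0 (p : Matrix C.Idx C.Idx F))
    (hp' : C.FilR lam 0 ((p⁻¹ : GL C.Idx F) : Matrix C.Idx C.Idx F))
    (h : C.FilR lam m ((γ : Matrix C.Idx C.Idx F) - 1)) :
    C.FilR lam m (((p * γ * p⁻¹ : GL C.Idx F) : Matrix C.Idx C.Idx F) - 1) ∧
    C.gr lam m (((p * γ * p⁻¹ : GL C.Idx F) : Matrix C.Idx C.Idx F) - 1) =
      C.gr lam 0 (p : Matrix C.Idx C.Idx F) * C.gr lam m ((γ : Matrix C.Idx C.Idx F) - 1) *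
        C.gr lam 0 ((p⁻¹ : GL C.Idx F) : Matrix C.Idx C.Idx F) := by
  have h1 : (p : Matrix C.Idx C.Idx F) * ((p⁻¹ : GL C.Idx F) : Matrix C.Idx C.Idx F) = 1 := by
    rw [← Units.val_mul, mul_inv_cancel, Units.val_one]
  have h2 : ((p * γ * p⁻¹ : GL C.Idx F) : Matrix C.Idx C.Idx F) - 1 =
      (p : Matrix C.Idx C.Idx F) * ((γ : Matrix C.Idx C.Idx F) - 1) *
        ((p⁻¹ : GL C.Idx F) : Matrix C.Idx C.Idx F) := by
    rw [mul_sub, sub_mul, mul_one, h1, Units.val_mul, Units.val_mul]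
  have h3 := C.FilR_mul hp h
  have h4 := C.FilR_mul h3 hp'
  have h5 := C.gr_mul h3 hp'
  have h6 := C.gr_mul hp h
  rw [h6] at h5
  simp only [zero_add, add_zero] at h4 h5
  rw [h2]
  exact ⟨h4, h5⟩

private theorem K6_xg (lam : Fin n → ℝ) (m : ℝ) (hm : 0 < m) (β : C.Root) (t : F)
    (h : t = 0 ∨ m ≤ C.pr lam β) :
    C.FilR lam m ((C.xg F β t : Matrix C.Idx C.Idx F) - 1) ∧
    C.gr lam m ((C.xg F β t : Matrix C.Idx C.Idx F) - 1) ∈
      Submodule.span F {M | ∃ β : C.Root, C.pr lam β = m ∧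
        M = (C.E β).map (Int.cast : ℤ → F)} := by
  rcases h with rfl | h
  · have h1 : (C.xg F β 0 : Matrix C.Idx C.Idx F) - 1 = 0 := by
      change C.X F β 0 - 1 = 0
      rw [X_zero, sub_self]
    rw [h1]
    refine ⟨C.FilR_zero, ?_⟩
    rw [C.K6_gr_zero_of lam m (m + 1) (by linarith) _ C.FilR_zero]
    exact Submodule.zero_mem _
  · refine ⟨C.FilR_xg hm.le β h t, ?_⟩
    rcases h.eq_or_lt with h1 | h1
    · have h2 := C.gr_xg (lam := lam) β (h1 ▸ hm) t
      rw [← h1] at h2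
      rw [h2]
      exact Submodule.smul_mem _ _ (Submodule.subset_span ⟨β, h1.symm, rfl⟩)
    · rw [C.K6_gr_zero_of lam m (C.pr lam β) h1 _ (C.FilR_xg (by linarith) β le_rfl t)]
      exact Submodule.zero_mem _

private theorem K6_lp (lam : Fin n → ℝ) (m : ℝ) (hm : 0 < m) (t : C.Root → F) (l : List C.Root)
    (h : ∀ β ∈ l, t β = 0 ∨ m ≤ C.pr lam β) :
    C.FilR lam m (((C.adS F).lp l t : Matrix C.Idx C.Idx F) - 1) ∧
    C.gr lam m (((C.adS F).lp l t : Matrix C.Idx C.Idx F) - 1) ∈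
      Submodule.span F {M | ∃ β : C.Root, C.pr lam β = m ∧
        M = (C.E β).map (Int.cast : ℤ → F)} := by
  induction l with
  | nil =>
    have h1 : (((C.adS F).lp [] t : GL C.Idx F) : Matrix C.Idx C.Idx F) - 1 = 0 := by
      simp [StSys.lp]
    rw [h1]
    refine ⟨C.FilR_zero, ?_⟩
    rw [C.K6_gr_zero_of lam m (m + 1) (by linarith) _ C.FilR_zero]
    exact Submodule.zero_mem _
  | cons β l ih =>
    obtain ⟨h1, h2⟩ := ih fun γ hγ => h γ (List.mem_cons_of_mem _ hγ)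
    obtain ⟨h3, h4⟩ := C.K6_xg lam m hm β (t β) (h β List.mem_cons_self)
    have e2 : (C.adS F).lp (β :: l) t = C.xg F β (t β) * (C.adS F).lp l t := by
      simp [StSys.lp]
    obtain ⟨h5, h6⟩ := C.gr_prod lam m hm _ _ h3 h1
    rw [e2]
    refine ⟨h5, ?_⟩
    rw [h6]
    exact Submodule.add_mem _ h4 h2

private theorem K6_coord (lam : Fin n → ℝ) (hd : ∀ i, 0 ≤ lam i) (m : ℝ) (hm : 0 < m)
    (t : C.Root → F)
    (h : C.FilR lam m (((C.adS F).lp C.posList t : Matrix C.Idx C.Idx F) - 1)) (β : C.Root)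
    (hβ : C.Pos β) : t β = 0 ∨ m ≤ C.pr lam β := by
  have main : ∀ k : ℕ, ∀ β : C.Root, C.Pos β → (ht β.1).toNat = k →
      t β = 0 ∨ m ≤ C.pr lam β := by
    intro k
    induction k using Nat.strong_induction_on with
    | _ k ih =>
      intro β hβ hk
      have hp : 0 < ht β.1 := hβ
      by_contra hcon
      push Not at hcon
      obtain ⟨hne, hlt⟩ := hcon
      set A := (C.adS F).lp C.posList (fun γ => if ht γ.1 ≤ ht β.1 - 1 then t γ else 0) with hA
      set B := (C.adS F).lp C.posList (fun γ => if ht γ.1 ≤ ht β.1 - 1 then 0 else t γ) with hB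
      have e1 : (C.adS F).lp C.posList t = A * B := StSys.lp_split _ (ht β.1 - 1) t
      have hAF : C.FilR lam m ((A : Matrix C.Idx C.Idx F) - 1) := by
        refine (C.K6_lp lam m hm _ C.posList ?_).1
        intro γ hγ
        have h3 : C.Pos γ := (C.mem_posList γ).mp hγ
        have h4 : 0 < ht γ.1 := h3
        by_cases h2 : ht γ.1 ≤ ht β.1 - 1
        · rw [if_pos h2]
          exact ih (ht γ.1).toNat (by omega) γ h3 rfl
        · rw [if_neg h2]
          exact Or.inl rfl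
      have hAU : A ∈ (C.adS F).U 1 := by
        have h2 : A = (C.adS F).lp C.posList
            (fun γ => if ht γ.1 < 1 then 0 else if ht γ.1 ≤ ht β.1 - 1 then t γ else 0) := by
          apply StSys.lp_congr
          intro γ hγ
          have h3 : C.Pos γ := (C.mem_posList γ).mp hγ
          have h4 : 0 < ht γ.1 := h3
          rw [if_neg (show ¬ ht γ.1 < 1 by omega)]
        rw [h2]
        apply StSys.lp_mem
        intro γ hγ
        rw [if_pos hγ]
      have hAi : C.FilR lam 0 ((A⁻¹ : GL C.Idx F) : Matrix C.Idx C.Idx F) :=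
        C.FilR_U hd _ (inv_mem hAU)
      have hBF : C.FilR lam m ((B : Matrix C.Idx C.Idx F) - 1) := by
        have h2 : (B : Matrix C.Idx C.Idx F) - 1 = ((A⁻¹ : GL C.Idx F) : Matrix C.Idx C.Idx F) *
            ((((C.adS F).lp C.posList t : GL C.Idx F) : Matrix C.Idx C.Idx F) - 1 -
              ((A : Matrix C.Idx C.Idx F) - 1)) := by
          rw [e1, Units.val_mul, sub_sub_sub_cancel_right, mul_sub, ← mul_assoc,
            ← Units.val_mul, inv_mul_cancel, Units.val_one, one_mul]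
        rw [h2]
        have h3 := C.FilR_mul hAi (C.FilR_sub h hAF)
        rwa [zero_add] at h3
      obtain ⟨i, hi⟩ := C.exists_coeff_ne_zero β F
      have h7 := C.lp_entry (fun γ => if ht γ.1 ≤ ht β.1 - 1 then 0 else t γ) (ht β.1) (by omega)
        (fun γ hγ => if_pos (by omega)) β rfl i
      rw [← hB] at h7
      simp only [if_neg (show ¬ (ht β.1 ≤ ht β.1 - 1) by omega)] at h7
      have h8 : ((B : Matrix C.Idx C.Idx F) - 1) (Sum.inl i) (Sum.inr (-β)) ≠ 0 := by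
        rw [Matrix.sub_apply, Matrix.one_apply_ne (by simp), sub_zero, h7]
        exact neg_ne_zero.mpr (mul_ne_zero hne hi)
      have h9 := hBF _ _ h8
      simp only [dg, Sum.elim_inl, Sum.elim_inr, C.pr_neg] at h9
      linarith
  exact main _ β hβ rfl

theorem gr_mem (lam : Fin n → ℝ) (hd : ∀ i, 0 ≤ lam i) (m : ℝ) (hm : 0 < m)
    (γ : GL C.Idx F) (hγ : γ ∈ C.Gad F)
    (h : C.FilR lam m ((γ : Matrix C.Idx C.Idx F) - 1)) :
    C.gr lam m ((γ : Matrix C.Idx C.Idx F) - 1) ∈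
      Submodule.span F {M | ∃ β : C.Root, C.pr lam β = m ∧
        M = (C.E β).map (Int.cast : ℤ → F)} := by
  have hU := C.mem_U_of_FilR lam hd m hm γ hγ h
  obtain ⟨t, -, rfl⟩ := (C.adS F).exists_lp 1 le_rfl γ hU
  refine (C.K6_lp lam m hm t C.posList ?_).2
  intro β hβ
  exact C.K6_coord lam hd m hm t h β ((C.mem_posList β).mp hβ)

/-- A set of matrices in `FilR lam m` (with `m > 0`), not all zero, has a maximal degree. -/
theorem exists_max_deg (lam : Fin n → ℝ) (m : ℝ) (X : Set (Matrix C.Idx C.Idx F))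
    (h : ∀ M ∈ X, C.FilR lam m M) (hne : ∃ M ∈ X, M ≠ 0) :
    ∃ m', m ≤ m' ∧ (∀ M ∈ X, C.FilR lam m' M) ∧ ∃ M ∈ X, C.gr lam m' M ≠ 0 := by
  classical
  obtain ⟨M₀, hM₀, hne⟩ := hne
  have h1 : ∃ a b, M₀ a b ≠ 0 := by
    by_contra hcon
    push Not at hcon
    exact hne (by ext a b; exact hcon a b)
  obtain ⟨a₀, b₀, hab⟩ := h1
  obtain ⟨⟨a, b⟩, ⟨M, hM, hMab⟩, hmin⟩ := Set.exists_min_image
    {p : C.Idx × C.Idx | ∃ M ∈ X, M p.1 p.2 ≠ 0} (fun p => C.dg lam p.1 - C.dg lam p.2)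
    (Set.toFinite _) ⟨(a₀, b₀), M₀, hM₀, hab⟩
  refine ⟨C.dg lam a - C.dg lam b, ?_, ?_, M, hM, ?_⟩
  · have := h M hM a b hMab
    linarith
  · intro M' hM' a' b' hab'
    have := hmin (a', b') ⟨M', hM', hab'⟩
    simp only at this
    linarith
  · intro h0
    have h2 := congrFun (congrFun h0 a) b
    simp only [gr, Matrix.zero_apply] at h2
    rw [if_pos (by ring)] at h2
    exact hMab h2

end SLC

end Pool.Agent.H75.UL
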