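import Pool.Agent.H75.UK.K6
import Pool.Agent.H75.UT.D7
import Pool.Agent.H75.UT.D1b

/-!
# Project UK, module K8a: the fixed space of `σ`, `θ = 1`

`VF D F lam`: the matrices in the span of the `E β`, `pr lam β > 0`, which are fixed by
`M ↦ mat M matᵀ`. `mat_E`: `mat * E β * matᵀ = sg β • E (r β)`: this is `isSig_adS` on the
coefficient of `t`... directly: it is enough to compare the coefficient of `t` in
`D.sgl 1 (xg β t) = xg (r β) (sg β * t)` over the field of rational functions or over `F` if `F` is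
infinite; simpler: compute entries with `D.mat` and the definition of `C.E` (integer matrices), as in
the proof of `isSig_adS` in `UT/D7` (there may be a lemma to reuse). The `E β` are linearly independent:
`E β` has the entry `(E β) (inl i) (inr (-β)) = -β_i` and `E γ` has a zero there for `γ ≠ β`
(over `F` use `exists_coeff_ne_zero` of R5: some `β_i` is not zero in `F`).
`finrank_VF`: write `M = ∑ c_β E β` (`c_β = 0` unless `pr lam β > 0`); `M` is fixed iff
`c_{r β} = sg β c_β` for all `β`; so `M ↦ (c_{q.out})_q`, `q` in the set of orbits with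
`pr lam q.out > 0`, is injective on `VF` (`sg β ≠ 0`, induction along the orbit: `D.rE.SameCycle`).
`pr_r`: `lam` is `ρ`-invariant, reindex the sum.
`gr_fix`: entries: `(mat M matᵀ) (ρ a) (ρ b) = ± M a b`, `dg lam (ρ a) = dg lam a`.
-/

set_option autoImplicit false
open Matrix
universe u
namespace Pool.Agent.H75.UL

/-- Orbits of `ρ` on the positive roots. -/
abbrev Dg.POrb {n : ℕ} {C : SLC n} (D : Dg C) : Type :=
  {q : Quotient (Equiv.Perm.SameCycle.setoid D.rE) // C.Pos (Quotient.out q)}

section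
variable {n : ℕ} {C : SLC n} (D : Dg C) (F : Type*) [Field F]

/-- The fixed space. -/
def VF (lam : Fin n → ℝ) : Submodule F (Matrix C.Idx C.Idx F) where
  carrier := {M | M ∈ Submodule.span F {M | ∃ β : C.Root, 0 < C.pr lam β ∧
    M = (C.E β).map (Int.cast : ℤ → F)} ∧ D.mat F * M * (D.mat F)ᵀ = M}
  zero_mem' := ⟨Submodule.zero_mem _, by simp⟩
  add_mem' := by
    rintro a b ⟨ha, ha'⟩ ⟨hb, hb'⟩
    exact ⟨Submodule.add_mem _ ha hb, by rw [Matrix.mul_add, Matrix.add_mul, ha', hb']⟩
  smul_mem' := by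
    rintro c a ⟨ha, ha'⟩
    exact ⟨Submodule.smul_mem _ c ha, by rw [Matrix.mul_smul, Matrix.smul_mul, ha']⟩

theorem mem_VF (lam : Fin n → ℝ) (M : Matrix C.Idx C.Idx F) :
    M ∈ VF D F lam ↔ M ∈ Submodule.span F {M | ∃ β : C.Root, 0 < C.pr lam β ∧
      M = (C.E β).map (Int.cast : ℤ → F)} ∧ D.mat F * M * (D.mat F)ᵀ = M := Iff.rfl


/-- The permutation of the index set. -/
private def K8a_p (a : C.Idx) : C.Idx := Sum.map D.ρ D.r a

/-- The signs on the index set. -/
private def K8a_s (a : C.Idx) : ℤ := Sum.elim (fun _ => 1) D.sg a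

private theorem K8a_s_cast (a : C.Idx) : (K8a_s D a : F) * (K8a_s D a : F) = 1 := by
  rw [← Int.cast_mul]
  have : K8a_s D a * K8a_s D a = 1 := by
    rcases a with i | β
    · simp [K8a_s]
    · exact D.sg_sq β
  rw [this]
  simp

private theorem K8a_p_inj : Function.Injective (K8a_p D) := by
  unfold K8a_p
  exact Sum.map_injective.mpr ⟨D.ρ.injective, D.r_injective⟩

private theorem K8a_p_surj : Function.Surjective (K8a_p D) :=
  Finite.surjective_of_injective (K8a_p_inj D)

private theorem K8a_mat (a b : C.Idx) :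
    D.mat F a b = if a = K8a_p D b then (K8a_s D b : F) else 0 := by
  rcases a with i | γ <;> rcases b with j | β <;> simp [Dg.mat, K8a_p, K8a_s]

private theorem K8a_entry (M : Matrix C.Idx C.Idx F) (a b : C.Idx) :
    (D.mat F * M * (D.mat F)ᵀ) (K8a_p D a) (K8a_p D b) =
      (K8a_s D a : F) * (K8a_s D b : F) * M a b := by
  rw [Matrix.mul_apply, Finset.sum_eq_single b]
  · rw [Matrix.mul_apply, Finset.sum_eq_single a]
    · rw [Matrix.transpose_apply, K8a_mat, K8a_mat, if_pos rfl, if_pos rfl]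
      ring
    · intro c _ hc
      rw [K8a_mat, if_neg, zero_mul]
      intro h
      exact hc (K8a_p_inj D h).symm
    · intro h
      exact absurd (Finset.mem_univ _) h
  · intro c _ hc
    rw [Matrix.transpose_apply, K8a_mat, if_neg, mul_zero]
    intro h
    exact hc (K8a_p_inj D h).symm
  · intro h
    exact absurd (Finset.mem_univ _) h

private theorem K8a_ext (M N : Matrix C.Idx C.Idx F)
    (h : ∀ a b, M (K8a_p D a) (K8a_p D b) = N (K8a_p D a) (K8a_p D b)) : M = N := by
  ext a b
  obtain ⟨a', rfl⟩ := K8a_p_surj D a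
  obtain ⟨b', rfl⟩ := K8a_p_surj D b
  exact h a' b'

private theorem K8a_one (a b : C.Idx) :
    (1 : Matrix C.Idx C.Idx F) (K8a_p D a) (K8a_p D b) =
      (K8a_s D a : F) * (K8a_s D b : F) * (1 : Matrix C.Idx C.Idx F) a b := by
  by_cases h : a = b
  · subst h
    rw [Matrix.one_apply_eq, Matrix.one_apply_eq, K8a_s_cast]
    ring
  · rw [Matrix.one_apply_ne h, Matrix.one_apply_ne (fun h' => h (K8a_p_inj D h'))]
    ring

/-- elements of the span as sums -/
private theorem K8a_span (lam : Fin n → ℝ) (M : Matrix C.Idx C.Idx F)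
    (h : M ∈ Submodule.span F {M | ∃ β : C.Root, 0 < C.pr lam β ∧
      M = (C.E β).map (Int.cast : ℤ → F)}) :
    ∃ c : C.Root → F, (∀ β, ¬ 0 < C.pr lam β → c β = 0) ∧
      M = ∑ β, c β • (C.E β).map (Int.cast : ℤ → F) := by
  induction h using Submodule.span_induction with
  | mem x hx =>
    obtain ⟨β, hβ, rfl⟩ := hx
    refine ⟨Pi.single β 1, fun γ hγ => ?_, ?_⟩
    · rw [Pi.single_eq_of_ne]
      rintro rfl
      exact hγ hβ
    · rw [Finset.sum_eq_single β]
      · simp
      · intro γ _ hγ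
        rw [Pi.single_eq_of_ne hγ, zero_smul]
      · intro h
        exact absurd (Finset.mem_univ _) h
  | zero => exact ⟨fun _ => 0, fun _ _ => rfl, by simp⟩
  | add x y _ _ hx hy =>
    obtain ⟨c, hc, rfl⟩ := hx
    obtain ⟨c', hc', rfl⟩ := hy
    refine ⟨fun β => c β + c' β, fun β hβ => by
      change c β + c' β = 0
      rw [hc β hβ, hc' β hβ, add_zero], ?_⟩
    rw [← Finset.sum_add_distrib]
    exact Finset.sum_congr rfl fun β _ => by rw [add_smul]
  | smul a x _ hx =>
    obtain ⟨c, hc, rfl⟩ := hx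
    refine ⟨fun β => a * c β, fun β hβ => by
      change a * c β = 0
      rw [hc β hβ, mul_zero], ?_⟩
    rw [Finset.smul_sum]
    exact Finset.sum_congr rfl fun β _ => by rw [smul_smul]

/-- the coefficient of `E β` -/
private theorem K8a_coeff (c : C.Root → F) (β : C.Root) (i : Fin n) :
    (∑ γ, c γ • (C.E γ).map (Int.cast : ℤ → F)) (Sum.inl i) (Sum.inr (-β)) =
      -((β.1 i : F) * c β) := by
  rw [Matrix.sum_apply, Finset.sum_eq_single β]
  · rw [Matrix.smul_apply, Matrix.map_apply, smul_eq_mul]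
    change c β * ((if (-β).1 = -β.1 then -β.1 i else 0 : ℤ) : F) = _
    rw [if_pos (SLC.Root.neg_val C β)]
    push_cast
    ring
  · intro γ _ hγ
    rw [Matrix.smul_apply, Matrix.map_apply, smul_eq_mul]
    change c γ * ((if (-β).1 = -γ.1 then -γ.1 i else 0 : ℤ) : F) = _
    rw [if_neg]
    · simp
    · intro h
      apply hγ
      apply SLC.Root.ext
      rw [SLC.Root.neg_val] at h
      exact (neg_injective h).symm
  · intro h
    exact absurd (Finset.mem_univ _) h

private theorem K8a_cr (c : C.Root → F)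
    (h : D.mat F * (∑ γ, c γ • (C.E γ).map (Int.cast : ℤ → F)) * (D.mat F)ᵀ =
      ∑ γ, c γ • (C.E γ).map (Int.cast : ℤ → F)) (β : C.Root) :
    c (D.r β) = (D.sg β : F) * c β := by
  obtain ⟨i, hi⟩ := C.exists_coeff_ne_zero β F
  have h1 := congrFun (congrFun h (K8a_p D (Sum.inl i))) (K8a_p D (Sum.inr (-β)))
  rw [K8a_entry, K8a_coeff] at h1
  have h2 : K8a_p D (Sum.inr (-β)) = Sum.inr (-(D.r β)) := by
    change Sum.inr (D.r (-β)) = _
    rw [D.r_neg]
  have h3 : K8a_p D (Sum.inl i : C.Idx) = Sum.inl (D.ρ i) := rfl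
  have h4 : K8a_s D (Sum.inl i : C.Idx) = 1 := rfl
  have h5 : K8a_s D (Sum.inr (-β)) = D.sg β := by
    change D.sg (-β) = _
    rw [D.sg_neg]
  rw [h2, h3, h4, h5, K8a_coeff, D.r_val] at h1
  apply mul_left_cancel₀ hi
  push_cast at h1
  linear_combination h1

private theorem K8a_orb {P : C.Root → Prop} (hP : ∀ β, P (D.r β) ↔ P β) {β γ : C.Root}
    (h : D.rE.SameCycle β γ) : P β ↔ P γ := by
  obtain ⟨k, rfl⟩ := h
  have hn : ∀ (m : ℕ) (β : C.Root), P ((D.rE ^ m) β) ↔ P β := by
    intro m
    induction m with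
    | zero => intro β; simp
    | succ m ih =>
      intro β
      rw [pow_succ, Equiv.Perm.mul_apply, ih]
      exact hP β
  rcases k with m | m
  · rw [Int.ofNat_eq_natCast, zpow_natCast]
    exact (hn m β).symm
  · rw [zpow_negSucc]
    have h1 := hn (m + 1) ((D.rE ^ (m + 1))⁻¹ β)
    rw [show (D.rE ^ (m + 1)) ((D.rE ^ (m + 1))⁻¹ β) = β from
      Equiv.apply_symm_apply (D.rE ^ (m + 1)) β] at h1
    exact h1

private theorem K8a_out (q : Quotient (Equiv.Perm.SameCycle.setoid D.rE)) (β : C.Root)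
    (h : q = Quotient.mk _ β) : D.rE.SameCycle (Quotient.out q) β := by
  subst h
  exact Quotient.mk_out (s := Equiv.Perm.SameCycle.setoid D.rE) β

theorem pr_r (lam : Fin n → ℝ) (hl : ∀ i, lam (D.ρ i) = lam i) (β : C.Root) :
    C.pr lam (D.r β) = C.pr lam β := by
  unfold SLC.pr
  rw [← Equiv.sum_comp D.ρ]
  refine Finset.sum_congr rfl fun i _ => ?_
  rw [D.r_val, hl]

theorem finrank_VF (lam : Fin n → ℝ) (hl : ∀ i, lam (D.ρ i) = lam i) :
    Module.finrank F (VF D F lam) ≤
      Nat.card {q : Quotient (Equiv.Perm.SameCycle.setoid D.rE) // 0 < C.pr lam (Quotient.out q)} := by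
  classical
  have : Finite (Quotient (Equiv.Perm.SameCycle.setoid D.rE)) := Quotient.finite _
  have : Fintype {q : Quotient (Equiv.Perm.SameCycle.setoid D.rE) //
    0 < C.pr lam (Quotient.out q)} := Fintype.ofFinite _
  choose ix hix using fun β : C.Root => C.exists_coeff_ne_zero β F
  let φ : VF D F lam →ₗ[F] ({q : Quotient (Equiv.Perm.SameCycle.setoid D.rE) //
      0 < C.pr lam (Quotient.out q)} → F) :=
    { toFun := fun M q => (M : Matrix C.Idx C.Idx F) (Sum.inl (ix (Quotient.out q.1)))
        (Sum.inr (-(Quotient.out q.1)))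
      map_add' := fun _ _ => rfl
      map_smul' := fun _ _ => rfl }
  have hφ : Function.Injective φ := by
    rw [← LinearMap.ker_eq_bot, LinearMap.ker_eq_bot']
    rintro ⟨M, hM⟩ h0
    obtain ⟨hM1, hM2⟩ := (mem_VF D F lam M).1 hM
    obtain ⟨c, hc, rfl⟩ := K8a_span F lam M hM1
    have hcr := K8a_cr D F c hM2
    have hc0 : ∀ β, c β = 0 := by
      intro β
      have h1 := K8a_out D (Quotient.mk _ β) β rfl
      have h2 : c (Quotient.out (Quotient.mk (Equiv.Perm.SameCycle.setoid D.rE) β)) = 0 ↔ c β = 0 :=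
        K8a_orb D (P := fun β => c β = 0) (fun β => by
          rw [hcr β, mul_eq_zero]
          constructor
          · rintro (h | h)
            · exfalso
              have h3 := D.sg_sq β
              have h4 : (D.sg β : F) * (D.sg β : F) = 1 := by
                rw [← Int.cast_mul, h3]; simp
              rw [h] at h4
              simp at h4
            · exact h
          · exact Or.inr) h1
      rw [← h2]
      by_cases hp : 0 < C.pr lam (Quotient.out (Quotient.mk (Equiv.Perm.SameCycle.setoid D.rE) β))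
      · have h3 := congrFun h0 ⟨Quotient.mk _ β, hp⟩
        change (∑ γ, c γ • (C.E γ).map (Int.cast : ℤ → F)) (Sum.inl (ix _)) (Sum.inr (-_)) = 0 at h3
        rw [K8a_coeff, neg_eq_zero, mul_eq_zero] at h3
        rcases h3 with h3 | h3
        · exact absurd h3 (hix _)
        · exact h3
      · exact hc _ hp
    apply Subtype.ext
    change ∑ β, c β • (C.E β).map (Int.cast : ℤ → F) = 0
    exact Finset.sum_eq_zero fun β _ => by rw [hc0 β, zero_smul]
  have h1 := LinearMap.finrank_le_finrank_of_injective hφ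
  rw [Module.finrank_fintype_fun_eq_card] at h1
  rw [Nat.card_eq_fintype_card]
  exact h1

theorem finrank_lt (lam : Fin n → ℝ) (hd : ∀ i, 0 ≤ lam i) (hl : ∀ i, lam (D.ρ i) = lam i)
    (h : Nat.card D.POrb ≤ Module.finrank F (VF D F lam)) (i : Fin n) : 0 < lam i := by
  classical
  have : Finite (Quotient (Equiv.Perm.SameCycle.setoid D.rE)) := Quotient.finite _
  have h1 := h.trans (finrank_VF D F lam hl)
  have hpos : ∀ β : C.Root, 0 < C.pr lam β → C.Pos β := by
    intro β hβ
    rcases C.pos_or_neg β with h2 | h2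
    · by_contra hcon
      have h3 : ht β.1 = 0 := by
        have h4 : 0 ≤ ht β.1 := Finset.sum_nonneg fun i _ => h2 i
        unfold SLC.Pos at hcon
        omega
      have h4 : ∀ i, β.1 i = 0 := fun i =>
        (Finset.sum_eq_zero_iff_of_nonneg (fun i _ => h2 i)).1 h3 i (Finset.mem_univ _)
      exact C.root_ne_zero β (funext h4)
    · exfalso
      have h3 : C.pr lam β ≤ 0 := by
        refine Finset.sum_nonpos fun i _ => ?_
        have h4 : ((β.1 i : ℤ) : ℝ) ≤ 0 := by exact_mod_cast h2 i
        exact mul_nonpos_of_nonpos_of_nonneg h4 (hd i)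
      linarith
  let ψ : {q : Quotient (Equiv.Perm.SameCycle.setoid D.rE) // 0 < C.pr lam (Quotient.out q)} →
      D.POrb := fun q => ⟨q.1, hpos _ q.2⟩
  have hψ : Function.Injective ψ := by
    intro a b hab
    apply Subtype.ext
    exact congrArg (fun x : D.POrb => x.1) hab
  have hψb : Function.Bijective ψ := hψ.bijective_of_nat_card_le h1
  have hout := K8a_out D (Quotient.mk _ (C.simple i)) (C.simple i) rfl
  have hP : C.Pos (Quotient.out (Quotient.mk (Equiv.Perm.SameCycle.setoid D.rE) (C.simple i))) := by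
    refine (K8a_orb D (P := fun β => C.Pos β) (fun β => ?_) hout).2 ?_
    · unfold SLC.Pos
      rw [D.r_ht]
    · unfold SLC.Pos
      rw [C.ht_simple]
      exact one_pos
  obtain ⟨q, hq⟩ := hψb.2 ⟨_, hP⟩
  have h2 : q.1 = Quotient.mk _ (C.simple i) := congrArg (fun x : D.POrb => x.1) hq
  have h3 := q.2
  rw [h2] at h3
  have h4 := (K8a_orb D (P := fun β => 0 < C.pr lam β)
    (fun β => by rw [pr_r D lam hl]) hout).1 h3
  rwa [C.pr_simple] at h4

variable {F}

theorem gr_fix (lam : Fin n → ℝ) (hl : ∀ i, lam (D.ρ i) = lam i) (m : ℝ) (g : GL C.Idx F)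
    (h : D.sgl (RingEquiv.refl F) g = g) :
    D.mat F * C.gr lam m ((g : Matrix C.Idx C.Idx F) - 1) * (D.mat F)ᵀ =
      C.gr lam m ((g : Matrix C.Idx C.Idx F) - 1) := by
  classical
  have hg : D.mat F * (g : Matrix C.Idx C.Idx F) * (D.mat F)ᵀ = (g : Matrix C.Idx C.Idx F) := by
    have h1 := congrArg (fun x : GL C.Idx F => (x : Matrix C.Idx C.Idx F)) h
    simp only [Dg.sgl_apply, Units.val_mul, SLC.mp_val] at h1
    have h2 : ((g : Matrix C.Idx C.Idx F)).map ((RingEquiv.refl F : F ≃+* F) : F →+* F) =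
        (g : Matrix C.Idx C.Idx F) := by
      ext a b
      rfl
    rw [h2] at h1
    exact h1
  have hdg : ∀ a : C.Idx, C.dg lam (K8a_p D a) = C.dg lam a := by
    intro a
    rcases a with i | β
    · rfl
    · exact pr_r D lam hl β
  apply K8a_ext D F
  intro a b
  rw [K8a_entry]
  have h1 := K8a_entry D F (g : Matrix C.Idx C.Idx F) a b
  rw [hg] at h1
  unfold SLC.gr
  simp only [hdg, Matrix.sub_apply, h1, K8a_one]
  split_ifs
  · ring
  · ring

end

end Pool.Agent.H75.UL
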