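import Pool.Agent.H75.UK.K7
import Pool.Agent.H75.UK.K8a

/-!
# Project UK, module K8: the optimal weight is regular

For each `i` let `m_i ≥ m` be the degree of `exists_max_deg` for `X = {y i t - 1 | t}` and
`f i t = gr lam m_i (y i t - 1)`. It is additive (`gr_prod`), not zero, fixed by `M ↦ mat M matᵀ`
(`gr_fix`), and in the span of the `E β` with `pr lam β = m_i > 0` (`gr_mem`), so in `VF D L lam`. For
`p = tt τ`: `f i (a i τ * t) = gr lam 0 p * f i t * gr lam 0 p⁻¹` (`gr_conj`). Let `V ≤ VF D L lam` be the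
span of all `f i t`; `A τ` is the restriction to `V` of `M ↦ gr lam 0 p * M * gr lam 0 p⁻¹` (it maps
`f i t` to `f i (a i τ * t)`, so `V` to `V`); the `A τ` commute on `V`: `gr lam 0 p * gr lam 0 p' =
gr lam 0 (p p')` (`gr_mul` with `s = t = 0`) and the `tt τ` commute, the same for the inverses.
`count_le`: `card ι ≤ finrank V ≤ finrank (VF D L lam)`. Now `finrank_lt`.
-/

set_option autoImplicit false
open Matrix
universe u
namespace Pool.Agent.H75.UL

section
variable {n : ℕ} {C : SLC n} (D : Dg C) {L : Type*} [Field L] [IsAlgClosed L]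

theorem lam_regular (lam : Fin n → ℝ) (hd : ∀ i, 0 ≤ lam i) (hl : ∀ i, lam (D.ρ i) = lam i)
    (m : ℝ) (hm : 0 < m) {k T ι : Type*} [Field k] [Finite ι] (a : ι → T → k)
    (tt : T → GL C.Idx L) (y : ι → k → GL C.Idx L)
    (htt : ∀ s t, tt s * tt t = tt t * tt s)
    (htl : ∀ τ, C.FilR lam 0 (tt τ : Matrix C.Idx C.Idx L) ∧
      C.FilR lam 0 (((tt τ)⁻¹ : GL C.Idx L) : Matrix C.Idx C.Idx L))
    (hyG : ∀ i t, y i t ∈ C.Gad L) (hyf : ∀ i t, D.sgl (RingEquiv.refl L) (y i t) = y i t)
    (hya : ∀ i s t, y i (s + t) = y i s * y i t) (hy1 : ∀ i, ∃ t, y i t ≠ 1)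
    (hyl : ∀ i t, C.FilR lam m ((y i t : Matrix C.Idx C.Idx L) - 1))
    (hyT : ∀ i τ t, tt τ * y i t * (tt τ)⁻¹ = y i (a i τ * t))
    (hs : ∀ i j, i ≠ j → ∃ τ, a i τ = 1 ∧ a j τ ≠ 1)
    (hcard : Nat.card D.POrb ≤ Nat.card ι) (i : Fin n) : 0 < lam i := by
  -- maximal degrees
  have hX : ∀ j : ι, ∃ m', m ≤ m' ∧ (∀ t, C.FilR lam m' ((y j t : Matrix C.Idx C.Idx L) - 1)) ∧
      ∃ t, C.gr lam m' ((y j t : Matrix C.Idx C.Idx L) - 1) ≠ 0 := by
    intro j
    obtain ⟨m', h1, h2, h3⟩ := C.exists_max_deg lam m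
      (Set.range fun t => (y j t : Matrix C.Idx C.Idx L) - 1)
      (by rintro M ⟨t, rfl⟩; exact hyl j t)
      (by
        obtain ⟨t, ht⟩ := hy1 j
        refine ⟨_, ⟨t, rfl⟩, ?_⟩
        intro h0
        apply ht
        apply Units.ext
        rw [sub_eq_zero] at h0
        simpa using h0)
    refine ⟨m', h1, fun t => h2 _ ⟨t, rfl⟩, ?_⟩
    obtain ⟨M, ⟨t, rfl⟩, h4⟩ := h3
    exact ⟨t, h4⟩
  choose mm hm1 hm2 hm3 using hX
  have hmpos : ∀ j, 0 < mm j := fun j => lt_of_lt_of_le hm (hm1 j)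
  set f : ι → k → Matrix C.Idx C.Idx L :=
    fun j t => C.gr lam (mm j) ((y j t : Matrix C.Idx C.Idx L) - 1) with hf
  have hfadd : ∀ j s t, f j (s + t) = f j s + f j t := by
    intro j s t
    have h1 := (C.gr_prod lam (mm j) (hmpos j) (y j s) (y j t) (hm2 j s) (hm2 j t)).2
    simp only [hf]
    rw [hya j s t]
    exact h1
  have hfV : ∀ j t, f j t ∈ VF D L lam := by
    intro j t
    rw [mem_VF]
    constructor
    · have h1 := C.gr_mem lam hd (mm j) (hmpos j) (y j t) (hyG j t) (hm2 j t)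
      refine Submodule.span_mono ?_ h1
      rintro M ⟨β, hβ, rfl⟩
      exact ⟨β, by rw [hβ]; exact hmpos j, rfl⟩
    · exact gr_fix D lam hl (mm j) (y j t) (hyf j t)
  -- the operators
  set P : T → Matrix C.Idx C.Idx L := fun τ => C.gr lam 0 (tt τ : Matrix C.Idx C.Idx L) with hP
  set P' : T → Matrix C.Idx C.Idx L :=
    fun τ => C.gr lam 0 (((tt τ)⁻¹ : GL C.Idx L) : Matrix C.Idx C.Idx L) with hP'
  have hPP : ∀ s t, P s * P t = P t * P s := by
    intro s t
    have h1 := C.gr_mul (htl s).1 (htl t).1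
    have h2 := C.gr_mul (htl t).1 (htl s).1
    simp only [hP]
    rw [← h1, ← h2]
    congr 1
    have h3 := congrArg (fun g : GL C.Idx L => (g : Matrix C.Idx C.Idx L)) (htt s t)
    simpa using h3
  have hPP' : ∀ s t, P' s * P' t = P' t * P' s := by
    intro s t
    have h1 := C.gr_mul (htl s).2 (htl t).2
    have h2 := C.gr_mul (htl t).2 (htl s).2
    simp only [hP']
    rw [← h1, ← h2]
    congr 1
    have h4 : (tt s)⁻¹ * (tt t)⁻¹ = (tt t)⁻¹ * (tt s)⁻¹ := by
      rw [← _root_.mul_inv_rev, ← _root_.mul_inv_rev, htt s t]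
    have h3 := congrArg (fun g : GL C.Idx L => (g : Matrix C.Idx C.Idx L)) h4
    simpa only [Units.val_mul] using h3
  set B : T → Matrix C.Idx C.Idx L →ₗ[L] Matrix C.Idx C.Idx L := fun τ =>
    { toFun := fun M => P τ * M * P' τ
      map_add' := fun M N => by rw [Matrix.mul_add, Matrix.add_mul]
      map_smul' := fun c M => by
        rw [RingHom.id_apply, Matrix.mul_smul, Matrix.smul_mul] } with hB
  have hBf : ∀ j τ t, B τ (f j t) = f j (a j τ * t) := by
    intro j τ t
    have h1 := (C.gr_conj lam (mm j) (tt τ) (y j t) (htl τ).1 (htl τ).2 (hm2 j t)).2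
    rw [hyT j τ t] at h1
    simp only [hB, hf, hP, hP', LinearMap.coe_mk, AddHom.coe_mk]
    exact h1.symm
  set V : Submodule L (Matrix C.Idx C.Idx L) :=
    Submodule.span L {M | ∃ j t, M = f j t} with hV
  have hfm : ∀ j t, f j t ∈ V := fun j t => Submodule.subset_span ⟨j, t, rfl⟩
  have hVle : V ≤ VF D L lam := by
    rw [hV, Submodule.span_le]
    rintro M ⟨j, t, rfl⟩
    exact hfV j t
  have hBV : ∀ τ, ∀ M ∈ V, B τ M ∈ V := by
    intro τ M hM
    have h1 : V ≤ V.comap (B τ) := by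
      conv_lhs => rw [hV]
      rw [Submodule.span_le]
      rintro N ⟨j, t, rfl⟩
      change B τ (f j t) ∈ V
      rw [hBf]
      exact hfm _ _
    exact h1 hM
  have hcount : Nat.card ι ≤ Module.finrank L V := by
    apply Pool.Agent.H75.UK.count_le a (fun τ => (B τ).restrict (hBV τ)) ?_
      (fun j t => (⟨f j t, hfm j t⟩ : V)) ?_ ?_ ?_ hs
    · intro s t
      apply LinearMap.ext
      intro M
      apply Subtype.ext
      simp only [LinearMap.comp_apply, LinearMap.coe_restrict_apply]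
      simp only [hB, LinearMap.coe_mk, AddHom.coe_mk]
      calc P s * (P t * (M : Matrix C.Idx C.Idx L) * P' t) * P' s
          = (P s * P t) * (M : Matrix C.Idx C.Idx L) * (P' t * P' s) := by
            simp only [Matrix.mul_assoc]
        _ = (P t * P s) * (M : Matrix C.Idx C.Idx L) * (P' s * P' t) := by
            rw [hPP s t, hPP' t s]
        _ = P t * (P s * (M : Matrix C.Idx C.Idx L) * P' s) * P' t := by
            simp only [Matrix.mul_assoc]
    · intro j s t
      apply Subtype.ext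
      exact hfadd j s t
    · intro j
      obtain ⟨t, ht⟩ := hm3 j
      refine ⟨t, fun h0 => ht ?_⟩
      exact congrArg Subtype.val h0
    · intro j τ t
      apply Subtype.ext
      rw [LinearMap.coe_restrict_apply]
      exact (hBf j τ t).symm
  have hfin : Module.finrank L V ≤ Module.finrank L (VF D L lam) := Submodule.finrank_mono hVle
  exact finrank_lt D L lam hd hl (hcard.trans (hcount.trans hfin)) i

end

end Pool.Agent.H75.UL
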