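import Pool.Agent.H75.UK.K9b
import Pool.Agent.H86.UM.Src

/-!
# Project UK, module K9: nonvanishing and occurrence from the bijection of orbits

`O` from `exists_occ`. By `orbit_inv` for `i₀ = e J` the root `(O (e J)).out` is in the orbit of a simple
root `α_j`; the class `c J` of `j` in `D.Orb` is well defined by it (roots `D.r^[l] (simple j)` are
`simple (ρ^l j)`), and `c` is injective (`O`, `e` injective), so by `hc0` (`D.Orb` is finite) surjective.
`kap (simple j) = xi j` (definition of `xi`; the only coordinate `i` of `simple j` with nonzero value is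
`j`). If `j'` is in the class `c J` then `xi j' (y (e J) t) ≠ 0` for some `t`: `Occ` for
`β = (O (e J)).out`, of height `1`, and `kap_sgl` (`θ = 1`, `sg ≠ 0`) along the orbit. `hX` gives `x ∈ S.X J`.
-/

set_option autoImplicit false
open Matrix
universe u
namespace Pool.Agent.H75.UL

open Pool.Agent.H86.UM

section
variable {n : ℕ} {C : SLC n} (D : Dg C) {L : Type*} [Field L]

theorem SLC.kap_simple (j : Fin n) (M : Matrix C.Idx C.Idx L) :
    C.kap (C.simple j) M = C.xi j M := by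
  have hex : ∃ i, (((C.simple j).1 i : ℤ) : L) ≠ 0 := ⟨j, by simp⟩
  have aux : ∀ i, (((C.simple j).1 i : ℤ) : L) ≠ 0 → i = j := by
    intro i hi
    by_contra hne
    apply hi
    rw [SLC.simple_val, Pi.single_eq_of_ne hne, Int.cast_zero]
  have hch : hex.choose = j := aux _ hex.choose_spec
  unfold SLC.kap SLC.xi
  rw [dif_pos hex, hch, SLC.simple_val, Pi.single_eq_same, Int.cast_one, div_one]

private theorem K9_pow (l : ℕ) (i : Fin n) :
    (D.rE ^ l) (C.simple i) = C.simple ((D.ρ ^ l) i) := by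
  induction l with
  | zero => simp
  | succ l ih =>
    rw [pow_succ', Equiv.Perm.mul_apply, ih, Dg.rE_apply, D.r_simple, pow_succ',
      Equiv.Perm.mul_apply]

private theorem K9_cycle {i j : Fin n} (h : D.ρ.SameCycle i j) :
    D.rE.SameCycle (C.simple i) (C.simple j) := by
  obtain ⟨l, hl⟩ := h.exists_nat_pow_eq
  refine ⟨(l : ℤ), ?_⟩
  rw [zpow_natCast, K9_pow, hl]

private theorem K9_ht (l : ℕ) (β : C.Root) : ht ((D.rE ^ l) β).1 = ht β.1 := by
  induction l with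
  | zero => simp
  | succ l ih => rw [pow_succ', Equiv.Perm.mul_apply, Dg.rE_apply, D.r_ht, ih]

private theorem K9_kap {m : ℤ} (hm : 1 ≤ m) {u : GL C.Idx L} (hu : u ∈ (C.adS L).U m)
    (hf : D.sgl (RingEquiv.refl L) u = u) {β : C.Root} (hβ : ht β.1 = m)
    (hk : C.kap β (u : Matrix C.Idx C.Idx L) ≠ 0) (l : ℕ) :
    C.kap ((D.rE ^ l) β) (u : Matrix C.Idx C.Idx L) ≠ 0 := by
  induction l with
  | zero => simpa using hk
  | succ l ih =>
    have h1 := C.kap_sgl D (RingEquiv.refl L) m hm u hu ((D.rE ^ l) β)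
      (by rw [K9_ht]; exact hβ)
    rw [hf] at h1
    rw [pow_succ', Equiv.Perm.mul_apply, Dg.rE_apply, h1]
    refine mul_ne_zero ?_ ih
    rcases D.sg_eq ((D.rE ^ l) β) with h | h <;> simp [h]

theorem tgt_of_fam {ι₀ : Type} {E : Type*} [Group E] {k : Type*} [Field k] (S : Src ι₀ E k)
    (Ψ : E →* GL C.Idx L) {T ι : Type*} [Finite ι] {a : ι → T → k} {tt : T → GL C.Idx L}
    {y : ι → k → GL C.Idx L} (h : Fam D a tt y) (hcard : Nat.card D.POrb = Nat.card ι)
    (e : ι₀ → ι) (he : Function.Injective e) (hc0 : Nat.card D.Orb ≤ Nat.card ι₀)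
    (hG : ∀ x, Ψ x ∈ C.Gad L) (hfix : ∀ x, D.sgl (RingEquiv.refl L) (Ψ x) = Ψ x)
    (hU : ∀ u ∈ S.U, Ψ u ∈ (C.adS L).U 1)
    (hT : ∀ t ∈ S.T, C.Fil 0 (Ψ t : Matrix C.Idx C.Idx L))
    (hX : ∀ J t, ∃ x ∈ S.X J, Ψ x = y (e J) t)
    (hg : ∀ J, ∃ g : E, (∀ i, i ≠ e J → ∀ t, (Ψ g)⁻¹ * y i t * Ψ g ∈ (C.adS L).U 1) ∧
      ∃ τ τ' τ'', Ψ g * tt τ * (Ψ g)⁻¹ = tt τ' ∧ tt τ * tt τ'' = tt τ' ∧ a (e J) τ'' ≠ 1) :
    Tgt C S Ψ := by
  classical
  obtain ⟨O, hO⟩ := exists_occ D h hcard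
  have horb : ∀ J : ι₀, ∃ j : Fin n,
      D.rE.SameCycle (Quotient.out (O (e J)).1) (C.simple j) := by
    intro J
    obtain ⟨g, hg1, τ, τ', τ'', h1, h2, h3⟩ := hg J
    exact orbit_inv D h O hO (e J) (Ψ g) (hG g) (hfix g) hg1 ⟨τ, τ', τ'', h1, h2, h3⟩
  choose jj hjj using horb
  -- the root elements of the orbit of `jj J` occur
  have hkey : ∀ J j, D.rE.SameCycle (Quotient.out (O (e J)).1) (C.simple j) →
      ∃ x ∈ S.X J, C.xi j (Ψ x : Matrix C.Idx C.Idx L) ≠ 0 := by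
    intro J j hj
    obtain ⟨o1, ⟨t, o2⟩, -⟩ := hO (e J)
    obtain ⟨l, hl⟩ := hj.exists_nat_pow_eq
    have hht : ht (Quotient.out (O (e J)).1).1 = 1 := by
      rw [← K9_ht D l, hl]
      exact C.ht_simple j
    have h1 : y (e J) t ∈ (C.adS L).U 1 := by
      have := o1 t
      rwa [hht] at this
    have h2 := K9_kap D le_rfl h1 (h.yf (e J) t) hht o2 l
    rw [hl, SLC.kap_simple] at h2
    obtain ⟨x, hx, hx'⟩ := hX J t
    exact ⟨x, hx, by rw [hx']; exact h2⟩
  obtain ⟨cl, hcl⟩ : ∃ cl : ι₀ → D.Orb, ∀ J, cl J = Quotient.mk _ (jj J) := ⟨_, fun _ => rfl⟩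
  have hinj : Function.Injective cl := by
    intro J J' hJ
    rw [hcl, hcl] at hJ
    have h1 : D.ρ.SameCycle (jj J) (jj J') := Quotient.exact hJ
    have h2 := ((hjj J).trans (K9_cycle D h1)).trans (hjj J').symm
    have h3 : (O (e J)).1 = (O (e J')).1 := by
      rw [← Quotient.out_eq (O (e J)).1, ← Quotient.out_eq (O (e J')).1]
      exact Quotient.sound h2
    exact he (O.injective (Subtype.ext h3))
  have hsurj : Function.Surjective cl := (hinj.bijective_of_nat_card_le hc0).2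
  refine ⟨hG, hU, hT, fun j => ?_, fun J => ⟨jj J, hkey J (jj J) (hjj J)⟩⟩
  obtain ⟨J, hJ⟩ := hsurj (Quotient.mk _ j)
  rw [hcl] at hJ
  have h1 : D.ρ.SameCycle (jj J) j := Quotient.exact hJ
  exact ⟨J, hkey J j ((hjj J).trans (K9_cycle D h1))⟩

end

end Pool.Agent.H75.UL
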