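import Pool.Agent.H75.UK.K5
import Pool.Agent.H75.UK.K6
import Pool.Agent.H75.UK.K8
import Pool.Agent.H75.UK.K9
import Pool.Agent.H75.UK.K10a
import Pool.Agent.H75.UK.F1b
import Pool.Agent.H86.UM.SRc
import Pool.Agent.H86.UM.UNI
import Pool.Agent.H86.UM.CT
import Pool.Agent.H86.UL.F2

/-!
# Project UK, module F2a: the chamber over the algebraic closure, folded types

`Ψ : Eg S s →* GL C.Idx L`, `L` algebraically closed. `Γ = Ψ (fixU)`; it is unipotent (`uniE` with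
`κ = C.Idx`), in `Gad L`; `fixed_chamber` (H86/UL/F2) and `mem_U_of_unipotent` give `g₀` for `exists_opt`
(`Γ ≠ ⊥`: some `Ψ (yb β t) ≠ 1` by `hne`, for `β` simple). So `(g, lam, c)` is optimal, `opt_sgl` (`Γ` is
fixed pointwise by `sgl`), `gate` (`θ = 1`, `hA = Or.inl hNA`) gives `g₁ ∈ Eg (adS L) (sgl 1)`,
`g₁⁻¹ g, g⁻¹ g₁ ∈ FilR lam 0`. (`hne` below: `Ψ (yb β t) = 1` implies `yb β t` central, so `t = 0` by
`yb_central`.) `Sp Γ g₁ lam c` by `Sp_P`; for `τ ∈ T₁ = S.T ⊓ Eg S s`: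
`g⁻¹ Ψ(τ) g ∈ FilR lam 0` (`opt_normalizer`; `T_conj_U`), so also `g₁⁻¹ Ψ(τ) g₁` and its inverse. Put
`Ψ₁ x = g₁⁻¹ Ψ(x) g₁` (fixed by `sgl 1`, since `g₁` is: `Eg_le_fix`), `ι = D.POrb`,
`y q t = Ψ₁ (yb q.out t)`, `T = {τ // τ ∈ T₁}`, `a q τ = chi (p τ) q.out`, `tt = Ψ₁`. `lam_regular`:
`yb_fixU`, `yb_add`, `yb_T`, `hne`, `tor_sep` (different classes `q` have `out` in different cycles).
So all `lam i > 0`; `upper_of_FilR`: `Ψ₁ (τ)` is in `Fil 0`; `mem_U_of_FilR`: `Ψ₁ (fixU) ≤ U 1`. So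
`Fam D a tt y`. `tgt_of_fam` with `S = srcOf he`, `e J` = the class of `simple J.out` (positive; injective by
`sameCycle_simple`), `hcard` is `rfl`, `hX`: `yb q.out t` with `q = e J` is in `fixX (simple J.out)`
(`yb_X`). `hg`: the element `nuJ he J.out`: `nu_yb` (for `i ≠ e J`), `nu_tor` with
`τ' = ν τ ν⁻¹`, `τ'' = τ⁻¹ τ'`. `Ψ₁ = cj Ψ g₁`.
-/

set_option autoImplicit false
open Matrix
universe u
namespace Pool.Agent.H75.UL

open Pool.Agent.H86.UM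

variable {n : ℕ} {C : SLC n} {D : Dg C} {k : Type*} [Field k] {H : Type*} [Group H]
  {S : StSys C k H} {s : H →* H} {p : H →* GL C.Idx k}

private theorem F2a_out (D : Dg C) (q : Quotient (Equiv.Perm.SameCycle.setoid D.rE)) (β : C.Root)
    (h : Quotient.mk _ β = q) : D.rE.SameCycle β (Quotient.out q) := by
  subst h
  exact ((Quotient.mk_out (s := Equiv.Perm.SameCycle.setoid D.rE) β) : D.rE.SameCycle _ _).symm

private theorem F2a_eq (D : Dg C) (q : Quotient (Equiv.Perm.SameCycle.setoid D.rE)) (β : C.Root)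
    (h : D.rE.SameCycle β (Quotient.out q)) : Quotient.mk _ β = q := by
  rw [← Quotient.out_eq q]
  exact Quotient.sound h

/-- `τ⁻¹ u τ` is in `fixU` -/
private theorem F2a_norm (u τ : H) (hu : u ∈ fixU S s) (hτ : τ ∈ S.T) (hs : s τ = τ) :
    τ⁻¹ * u * τ ∈ fixU S s := by
  obtain ⟨h1, h2⟩ := hu
  have h2' : s u = u := h2
  refine ⟨?_, ?_⟩
  · have := S.T_conj_U 1 τ⁻¹ u (inv_mem hτ) h1
    rwa [inv_inv] at this
  · change s (τ⁻¹ * u * τ) = τ⁻¹ * u * τ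
    rw [map_mul, map_mul, map_inv, hs, h2']

theorem folded_chamber (he : Env D (RingEquiv.refl k) S s p) (hNA : D.NA) (hn : 0 < n)
    {L : Type*} [Field L] [IsAlgClosed L] (Ψ : Eg S s →* GL C.Idx L) (hΨ : ∀ x, Ψ x ∈ C.Gad L)
    (hσ : ∀ x, D.sgl (RingEquiv.refl L) (Ψ x) = Ψ x)
    (hker : ∀ x : Eg S s, Ψ x = 1 → x ∈ Subgroup.center (Eg S s)) :
    ∃ g ∈ C.Gad L, Tgt C (srcOf he) (cj Ψ g) := by
  classical
  have hfix : ∀ x : Eg S s, s (x : H) = x := fun x => Eg_le_fix S s x x.2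
  have hUE : ∀ u : H, u ∈ fixU S s → u ∈ Eg S s := fun u hu => (le_sup_left : fixU S s ≤ _) hu
  have hybE : ∀ β : C.Root, C.Pos β → ∀ t : k, yb D S s β t ∈ Eg S s :=
    fun β hβ t => hUE _ (yb_fixU he hNA β hβ t)
  -- nonvanishing of the root elements
  have hne : ∀ (β : C.Root) (hβ : C.Pos β) (t : k), t ≠ 0 →
      Ψ ⟨yb D S s β t, hybE β hβ t⟩ ≠ 1 := by
    intro β hβ t ht h0
    have h1 := hker _ h0
    apply ht
    refine yb_central he hNA β hβ t fun τ hτ => ?_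
    have h2 := Subgroup.mem_center_iff.1 h1 ⟨τ, hτ.2⟩
    exact congrArg (fun x : Eg S s => (x : H)) h2
  -- the group `Γ`
  set UE : Subgroup (Eg S s) := (fixU S s).subgroupOf (Eg S s) with hUEd
  set Γ : Subgroup (GL C.Idx L) := UE.map Ψ with hΓd
  have hΓmem : ∀ u : Eg S s, (u : H) ∈ fixU S s → Ψ u ∈ Γ := fun u hu => ⟨u, hu, rfl⟩
  have hΓG : Γ ≤ C.Gad L := by
    rintro _ ⟨u, _, rfl⟩
    exact hΨ u
  have hΓu : ∀ γ ∈ Γ, IsNilpotent ((γ : Matrix C.Idx C.Idx L) - 1) := by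
    rintro _ ⟨u, hu, rfl⟩
    exact uniE he Ψ u hu
  obtain ⟨g₀, hg₀, hg₀F⟩ := C.fixed_chamber L Γ hΓG hΓu
  have hg₀U : ∀ γ ∈ Γ, g₀⁻¹ * γ * g₀ ∈ (C.adS L).U 1 := by
    intro γ hγ
    refine C.mem_U_of_unipotent _ (mul_mem (mul_mem (inv_mem hg₀) (hΓG hγ)) hg₀) (hg₀F γ hγ) ?_
    obtain ⟨N, hN⟩ := hΓu γ hγ
    refine ⟨N, ?_⟩
    have e1 : (((g₀⁻¹ * γ * g₀ : GL C.Idx L) : Matrix C.Idx C.Idx L) - 1) =
        ((g₀⁻¹ : GL C.Idx L) : Matrix C.Idx C.Idx L) * ((γ : Matrix C.Idx C.Idx L) - 1) *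
          (((g₀⁻¹)⁻¹ : GL C.Idx L) : Matrix C.Idx C.Idx L) := by
      rw [inv_inv, Units.val_mul, Units.val_mul, mul_sub, sub_mul, mul_one, Units.inv_mul]
    rw [e1, Units.conj_pow, hN, mul_zero, zero_mul]
  have hΓne : Γ ≠ ⊥ := by
    intro h0
    have hβ : C.Pos (C.simple ⟨0, hn⟩) := by
      unfold SLC.Pos
      rw [C.ht_simple]
      exact one_pos
    have h1 := hΓmem ⟨yb D S s (C.simple ⟨0, hn⟩) 1, hybE _ hβ 1⟩ (yb_fixU he hNA _ hβ 1)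
    rw [h0, Subgroup.mem_bot] at h1
    exact hne _ hβ 1 one_ne_zero h1
  obtain ⟨g, lam, c, hopt⟩ := C.exists_opt hn Γ hΓne g₀ hg₀ hg₀U
  have hΓσ : Γ.map (D.sgl (RingEquiv.refl L)) = Γ := by
    ext x
    constructor
    · rintro ⟨_, ⟨u, hu, rfl⟩, rfl⟩
      rw [hσ]
      exact ⟨u, hu, rfl⟩
    · rintro ⟨u, hu, rfl⟩
      exact ⟨Ψ u, ⟨u, hu, rfl⟩, hσ u⟩
  obtain ⟨hl, hF1, hF2⟩ := opt_sgl D (RingEquiv.refl L) Γ hΓne hΓσ g lam c hopt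
  obtain ⟨g₁, hg₁E, hg₁a, hg₁b⟩ := gate D (RingEquiv.refl L)
    (by intro t; exact Function.iterate_fixed rfl _) (Or.inl hNA) lam hopt.dom hl g hopt.mem hF1 hF2
  have hg₁G : g₁ ∈ C.Gad L := by
    rw [← C.gen_adS]
    exact Eg_le_gen _ _ hg₁E
  have hg₁σ : D.sgl (RingEquiv.refl L) g₁ = g₁ := Eg_le_fix _ _ g₁ hg₁E
  have hopt₁ : C.Opt Γ g₁ lam c := by
    refine ⟨hg₁G, hopt.dom, hopt.nrm, hopt.pos, ?_, hopt.max⟩
    have h1 := C.Sp_P Γ g (g⁻¹ * g₁) lam c hg₁b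
      (by rw [_root_.mul_inv_rev, inv_inv]; exact hg₁a) hopt.sp
    rwa [mul_inv_cancel_left] at h1
  -- the conjugate
  have hcG : ∀ x, cj Ψ g₁ x ∈ C.Gad L := by
    intro x
    rw [cj_apply]
    exact mul_mem (mul_mem (inv_mem hg₁G) (hΨ x)) hg₁G
  have hcσ : ∀ x, D.sgl (RingEquiv.refl L) (cj Ψ g₁ x) = cj Ψ g₁ x := by
    intro x
    rw [cj_apply, map_mul, map_mul, map_inv, hσ, hg₁σ]
  have hcU0 : ∀ u : Eg S s, (u : H) ∈ fixU S s →
      C.FilR lam c ((cj Ψ g₁ u : Matrix C.Idx C.Idx L) - 1) := by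
    intro u hu
    rw [cj_apply]
    exact hopt₁.sp _ (hΓmem u hu)
  have hcU : ∀ u : Eg S s, (u : H) ∈ fixU S s → cj Ψ g₁ u ∈ (C.adS L).U 1 := fun u hu =>
    C.mem_U_of_FilR lam hopt.dom c hopt.pos _ (hcG u) (hcU0 u hu)
  have hcT0 : ∀ τ : Eg S s, (τ : H) ∈ S.T →
      C.FilR lam 0 (cj Ψ g₁ τ : Matrix C.Idx C.Idx L) := by
    intro τ hτ
    rw [cj_apply]
    refine C.opt_normalizer Γ hΓne g₁ lam c hopt₁ (Ψ τ) (hΨ τ) ?_
    rintro _ ⟨u, hu, rfl⟩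
    refine ⟨τ⁻¹ * u * τ, F2a_norm (u : H) (τ : H) hu hτ (hfix τ), ?_⟩
    rw [map_mul, map_mul, map_inv]
  -- the family
  have hq : ∀ q : D.POrb, C.Pos (Quotient.out q.1) := fun q => q.2
  obtain ⟨y, hy⟩ : ∃ y : D.POrb → k → GL C.Idx L, ∀ q t, y q t =
      cj Ψ g₁ ⟨yb D S s (Quotient.out q.1) t, hybE _ (hq q) t⟩ := ⟨_, fun _ _ => rfl⟩
  set T₁ : Type _ := {x : Eg S s // (x : H) ∈ S.T} with hT₁
  obtain ⟨tt, htt⟩ : ∃ tt : T₁ → GL C.Idx L, ∀ τ, tt τ = cj Ψ g₁ τ.1 := ⟨_, fun _ => rfl⟩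
  obtain ⟨a, ha⟩ : ∃ a : D.POrb → T₁ → k, ∀ q τ, a q τ =
      C.chi (p ((τ.1 : Eg S s) : H) : Matrix C.Idx C.Idx k) (Quotient.out q.1) :=
    ⟨_, fun _ _ => rfl⟩
  have hyG : ∀ q t, y q t ∈ C.Gad L := fun q t => by rw [hy]; exact hcG _
  have hyf : ∀ q t, D.sgl (RingEquiv.refl L) (y q t) = y q t := fun q t => by
    rw [hy]; exact hcσ _
  have hya : ∀ q s' t, y q (s' + t) = y q s' * y q t := by
    intro q s' t
    rw [hy, hy, hy, ← map_mul]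
    congr 1
    exact Subtype.ext (yb_add he hNA _ s' t)
  have hy1 : ∀ q, ∃ t, y q t ≠ 1 := by
    intro q
    refine ⟨1, fun h0 => ?_⟩
    rw [hy, cj_apply] at h0
    apply hne _ (hq q) 1 one_ne_zero
    have h1 : g₁ * (g₁⁻¹ * Ψ ⟨yb D S s (Quotient.out q.1) 1, hybE _ (hq q) 1⟩ * g₁) * g₁⁻¹ =
        Ψ ⟨yb D S s (Quotient.out q.1) 1, hybE _ (hq q) 1⟩ := by group
    rw [← h1, h0]
    group
  have hyl : ∀ q t, C.FilR lam c ((y q t : Matrix C.Idx C.Idx L) - 1) := by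
    intro q t
    rw [hy]
    exact hcU0 _ (yb_fixU he hNA _ (hq q) t)
  have hyT : ∀ q τ t, tt τ * y q t * (tt τ)⁻¹ = y q (a q τ * t) := by
    intro q τ t
    rw [hy, hy, htt, ha, ← map_inv, ← map_mul, ← map_mul]
    congr 1
    exact Subtype.ext (yb_T he hNA _ _ ⟨τ.2, τ.1.2⟩ t)
  have hs : ∀ i j, i ≠ j → ∃ τ, a i τ = 1 ∧ a j τ ≠ 1 := by
    intro i j hij
    obtain ⟨τ, hτ, h1, h2⟩ := tor_sep he hNA (Quotient.out i.1) (Quotient.out j.1) (hq i) (hq j)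
      (by
        intro hsc
        apply hij
        apply Subtype.ext
        rw [← Quotient.out_eq i.1]
        exact F2a_eq D j.1 _ hsc)
    refine ⟨⟨⟨τ, hτ.2⟩, hτ.1⟩, ?_, ?_⟩
    · rw [ha]; exact h1
    · rw [ha]; exact h2
  have : Finite (Quotient (Equiv.Perm.SameCycle.setoid D.rE)) := Quotient.finite _
  have hreg : ∀ i, 0 < lam i := by
    refine lam_regular D lam hopt.dom hl c hopt.pos a tt y ?_ ?_ hyG hyf hya hy1 hyl hyT hs le_rfl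
    · intro σ τ
      rw [htt, htt, ← map_mul, ← map_mul]
      congr 1
      exact Subtype.ext (S.T_comm _ _ σ.2 τ.2)
    · intro τ
      rw [htt]
      refine ⟨hcT0 _ τ.2, ?_⟩
      rw [← map_inv]
      exact hcT0 _ (inv_mem τ.2)
  have hT0 : ∀ τ : Eg S s, (τ : H) ∈ S.T →
      C.Fil 0 (cj Ψ g₁ τ : Matrix C.Idx C.Idx L) := fun τ hτ =>
    C.upper_of_FilR lam hreg _ (hcG τ) (hcT0 τ hτ)
  have hfam : Fam D a tt y := by
    refine ⟨fun τ => by rw [htt]; exact hcG _, fun τ => by rw [htt]; exact hT0 _ τ.2,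
      fun q t => by rw [hy]; exact hcU _ (yb_fixU he hNA _ (hq q) t), hyf, hya, hy1, hyT, hs⟩
  have hpos : ∀ i, C.Pos (Quotient.out
      (Quotient.mk (Equiv.Perm.SameCycle.setoid D.rE) (C.simple i))) := by
    intro i
    obtain ⟨j, _, hj⟩ := D.exists_out_simple i
    rw [hj]
    unfold SLC.Pos
    rw [C.ht_simple]
    exact one_pos
  obtain ⟨e, hE⟩ : ∃ e : D.Orb → D.POrb, ∀ J, e J =
      ⟨Quotient.mk (Equiv.Perm.SameCycle.setoid D.rE) (C.simple (Quotient.out J)), hpos _⟩ :=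
    ⟨_, fun _ => rfl⟩
  refine ⟨g₁, hg₁G, tgt_of_fam D (srcOf he) (cj Ψ g₁) hfam rfl e ?_ le_rfl hcG hcσ ?_ ?_ ?_ ?_⟩
  · intro J J' hJ
    rw [hE, hE] at hJ
    have h1 := congrArg (fun x : D.POrb => x.1) hJ
    have h2 : D.rE.SameCycle (C.simple (Quotient.out J)) (C.simple (Quotient.out J')) :=
      Quotient.exact h1
    rw [D.sameCycle_simple] at h2
    rw [← Quotient.out_eq J, ← Quotient.out_eq J']
    exact Quotient.sound h2
  · intro u hu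
    exact hcU u hu
  · intro t ht
    exact hT0 t ht
  · intro J t
    refine ⟨⟨yb D S s (Quotient.out (e J).1) t, hybE _ (hq _) t⟩, ?_, (hy _ _).symm⟩
    change yb D S s (Quotient.out (e J).1) t ∈ fixX D S s (C.simple (Quotient.out J))
    refine yb_X he hNA (Quotient.out J) _ (F2a_out D _ _ ?_) t
    rw [hE]
  · intro J
    have hν := nuJ_mem he (Quotient.out J)
    refine ⟨⟨nuJ he (Quotient.out J), hν.2⟩, ?_, ?_⟩
    · intro i hi t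
      rw [hy, ← map_inv, ← map_mul, ← map_mul]
      refine hcU _ ?_
      change (nuJ he (Quotient.out J))⁻¹ * yb D S s (Quotient.out i.1) t *
        nuJ he (Quotient.out J) ∈ fixU S s
      refine nu_yb he hNA (Quotient.out J) _ (hq i) (fun hsc => hi ?_) t
      rw [hE]
      apply Subtype.ext
      exact (F2a_eq D _ _ hsc).symm
    · obtain ⟨τ, hτ, h1⟩ := nu_tor he hNA (Quotient.out J)
      have hτ' : nuJ he (Quotient.out J) * τ * (nuJ he (Quotient.out J))⁻¹ ∈ S.T :=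
        S.N_conj_T _ _ hν.1 hτ.1
      refine ⟨⟨⟨τ, hτ.2⟩, hτ.1⟩,
        ⟨⟨nuJ he (Quotient.out J), hν.2⟩ * ⟨τ, hτ.2⟩ * ⟨nuJ he (Quotient.out J), hν.2⟩⁻¹, hτ'⟩,
        ⟨⟨τ, hτ.2⟩⁻¹ * (⟨nuJ he (Quotient.out J), hν.2⟩ * ⟨τ, hτ.2⟩ *
          ⟨nuJ he (Quotient.out J), hν.2⟩⁻¹), mul_mem (inv_mem hτ.1) hτ'⟩, ?_, ?_, ?_⟩
      · rw [htt, htt, ← map_inv, ← map_mul, ← map_mul]
      · rw [htt, htt, htt, ← map_mul]
        congr 1
        group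
      · rw [ha]
        refine h1 _ (F2a_out D _ _ ?_)
        rw [hE]

end Pool.Agent.H75.UL
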