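import Pool.Agent.H75.UK.K5
import Pool.Agent.H75.UK.K6
import Pool.Agent.H86.UL.F2

/-!
# Project UK, module FG: unipotent groups of `σ`-fixed elements, `θ = 1`

A group of unipotent elements of `Gad L`, `L` algebraically closed, fixed by `sgl 1`, is conjugate into
`U` by an element of `Eg (adS L) (sgl 1)`.
-/

set_option autoImplicit false
open Matrix
universe u
namespace Pool.Agent.H75.UL

variable {n : ℕ} {C : SLC n} (D : Dg C)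

theorem fold_conj (hNA : D.NA) (hn : 0 < n) {L : Type*} [Field L] [IsAlgClosed L]
    (Γ : Subgroup (GL C.Idx L)) (hΓG : Γ ≤ C.Gad L)
    (hσ : ∀ γ ∈ Γ, D.sgl (RingEquiv.refl L) γ = γ)
    (hΓu : ∀ γ ∈ Γ, IsNilpotent ((γ : Matrix C.Idx C.Idx L) - 1)) :
    ∃ g ∈ Eg (C.adS L) (D.sgl (RingEquiv.refl L)), ∀ γ ∈ Γ, g⁻¹ * γ * g ∈ (C.adS L).U 1 := by
  classical
  by_cases hΓne : Γ = ⊥
  · refine ⟨1, one_mem _, fun γ hγ => ?_⟩
    rw [hΓne, Subgroup.mem_bot] at hγ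
    subst hγ
    simp only [inv_one, mul_one]
    exact one_mem _
  obtain ⟨g₀, hg₀, hg₀F⟩ := C.fixed_chamber L Γ hΓG hΓu
  have hg₀U : ∀ γ ∈ Γ, g₀⁻¹ * γ * g₀ ∈ (C.adS L).U 1 := by
    intro γ hγ
    refine C.mem_U_of_unipotent _ (mul_mem (mul_mem (inv_mem hg₀) (hΓG hγ)) hg₀) (hg₀F γ hγ) ?_
    obtain ⟨N, hN⟩ := hΓu γ hγ
    refine ⟨N, ?_⟩
    have e1 : (((g₀⁻¹ * γ * g₀ : GL C.Idx L) : Matrix C.Idx C.Idx L) - 1) =
        ((g₀⁻¹ : GL C.Idx L) : Matrix C.Idx C.Idx L) * ((γ : Matrix C.Idx C.Idx L) - 1) *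
          (((g₀⁻¹)⁻¹ : GL C.Idx L) : Matrix C.Idx C.Idx L) := by
      rw [inv_inv, Units.val_mul, Units.val_mul, mul_sub, sub_mul, mul_one, Units.inv_mul]
    rw [e1, Units.conj_pow, hN, mul_zero, zero_mul]
  obtain ⟨g, lam, c, hopt⟩ := C.exists_opt hn Γ hΓne g₀ hg₀ hg₀U
  have hΓσ : Γ.map (D.sgl (RingEquiv.refl L)) = Γ := by
    ext x
    constructor
    · rintro ⟨y, hy, rfl⟩
      rw [hσ y hy]
      exact hy
    · intro hx
      exact ⟨x, hx, hσ x hx⟩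
  obtain ⟨hl, hF1, hF2⟩ := opt_sgl D (RingEquiv.refl L) Γ hΓne hΓσ g lam c hopt
  obtain ⟨g₁, hg₁E, hg₁a, hg₁b⟩ := gate D (RingEquiv.refl L)
    (by intro t; exact Function.iterate_fixed rfl _) (Or.inl hNA) lam hopt.dom hl g hopt.mem hF1 hF2
  have hg₁G : g₁ ∈ C.Gad L := by
    rw [← C.gen_adS]
    exact Eg_le_gen _ _ hg₁E
  refine ⟨g₁, hg₁E, fun γ hγ => ?_⟩
  have h1 := C.Sp_P Γ g (g⁻¹ * g₁) lam c hg₁b
    (by rw [_root_.mul_inv_rev, inv_inv]; exact hg₁a) hopt.sp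
  rw [mul_inv_cancel_left] at h1
  exact C.mem_U_of_FilR lam hopt.dom c hopt.pos _
    (mul_mem (mul_mem (inv_mem hg₁G) (hΓG hγ)) hg₁G) (h1 γ hγ)

end Pool.Agent.H75.UL
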