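import Pool.Agent.H75.UL.T7

/-!
# Project UK (MP_978914_al), module K1: real filtrations

For `lam : Fin n → ℝ` the index `inr β` has degree `pr lam β = ∑ β_i lam_i`, the indices `inl i` have
degree `0`. `FilR lam s M`: `M` raises the degree by at least `s`. `gr lam m M`: the part of degree
exactly `m`. `wact w lam` is the action of the Weyl group: `pr (wact w lam) β = pr lam (w⁻¹ β)`
(`W_lin`: `w⁻¹` is linear on the roots, and a root is `∑ β_i α_i`).

`FilR_pair`: add the two inequalities. `gr_mul`: entries of a product of two matrices; a nonzero term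
`M a b * N b c` with `dg a = dg c + (s + t)` has `dg b = dg c + t` and `dg a = dg b + s`.
-/

set_option autoImplicit false
open Matrix
universe u
namespace Pool.Agent.H75.UL

namespace SLC
variable {n : ℕ} (C : SLC n)

/-- The pairing of a real weight with a root. -/
noncomputable def pr (lam : Fin n → ℝ) (β : C.Root) : ℝ := ∑ i, (β.1 i : ℝ) * lam i

/-- The degree of an index. -/
noncomputable def dg (lam : Fin n → ℝ) : C.Idx → ℝ := Sum.elim (fun _ => 0) (fun β => C.pr lam β)

/-- `M` raises the degree by at least `s`. -/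
def FilR {R : Type*} [CommRing R] (lam : Fin n → ℝ) (s : ℝ) (M : Matrix C.Idx C.Idx R) : Prop :=
  ∀ a b, M a b ≠ 0 → C.dg lam b + s ≤ C.dg lam a

open Classical in
/-- The part of degree `m`. -/
noncomputable def gr {R : Type*} [CommRing R] (lam : Fin n → ℝ) (m : ℝ)
    (M : Matrix C.Idx C.Idx R) : Matrix C.Idx C.Idx R :=
  fun a b => if C.dg lam a = C.dg lam b + m then M a b else 0

/-- The action of the Weyl group on real weights. -/
noncomputable def wact (w : Equiv.Perm C.Root) (lam : Fin n → ℝ) : Fin n → ℝ :=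
  fun i => C.pr lam (w⁻¹ (C.simple i))

/-- The invariant quadratic form. -/
noncomputable def nrm (lam : Fin n → ℝ) : ℝ := ∑ β : C.Root, C.pr lam β ^ 2

variable {R : Type*} [CommRing R]

/-- auxiliary: the weight as an additive map -/
private noncomputable def K1_L (lam : Fin n → ℝ) : (Fin n → ℤ) →+ ℝ where
  toFun v := ∑ i, (v i : ℝ) * lam i
  map_zero' := by simp
  map_add' u v := by simp [add_mul, Finset.sum_add_distrib]

private theorem K1_pr (lam : Fin n → ℝ) (β : C.Root) : C.pr lam β = K1_L lam β.1 := rfl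

theorem pr_simple (lam : Fin n → ℝ) (i : Fin n) : C.pr lam (C.simple i) = lam i := by
  unfold pr
  rw [Finset.sum_eq_single i]
  · simp
  · intro j _ hj
    simp [hj]
  · intro h
    exact absurd (Finset.mem_univ i) h

theorem pr_neg (lam : Fin n → ℝ) (β : C.Root) : C.pr lam (-β) = - C.pr lam β := by
  rw [K1_pr, K1_pr, Root.neg_val, map_neg]

theorem pr_add_left (lam mu : Fin n → ℝ) (β : C.Root) :
    C.pr (lam + mu) β = C.pr lam β + C.pr mu β := by
  unfold pr
  rw [← Finset.sum_add_distrib]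
  apply Finset.sum_congr rfl
  intro i _
  rw [Pi.add_apply, mul_add]

theorem pr_smul (c : ℝ) (lam : Fin n → ℝ) (β : C.Root) : C.pr (c • lam) β = c * C.pr lam β := by
  unfold pr
  rw [Finset.mul_sum]
  apply Finset.sum_congr rfl
  intro i _
  rw [Pi.smul_apply, smul_eq_mul]
  ring

theorem pr_add (lam : Fin n → ℝ) (α β γ : C.Root) (h : γ.1 = α.1 + β.1) :
    C.pr lam γ = C.pr lam α + C.pr lam β := by
  rw [K1_pr, K1_pr, K1_pr, h, map_add]

theorem pr_wact (w : Equiv.Perm C.Root) (hw : w ∈ C.W) (lam : Fin n → ℝ) (β : C.Root) :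
    C.pr (C.wact w lam) β = C.pr lam (w⁻¹ β) := by
  obtain ⟨f, hf, -⟩ := C.W_lin w⁻¹ (inv_mem hw)
  have h1 : β.1 = ∑ i, β.1 i • (Pi.single i 1 : Fin n → ℤ) := by
    funext j
    rw [Finset.sum_apply, Finset.sum_eq_single j]
    · simp
    · intro k _ hk
      simp [Ne.symm hk]
    · intro h
      exact absurd (Finset.mem_univ j) h
  have h2 : K1_L lam (f β.1) = ∑ i, (β.1 i : ℝ) * K1_L lam (f (Pi.single i 1)) := by
    conv_lhs => rw [h1, map_sum, map_sum]
    apply Finset.sum_congr rfl
    intro i _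
    rw [map_zsmul, map_zsmul, zsmul_eq_mul]
  rw [K1_pr, K1_pr, hf β, h2]
  change ∑ i, (β.1 i : ℝ) * C.wact w lam i = _
  apply Finset.sum_congr rfl
  intro i _
  unfold wact
  rw [K1_pr, hf, simple_val]

theorem nrm_wact (w : Equiv.Perm C.Root) (hw : w ∈ C.W) (lam : Fin n → ℝ) :
    C.nrm (C.wact w lam) = C.nrm lam := by
  unfold nrm
  rw [← Equiv.sum_comp w⁻¹ (fun β : C.Root => C.pr lam β ^ 2)]
  apply Finset.sum_congr rfl
  intro β _
  rw [C.pr_wact w hw]

theorem nrm_smul (c : ℝ) (lam : Fin n → ℝ) : C.nrm (c • lam) = c ^ 2 * C.nrm lam := by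
  unfold nrm
  rw [Finset.mul_sum]
  apply Finset.sum_congr rfl
  intro β _
  rw [C.pr_smul, mul_pow]

theorem nrm_parallelogram (lam mu : Fin n → ℝ) :
    C.nrm (lam + mu) + C.nrm (lam - mu) = 2 * C.nrm lam + 2 * C.nrm mu := by
  unfold nrm
  rw [Finset.mul_sum, Finset.mul_sum, ← Finset.sum_add_distrib, ← Finset.sum_add_distrib]
  apply Finset.sum_congr rfl
  intro β _
  have h1 : C.pr (lam - mu) β = C.pr lam β - C.pr mu β := by
    have h2 : lam - mu = lam + (-1 : ℝ) • mu := by
      rw [neg_one_smul, sub_eq_add_neg]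
    rw [h2, C.pr_add_left, C.pr_smul]
    ring
  rw [C.pr_add_left, h1]
  ring

theorem sq_le_nrm (lam : Fin n → ℝ) (i : Fin n) : lam i ^ 2 ≤ C.nrm lam := by
  have h1 : C.pr lam (C.simple i) ^ 2 ≤ ∑ β : C.Root, C.pr lam β ^ 2 :=
    Finset.single_le_sum (f := fun β : C.Root => C.pr lam β ^ 2)
      (fun β _ => sq_nonneg _) (Finset.mem_univ (C.simple i))
  rw [C.pr_simple] at h1
  exact h1

theorem FilR_mono {lam : Fin n → ℝ} {s t : ℝ} (h : t ≤ s) {M : Matrix C.Idx C.Idx R}
    (hM : C.FilR lam s M) : C.FilR lam t M := by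
  intro a b hab
  have h1 := hM a b hab
  linarith

theorem FilR_one {lam : Fin n → ℝ} {s : ℝ} (hs : s ≤ 0) :
    C.FilR lam s (1 : Matrix C.Idx C.Idx R) := by
  intro a b hab
  have h1 : a = b := by
    by_contra hne
    exact hab (Matrix.one_apply_ne hne)
  rw [h1]
  linarith

theorem FilR_zero {lam : Fin n → ℝ} {s : ℝ} : C.FilR lam s (0 : Matrix C.Idx C.Idx R) := by
  intro a b hab
  exact absurd rfl hab

theorem FilR_add {lam : Fin n → ℝ} {s : ℝ} {M N : Matrix C.Idx C.Idx R} (hM : C.FilR lam s M)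
    (hN : C.FilR lam s N) : C.FilR lam s (M + N) := by
  intro a b hab
  by_cases h1 : M a b = 0
  · apply hN a b
    intro h2
    apply hab
    rw [Matrix.add_apply, h1, h2, add_zero]
  · exact hM a b h1

theorem FilR_sub {lam : Fin n → ℝ} {s : ℝ} {M N : Matrix C.Idx C.Idx R} (hM : C.FilR lam s M)
    (hN : C.FilR lam s N) : C.FilR lam s (M - N) := by
  intro a b hab
  by_cases h1 : M a b = 0
  · apply hN a b
    intro h2
    apply hab
    rw [Matrix.sub_apply, h1, h2, sub_zero]
  · exact hM a b h1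

theorem FilR_smul {lam : Fin n → ℝ} {s : ℝ} (c : R) {M : Matrix C.Idx C.Idx R}
    (hM : C.FilR lam s M) : C.FilR lam s (c • M) := by
  intro a b hab
  apply hM a b
  intro h2
  apply hab
  rw [Matrix.smul_apply, h2, smul_zero]

theorem FilR_mul {lam : Fin n → ℝ} {s t : ℝ} {M N : Matrix C.Idx C.Idx R} (hM : C.FilR lam s M)
    (hN : C.FilR lam t N) : C.FilR lam (s + t) (M * N) := by
  intro a c hac
  rw [Matrix.mul_apply] at hac
  obtain ⟨b, -, hb⟩ := Finset.exists_ne_zero_of_sum_ne_zero hac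
  have h1 := hM a b (left_ne_zero_of_mul hb)
  have h2 := hN b c (right_ne_zero_of_mul hb)
  linarith

private theorem K1_dg_add (lam mu : Fin n → ℝ) (a : C.Idx) :
    C.dg (lam + mu) a = C.dg lam a + C.dg mu a := by
  rcases a with i | β
  · simp [dg]
  · simp only [dg, Sum.elim_inr]
    exact C.pr_add_left lam mu β

private theorem K1_dg_smul (c : ℝ) (lam : Fin n → ℝ) (a : C.Idx) :
    C.dg (c • lam) a = c * C.dg lam a := by
  rcases a with i | β
  · simp [dg]
  · simp only [dg, Sum.elim_inr]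
    exact C.pr_smul c lam β

theorem FilR_pair {lam mu : Fin n → ℝ} {s t : ℝ} {M : Matrix C.Idx C.Idx R}
    (h : C.FilR lam s M) (h' : C.FilR mu t M) : C.FilR (lam + mu) (s + t) M := by
  intro a b hab
  have h1 := h a b hab
  have h2 := h' a b hab
  rw [C.K1_dg_add, C.K1_dg_add]
  linarith

theorem FilR_scale {lam : Fin n → ℝ} {s c : ℝ} (hc : 0 ≤ c) {M : Matrix C.Idx C.Idx R}
    (h : C.FilR lam s M) : C.FilR (c • lam) (c * s) M := by
  intro a b hab
  have h1 := mul_le_mul_of_nonneg_left (h a b hab) hc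
  rw [C.K1_dg_smul, C.K1_dg_smul]
  linarith

theorem gr_mul {lam : Fin n → ℝ} {s t : ℝ} {M N : Matrix C.Idx C.Idx R} (hM : C.FilR lam s M)
    (hN : C.FilR lam t N) : C.gr lam (s + t) (M * N) = C.gr lam s M * C.gr lam t N := by
  ext a c
  rw [Matrix.mul_apply]
  unfold gr
  by_cases h : C.dg lam a = C.dg lam c + (s + t)
  · rw [if_pos h, Matrix.mul_apply]
    apply Finset.sum_congr rfl
    intro b _
    by_cases h1 : M a b = 0
    · rw [h1]
      simp
    by_cases h2 : N b c = 0
    · rw [h2]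
      simp
    have h3 := hM a b h1
    have h4 := hN b c h2
    have h5 : C.dg lam a = C.dg lam b + s := by linarith
    have h6 : C.dg lam b = C.dg lam c + t := by linarith
    rw [if_pos h5, if_pos h6]
  · rw [if_neg h]
    symm
    apply Finset.sum_eq_zero
    intro b _
    by_cases h5 : C.dg lam a = C.dg lam b + s
    · by_cases h6 : C.dg lam b = C.dg lam c + t
      · exact absurd (by linarith) h
      · rw [if_neg h6, mul_zero]
    · rw [if_neg h5, zero_mul]

end SLC

end Pool.Agent.H75.UL
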