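import Pool.Agent.H75.UK.K1

/-!
# Project UK (MP_978914_al), module K1b: real filtrations on the group

`FilR_xg`: entries of `X`: `E β` raises the degree by
`pr lam β`, `F β` by `2 pr lam β`. `FilR_U`: closure induction (`FilR lam 0` is closed under products,
and the inverse of a generator is a generator). `FilR_upper`: `upper`, `T_diag`, `FilR_U`.
`FilR_N`: `N_mono` (and for `ν⁻¹`): `ν` maps `e_β` to a multiple of `e_{w β}` and the Cartan part to
itself, so `(ν M ν⁻¹)` has at most those entries `(a, b)` which come from entries `(w⁻¹ a, w⁻¹ b)` of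
`M`; on the Cartan part all degrees are `0`.
-/

set_option autoImplicit false
open Matrix
universe u
namespace Pool.Agent.H75.UL

namespace SLC
variable {n : ℕ} (C : SLC n)
variable {R : Type*} [CommRing R]

private theorem K1b_pr_of_add (lam : Fin n → ℝ) (α β γ : C.Root) (h : γ.1 = α.1 + β.1) :
    C.pr lam γ = C.pr lam α + C.pr lam β := by
  unfold pr
  rw [← Finset.sum_add_distrib]
  refine Finset.sum_congr rfl fun i _ => ?_
  rw [h, Pi.add_apply, Int.cast_add, add_mul]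

private theorem K1b_pr_of_neg (lam : Fin n → ℝ) (α β : C.Root) (h : β.1 = -α.1) :
    C.pr lam β = -C.pr lam α := by
  unfold pr
  rw [← Finset.sum_neg_distrib]
  refine Finset.sum_congr rfl fun i _ => ?_
  rw [h, Pi.neg_apply, Int.cast_neg, neg_mul]

private theorem K1b_pr_of_eq (lam : Fin n → ℝ) (α β : C.Root) (h : β.1 = α.1) :
    C.pr lam β = C.pr lam α := by
  unfold pr
  rw [h]

private theorem K1b_E (lam : Fin n → ℝ) (α : C.Root) (a b : C.Idx) (h : C.E α a b ≠ 0) :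
    C.dg lam a = C.dg lam b + C.pr lam α := by
  rcases a with i | γ <;> rcases b with j | β
  · exact absurd rfl h
  · simp only [E] at h
    by_cases h1 : β.1 = -α.1
    · simp only [dg, Sum.elim_inl, Sum.elim_inr]
      rw [C.K1b_pr_of_neg lam α β h1]
      ring
    · rw [if_neg h1] at h
      exact absurd rfl h
  · simp only [E] at h
    by_cases h1 : γ.1 = α.1
    · simp only [dg, Sum.elim_inl, Sum.elim_inr]
      rw [C.K1b_pr_of_eq lam α γ h1]
      ring
    · rw [if_neg h1] at h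
      exact absurd rfl h
  · simp only [E] at h
    by_cases h1 : γ.1 = α.1 + β.1
    · simp only [dg, Sum.elim_inr]
      rw [C.K1b_pr_of_add lam α β γ h1]
      ring
    · rw [if_neg h1] at h
      exact absurd rfl h

private theorem K1b_F (lam : Fin n → ℝ) (α : C.Root) (a b : C.Idx) (h : C.F α a b ≠ 0) :
    C.dg lam a = C.dg lam b + 2 * C.pr lam α := by
  rcases a with i | γ <;> rcases b with j | β
  · exact absurd rfl h
  · exact absurd rfl h
  · exact absurd rfl h
  · simp only [F] at h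
    by_cases h1 : γ.1 = α.1 ∧ β.1 = -α.1
    · simp only [dg, Sum.elim_inr]
      rw [C.K1b_pr_of_eq lam α γ h1.1, C.K1b_pr_of_neg lam α β h1.2]
      ring
    · rw [if_neg h1] at h
      exact absurd rfl h

private theorem K1b_xg (β : C.Root) (t : R) (a b : C.Idx) :
    ((C.xg R β t : Matrix C.Idx C.Idx R) - 1) a b =
      t * ((C.E β a b : ℤ) : R) + t ^ 2 * ((C.F β a b : ℤ) : R) := by
  have h1 : (C.xg R β t : Matrix C.Idx C.Idx R) = C.X R β t := rfl
  rw [h1]
  unfold X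
  rw [Matrix.sub_apply, Matrix.add_apply, Matrix.add_apply, Matrix.smul_apply, Matrix.smul_apply,
    Matrix.map_apply, Matrix.map_apply, smul_eq_mul, smul_eq_mul]
  ring

theorem FilR_xg {lam : Fin n → ℝ} {s : ℝ} (hs : 0 ≤ s) (β : C.Root) (hβ : s ≤ C.pr lam β)
    (t : R) : C.FilR lam s ((C.xg R β t : Matrix C.Idx C.Idx R) - 1) := by
  intro a b hab
  rw [C.K1b_xg] at hab
  by_cases hE : C.E β a b = 0
  · by_cases hF : C.F β a b = 0
    · rw [hE, hF] at hab
      simp at hab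
    · have := C.K1b_F lam β a b hF
      linarith
  · have := C.K1b_E lam β a b hE
    linarith

theorem gr_xg {lam : Fin n → ℝ} (β : C.Root) (hβ : 0 < C.pr lam β) (t : R) :
    C.gr lam (C.pr lam β) ((C.xg R β t : Matrix C.Idx C.Idx R) - 1) =
      t • (C.E β).map (Int.cast : ℤ → R) := by
  ext a b
  rw [Matrix.smul_apply, Matrix.map_apply, smul_eq_mul]
  unfold gr
  split_ifs with h1
  · rw [C.K1b_xg]
    have hF : C.F β a b = 0 := by
      by_contra hF
      have := C.K1b_F lam β a b hF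
      linarith
    rw [hF]
    simp
  · have hE : C.E β a b = 0 := by
      by_contra hE
      exact h1 (C.K1b_E lam β a b hE)
    rw [hE]
    simp

section field
variable {F : Type*} [Field F]

private theorem K1b_mul00 {lam : Fin n → ℝ} {M N : Matrix C.Idx C.Idx F}
    (hM : C.FilR lam 0 M) (hN : C.FilR lam 0 N) : C.FilR lam 0 (M * N) := by
  have h := C.FilR_mul hM hN
  rwa [add_zero] at h

private theorem K1b_xg0 {lam : Fin n → ℝ} (β : C.Root) (hβ : 0 ≤ C.pr lam β) (t : F) :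
    C.FilR lam 0 (C.xg F β t : Matrix C.Idx C.Idx F) := by
  have h := C.FilR_xg (R := F) le_rfl β hβ t
  have h1 := C.FilR_add h (C.FilR_one (R := F) (lam := lam) (le_refl (0 : ℝ)))
  rwa [sub_add_cancel] at h1

theorem FilR_U {lam : Fin n → ℝ} (hd : ∀ i, 0 ≤ lam i) (u : GL C.Idx F)
    (hu : u ∈ (C.adS F).U 1) : C.FilR lam 0 (u : Matrix C.Idx C.Idx F) := by
  suffices h : C.FilR lam 0 (u : Matrix C.Idx C.Idx F) ∧
      C.FilR lam 0 ((u⁻¹ : GL C.Idx F) : Matrix C.Idx C.Idx F) from h.1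
  unfold StSys.U at hu
  induction hu using Subgroup.closure_induction with
  | mem g hg =>
    obtain ⟨β, t, hβ, rfl⟩ := hg
    have hpos : C.Pos β := by
      unfold Pos
      omega
    have hpr : 0 ≤ C.pr lam β := by
      unfold pr
      refine Finset.sum_nonneg fun i _ => mul_nonneg ?_ (hd i)
      exact_mod_cast (C.pos_iff β).1 hpos i
    refine ⟨C.K1b_xg0 β hpr t, ?_⟩
    rw [← (C.adS F).x_neg]
    exact C.K1b_xg0 β hpr (-t)
  | one =>
    rw [inv_one]
    exact ⟨C.FilR_one le_rfl, C.FilR_one le_rfl⟩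
  | mul x y _ _ hx hy =>
    rw [_root_.mul_inv_rev, Units.val_mul, Units.val_mul]
    exact ⟨C.K1b_mul00 hx.1 hy.1, C.K1b_mul00 hy.2 hx.2⟩
  | inv x _ hx =>
    rw [inv_inv]
    exact ⟨hx.2, hx.1⟩

theorem FilR_upper {lam : Fin n → ℝ} (hd : ∀ i, 0 ≤ lam i) (g : GL C.Idx F) (hg : g ∈ C.Gad F)
    (h : C.Fil 0 (g : Matrix C.Idx C.Idx F)) : C.FilR lam 0 (g : Matrix C.Idx C.Idx F) := by
  obtain ⟨τ, hτ, u, hu, rfl⟩ := C.upper g hg h
  rw [Units.val_mul]
  refine C.K1b_mul00 ?_ (C.FilR_U hd u hu)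
  obtain ⟨c, hc⟩ := C.T_diag τ hτ
  rw [hc]
  intro a b hab
  by_cases h1 : a = b
  · rw [h1, add_zero]
  · exact absurd (Matrix.diagonal_apply_ne _ h1) hab

private theorem K1b_acts_inv (ν : GL C.Idx F) (w : Equiv.Perm C.Root)
    (h : (C.adS F).Acts ν w) : (C.adS F).Acts ν⁻¹ w⁻¹ := by
  obtain ⟨c, hc0, hc⟩ := h
  refine ⟨fun β => (c (w⁻¹ β))⁻¹, fun β => inv_ne_zero (hc0 _), fun β u => ?_⟩
  have h1 := hc (w⁻¹ β) ((c (w⁻¹ β))⁻¹ * u)
  have h2 : w (w⁻¹ β) = β := Equiv.apply_symm_apply w β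
  rw [h2, mul_inv_cancel_left₀ (hc0 _)] at h1
  rw [← h1]
  group

private theorem K1b_N (ν : GL C.Idx F) (w : Equiv.Perm C.Root) (hν : ν ∈ (C.adS F).N)
    (h : (C.adS F).Acts ν w) (lam mu : Fin n → ℝ) (hmu : ∀ β, C.pr mu β = C.pr lam (w β)) (s : ℝ)
    (M : Matrix C.Idx C.Idx F) (hM : C.FilR mu s M) :
    C.FilR lam s ((ν : Matrix C.Idx C.Idx F) * M *
      ((ν⁻¹ : GL C.Idx F) : Matrix C.Idx C.Idx F)) := by
  obtain ⟨-, m1, m2, m3, -⟩ := C.N_mono ν w h hν
  obtain ⟨-, k1, k2, k3, -⟩ := C.N_mono ν⁻¹ w⁻¹ (C.K1b_acts_inv ν w h) (Subgroup.inv_mem _ hν)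
  intro a b hab
  rw [Matrix.mul_apply] at hab
  obtain ⟨d, -, hd⟩ := Finset.exists_ne_zero_of_sum_ne_zero hab
  have hd1 := left_ne_zero_of_mul hd
  have hd2 := right_ne_zero_of_mul hd
  rw [Matrix.mul_apply] at hd1
  obtain ⟨c, -, hc⟩ := Finset.exists_ne_zero_of_sum_ne_zero hd1
  have hc1 := left_ne_zero_of_mul hc
  have hc2 := right_ne_zero_of_mul hc
  have e1 : C.dg lam a = C.dg mu c := by
    rcases a with i | γ' <;> rcases c with j | γ
    · rfl
    · exact absurd (m1 i γ) hc1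
    · exact absurd (m2 j γ') hc1
    · by_cases h1 : γ' = w γ
      · rw [h1]
        exact (hmu γ).symm
      · exact absurd (m3 γ γ' h1) hc1
  have e2 : C.dg lam b = C.dg mu d := by
    rcases d with i | γ' <;> rcases b with j | γ
    · rfl
    · exact absurd (k1 i γ) hd2
    · exact absurd (k2 j γ') hd2
    · by_cases h1 : γ' = w⁻¹ γ
      · have h2 : w γ' = γ := by
          rw [h1]
          exact Equiv.apply_symm_apply w γ
        rw [← h2]
        exact (hmu γ').symm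
      · exact absurd (k3 γ γ' h1) hd2
  rw [e1, e2]
  exact hM c d hc2

theorem FilR_N (ν : GL C.Idx F) (w : Equiv.Perm C.Root) (hν : ν ∈ (C.adS F).N)
    (h : (C.adS F).Acts ν w) (lam : Fin n → ℝ) (s : ℝ) (M : Matrix C.Idx C.Idx F) :
    C.FilR lam s ((ν : Matrix C.Idx C.Idx F) * M * ((ν⁻¹ : GL C.Idx F) : Matrix C.Idx C.Idx F)) ↔
      C.FilR (C.wact w⁻¹ lam) s M := by
  obtain ⟨hw, -⟩ := C.N_mono ν w h hν
  have hpr : ∀ β, C.pr (C.wact w⁻¹ lam) β = C.pr lam (w β) := by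
    intro β
    rw [C.pr_wact w⁻¹ (Subgroup.inv_mem _ hw), inv_inv]
  constructor
  · intro hM
    have h1 := C.K1b_N ν⁻¹ w⁻¹ (Subgroup.inv_mem _ hν) (C.K1b_acts_inv ν w h)
      (C.wact w⁻¹ lam) lam (fun β => by
        rw [hpr]
        congr 1
        exact (Equiv.apply_symm_apply w β).symm) s _ hM
    have h2 : ((ν⁻¹ : GL C.Idx F) : Matrix C.Idx C.Idx F) *
        ((ν : Matrix C.Idx C.Idx F) * M * ((ν⁻¹ : GL C.Idx F) : Matrix C.Idx C.Idx F)) *
        (((ν⁻¹)⁻¹ : GL C.Idx F) : Matrix C.Idx C.Idx F) = M := by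
      rw [inv_inv]
      have e1 : ((ν⁻¹ : GL C.Idx F) : Matrix C.Idx C.Idx F) * (ν : Matrix C.Idx C.Idx F) = 1 := by
        rw [← Units.val_mul, inv_mul_cancel, Units.val_one]
      rw [← mul_assoc, ← mul_assoc, e1, one_mul, mul_assoc, e1, mul_one]
    rwa [h2] at h1
  · exact C.K1b_N ν w hν h lam _ hpr s M

end field

end SLC

end Pool.Agent.H75.UL
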