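import Pool.Agent.H75.UK.K1
import Pool.Agent.H75.UL.R4b

/-!
# Project UK, module K2: dominant weights

`exists_dom`: among the finitely many `wact w lam`, `w ∈ W`, take one with maximal
`∑ i, ∑_{β > 0} ...`: put `Φ(μ) = ∑_{β > 0} pr μ β` and take `w` with maximal `Φ (wact w lam)` (`W` is
finite as a set of permutations of a finite set); if `μ = wact w lam` has `μ i < 0`, then for
`s = reflE (simple i)`: `Φ (wact s μ) = ∑_{β>0} pr μ (s β) = Φ μ - 2 μ i > Φ μ` (`s` permutes the
positive roots other than `α_i`, `refl_simple_pos`), contradiction (`wact (s w) = wact s ∘ wact w`).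
`dom_unique`: induction on the number of positive roots made negative by `w⁻¹`: if it is zero then
`w⁻¹ = 1` (`eq_one_of_pos`). Otherwise there is `i` with `w⁻¹ α_i` negative, and then
`(wact w lam) i = pr lam (w⁻¹ α_i) ≤ 0` (`lam` dominant), so it is `0` as `wact w lam` is dominant, so
`s = reflE (simple i)` fixes `wact w lam` (`pr μ (s β) = pr μ β - ip α_i β * μ i`), i.e.
`wact (s w) lam = wact w lam`, and `(s w)⁻¹ = w⁻¹ s` makes fewer positive roots negative.
`pr_pos_of_dom`: coordinates of a positive root are `≥ 0` (`pos_iff`).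
-/

set_option autoImplicit false
open Matrix
universe u
namespace Pool.Agent.H75.UL

namespace SLC
variable {n : ℕ} (C : SLC n)

theorem wact_one (lam : Fin n → ℝ) : C.wact 1 lam = lam := by
  funext i
  unfold wact
  rw [inv_one, Equiv.Perm.one_apply, pr_simple]

theorem wact_mul (w w' : Equiv.Perm C.Root) (hw : w ∈ C.W) (hw' : w' ∈ C.W) (lam : Fin n → ℝ) :
    C.wact (w * w') lam = C.wact w (C.wact w' lam) := by
  funext i
  have h1 : C.wact w (C.wact w' lam) i = C.pr (C.wact w' lam) (w⁻¹ (C.simple i)) := rfl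
  have h2 : C.wact (w * w') lam i = C.pr lam ((w * w')⁻¹ (C.simple i)) := rfl
  rw [h1, h2, C.pr_wact w' hw', _root_.mul_inv_rev, Equiv.Perm.mul_apply]

theorem pr_pos_of_dom {lam : Fin n → ℝ} (hd : ∀ i, 0 ≤ lam i) (β : C.Root) (hβ : C.Pos β) :
    0 ≤ C.pr lam β := by
  unfold pr
  refine Finset.sum_nonneg fun i _ => mul_nonneg ?_ (hd i)
  exact_mod_cast (C.pos_iff β).mp hβ i

private theorem K2_refl (mu : Fin n → ℝ) (i : Fin n) (β : C.Root) :
    C.pr mu (C.refl (C.simple i) β) = C.pr mu β - (C.ip (C.simple i).1 β.1 : ℝ) * mu i := by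
  have h1 : C.pr mu (C.simple i) = mu i := C.pr_simple mu i
  rw [← h1]
  unfold pr
  rw [Finset.mul_sum, ← Finset.sum_sub_distrib]
  refine Finset.sum_congr rfl fun j _ => ?_
  rw [C.refl_val]
  simp only [Pi.sub_apply, Pi.smul_apply, smul_eq_mul]
  push_cast
  ring

private theorem K2_inv (i : Fin n) (β : C.Root) :
    (C.reflE (C.simple i))⁻¹ β = C.refl (C.simple i) β := by
  have h1 : (C.reflE (C.simple i))⁻¹ = C.reflE (C.simple i) :=
    inv_eq_of_mul_eq_one_left (C.reflE_mul_self (C.simple i))
  rw [h1]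
  rfl

private theorem K2_neg_not_pos (β : C.Root) (h : ¬ C.Pos β) : C.Pos (-β) := (C.not_pos_iff β).mp h

private theorem K2_pos_not_neg (β : C.Root) (h : C.Pos β) : ¬ C.Pos (-β) := by
  unfold Pos at h ⊢
  rw [Root.neg_val, ht_neg]
  omega

theorem exists_dom (lam : Fin n → ℝ) : ∃ w ∈ C.W, ∀ i, 0 ≤ C.wact w lam i := by
  classical
  obtain ⟨w, hw, hmax⟩ := Set.exists_max_image (C.W : Set (Equiv.Perm C.Root))
    (fun w => ∑ β ∈ Finset.univ.filter (fun β : C.Root => C.Pos β), C.pr (C.wact w lam) β)
    (Set.toFinite _) ⟨1, C.W.one_mem⟩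
  refine ⟨w, hw, fun i => ?_⟩
  by_contra hneg
  rw [not_le] at hneg
  set mu := C.wact w lam with hmu
  have h1 := hmax (C.reflE (C.simple i) * w) (C.W.mul_mem (C.simple_mem_W i) hw)
  rw [C.wact_mul _ _ (C.simple_mem_W i) hw, ← hmu] at h1
  have h2 : ∀ β, C.pr (C.wact (C.reflE (C.simple i)) mu) β = C.pr mu (C.refl (C.simple i) β) := by
    intro β
    rw [C.pr_wact _ (C.simple_mem_W i), K2_inv]
  simp only [h2] at h1
  have hmem : C.simple i ∈ Finset.univ.filter (fun β : C.Root => C.Pos β) := by
    rw [Finset.mem_filter]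
    exact ⟨Finset.mem_univ _, C.simple_pos i⟩
  rw [← Finset.add_sum_erase _ _ hmem, ← Finset.add_sum_erase _ (fun β => C.pr mu β) hmem] at h1
  have h3 : ∑ β ∈ (Finset.univ.filter (fun β : C.Root => C.Pos β)).erase (C.simple i),
      C.pr mu (C.refl (C.simple i) β) =
      ∑ β ∈ (Finset.univ.filter (fun β : C.Root => C.Pos β)).erase (C.simple i), C.pr mu β := by
    refine Finset.sum_nbij' (fun β => C.refl (C.simple i) β) (fun β => C.refl (C.simple i) β)
      ?_ ?_ ?_ ?_ ?_
    · intro β hβ
      rw [Finset.mem_erase, Finset.mem_filter] at hβ ⊢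
      exact ⟨C.refl_simple_ne i β hβ.2.2, Finset.mem_univ _, C.refl_simple_pos i β hβ.2.2 hβ.1⟩
    · intro β hβ
      rw [Finset.mem_erase, Finset.mem_filter] at hβ ⊢
      exact ⟨C.refl_simple_ne i β hβ.2.2, Finset.mem_univ _, C.refl_simple_pos i β hβ.2.2 hβ.1⟩
    · intro β _
      exact C.refl_refl _ β
    · intro β _
      exact C.refl_refl _ β
    · intro β _
      rfl
  rw [h3, C.refl_self, C.pr_neg, C.pr_simple] at h1
  linarith

theorem dom_unique {lam : Fin n → ℝ} (hd : ∀ i, 0 ≤ lam i) (w : Equiv.Perm C.Root) (hw : w ∈ C.W)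
    (hd' : ∀ i, 0 ≤ C.wact w lam i) : C.wact w lam = lam := by
  classical
  have key : ∀ k : ℕ, ∀ w : Equiv.Perm C.Root, w ∈ C.W → (∀ i, 0 ≤ C.wact w lam i) →
      (Finset.univ.filter fun β : C.Root => C.Pos β ∧ ¬ C.Pos (w⁻¹ β)).card ≤ k →
      C.wact w lam = lam := by
    intro k
    induction k with
    | zero =>
      intro w hw _ hk
      have h1 : w⁻¹ = 1 := by
        refine C.eq_one_of_pos w⁻¹ (C.W.inv_mem hw) fun i => ?_
        by_contra h2
        have h3 : C.simple i ∈ Finset.univ.filter fun β : C.Root => C.Pos β ∧ ¬ C.Pos (w⁻¹ β) := by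
          rw [Finset.mem_filter]
          exact ⟨Finset.mem_univ _, C.simple_pos i, h2⟩
        have h4 := Finset.card_pos.mpr ⟨_, h3⟩
        omega
      rw [inv_eq_one] at h1
      rw [h1, C.wact_one]
    | succ k ih =>
      intro w hw hdw hk
      by_cases hall : ∀ i, C.Pos (w⁻¹ (C.simple i))
      · have h1 := C.eq_one_of_pos w⁻¹ (C.W.inv_mem hw) hall
        rw [inv_eq_one] at h1
        rw [h1, C.wact_one]
      · rw [not_forall] at hall
        obtain ⟨i, hi⟩ := hall
        have hpos := C.K2_neg_not_pos _ hi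
        have h1 : C.wact w lam i = C.pr lam (w⁻¹ (C.simple i)) := rfl
        have h2 := C.pr_pos_of_dom hd _ hpos
        rw [C.pr_neg] at h2
        have h3 : C.wact w lam i = 0 := by
          have := hdw i
          linarith
        have hs := C.simple_mem_W i
        have h4 : C.wact (C.reflE (C.simple i) * w) lam = C.wact w lam := by
          rw [C.wact_mul _ _ hs hw]
          funext j
          have h5 : C.wact (C.reflE (C.simple i)) (C.wact w lam) j =
            C.pr (C.wact w lam) ((C.reflE (C.simple i))⁻¹ (C.simple j)) := rfl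
          rw [h5, K2_inv, K2_refl, h3, C.pr_simple]
          ring
        have h6 : (Finset.univ.filter fun β : C.Root => C.Pos β ∧
            ¬ C.Pos ((C.reflE (C.simple i) * w)⁻¹ β)).card <
            (Finset.univ.filter fun β : C.Root => C.Pos β ∧ ¬ C.Pos (w⁻¹ β)).card := by
          have hinj : Function.Injective (fun β : C.Root => C.refl (C.simple i) β) := by
            intro a b hab
            have := congrArg (fun β : C.Root => C.refl (C.simple i) β) hab
            simpa only [C.refl_refl] using this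
          rw [← Finset.card_image_of_injective _ hinj]
          apply Finset.card_lt_card
          rw [Finset.ssubset_iff_of_subset]
          · refine ⟨C.simple i, ?_, ?_⟩
            · rw [Finset.mem_filter]
              exact ⟨Finset.mem_univ _, C.simple_pos i, hi⟩
            · rw [Finset.mem_image]
              rintro ⟨β, hβ, hβ'⟩
              rw [Finset.mem_filter] at hβ
              exact C.refl_simple_ne i β hβ.2.1 hβ'
          · intro γ hγ
            rw [Finset.mem_image] at hγ
            obtain ⟨β, hβ, rfl⟩ := hγ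
            rw [Finset.mem_filter, _root_.mul_inv_rev, Equiv.Perm.mul_apply, K2_inv] at hβ
            rw [Finset.mem_filter]
            refine ⟨Finset.mem_univ _, C.refl_simple_pos i β hβ.2.1 ?_, hβ.2.2⟩
            rintro rfl
            apply hβ.2.2
            rw [C.refl_self, C.W_neg w⁻¹ (C.W.inv_mem hw)]
            exact hpos
        have h7 := ih (C.reflE (C.simple i) * w) (C.W.mul_mem hs hw) (by rw [h4]; exact hdw)
          (by omega)
        rw [h4] at h7
        exact h7
  exact key _ w hw hd' le_rfl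

end SLC

end Pool.Agent.H75.UL
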