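import Pool.Agent.H75.UK.K2
import Pool.Agent.H75.UK.K1b
import Pool.Agent.H75.UL.S6
import Pool.Agent.H75.UL.T2

/-!
# Project UK, module K3: existence of the optimal weight

`Sp Γ g lam s`: `g⁻¹ γ g - 1` raises the degree by at least `s` for all `γ ∈ Γ`.
`exists_opt`: for `g ∈ Gad` let `Z(g) = {(a,b) | ∃ γ ∈ Γ, (g⁻¹ γ g - 1) a b ≠ 0}`, nonempty as `Γ ≠ ⊥`;
`Sp Γ g lam s` iff `dg lam b + s ≤ dg lam a` for all `(a,b) ∈ Z(g)`. There are finitely many sets `Z(g)`.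
For each nonempty `Z` the function `φ_Z lam = min_{(a,b) ∈ Z} (dg lam a - dg lam b)` is continuous on the
compact set `{lam | nrm lam = 1}` (closed, bounded by `sq_le_nrm`, nonempty as `0 < n`), so it has a
maximum there. Take the largest of these maxima over the finitely many occurring `Z`. It is positive:
for `g₀` and `lam` constant `= c > 0` with `nrm lam = 1`, every entry `(a,b) ∈ Z(g₀)` has
`hti a ≥ hti b + 1` (`Fil_U`) and `dg lam a = c * hti a`, so `φ ≥ c`. Then replace `(g, lam)` by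
`(g ν⁻¹, wact w lam)`, `w` from `exists_dom`, `ν ∈ N` acting by `w` (`exists_N`): `FilR_N`, `nrm_wact`.
-/

set_option autoImplicit false
open Matrix
universe u
namespace Pool.Agent.H75.UL

namespace SLC
variable {n : ℕ} (C : SLC n) {F : Type*} [Field F]

/-- All `g⁻¹ γ g - 1`, `γ ∈ Γ`, raise the degree by at least `s`. -/
def Sp (Γ : Subgroup (GL C.Idx F)) (g : GL C.Idx F) (lam : Fin n → ℝ) (s : ℝ) : Prop :=
  ∀ γ ∈ Γ, C.FilR lam s (((g⁻¹ * γ * g : GL C.Idx F) : Matrix C.Idx C.Idx F) - 1)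

private theorem K3_acts_inv (ν : GL C.Idx F) (w : Equiv.Perm C.Root)
    (h : (C.adS F).Acts ν w) : (C.adS F).Acts ν⁻¹ w⁻¹ := by
  obtain ⟨c, hc, h⟩ := h
  refine ⟨fun β => (c (w⁻¹ β))⁻¹, fun β => inv_ne_zero (hc _), fun β u => ?_⟩
  have h1 := h (w⁻¹ β) ((c (w⁻¹ β))⁻¹ * u)
  have h2 : w (w⁻¹ β) = β := w.apply_symm_apply β
  rw [mul_inv_cancel_left₀ (hc _), h2] at h1
  rw [← h1]
  group

private theorem K3_conj_sub (M : GL C.Idx F) (p : GL C.Idx F) :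
    ((p⁻¹ * M * p : GL C.Idx F) : Matrix C.Idx C.Idx F) - 1 =
      ((p⁻¹ : GL C.Idx F) : Matrix C.Idx C.Idx F) * ((M : Matrix C.Idx C.Idx F) - 1) *
        (p : Matrix C.Idx C.Idx F) := by
  have h : ((p⁻¹ : GL C.Idx F) : Matrix C.Idx C.Idx F) * (p : Matrix C.Idx C.Idx F) = 1 := by
    rw [← Units.val_mul, inv_mul_cancel, Units.val_one]
  rw [mul_sub, sub_mul, mul_one, h, Units.val_mul, Units.val_mul]

theorem Sp_N (Γ : Subgroup (GL C.Idx F)) (g ν : GL C.Idx F) (w : Equiv.Perm C.Root)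
    (hν : ν ∈ (C.adS F).N) (h : (C.adS F).Acts ν w) (lam : Fin n → ℝ) (s : ℝ) :
    C.Sp Γ (g * ν) lam s ↔ C.Sp Γ g (C.wact w lam) s := by
  unfold Sp
  refine forall₂_congr fun γ _ => ?_
  have h1 : (g * ν)⁻¹ * γ * (g * ν) = ν⁻¹ * (g⁻¹ * γ * g) * ν := by group
  have h2 := C.FilR_N ν⁻¹ w⁻¹ (inv_mem hν) (C.K3_acts_inv ν w h) lam s
    (((g⁻¹ * γ * g : GL C.Idx F) : Matrix C.Idx C.Idx F) - 1)
  rw [inv_inv, inv_inv] at h2
  rw [h1, K3_conj_sub, h2]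

theorem Sp_P (Γ : Subgroup (GL C.Idx F)) (g p : GL C.Idx F) (lam : Fin n → ℝ) (s : ℝ)
    (hp : C.FilR lam 0 (p : Matrix C.Idx C.Idx F))
    (hp' : C.FilR lam 0 ((p⁻¹ : GL C.Idx F) : Matrix C.Idx C.Idx F)) (h : C.Sp Γ g lam s) :
    C.Sp Γ (g * p) lam s := by
  intro γ hγ
  have h1 : (g * p)⁻¹ * γ * (g * p) = p⁻¹ * (g⁻¹ * γ * g) * p := by group
  rw [h1, K3_conj_sub]
  have h2 := C.FilR_mul (C.FilR_mul hp' (h γ hγ)) hp
  rwa [zero_add, add_zero] at h2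

/-- `(g, lam, s)` is optimal. -/
structure Opt (Γ : Subgroup (GL C.Idx F)) (g : GL C.Idx F) (lam : Fin n → ℝ) (s : ℝ) : Prop where
  mem : g ∈ C.Gad F
  dom : ∀ i, 0 ≤ lam i
  nrm : C.nrm lam = 1
  pos : 0 < s
  sp : C.Sp Γ g lam s
  max : ∀ g' ∈ C.Gad F, ∀ lam' s', C.nrm lam' = 1 → C.Sp Γ g' lam' s' → s' ≤ s

private def K3_Z (Γ : Subgroup (GL C.Idx F)) (g : GL C.Idx F) : Set (C.Idx × C.Idx) :=
  {p | ∃ γ ∈ Γ, (((g⁻¹ * γ * g : GL C.Idx F) : Matrix C.Idx C.Idx F) - 1) p.1 p.2 ≠ 0}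

private theorem K3_Z_ne (Γ : Subgroup (GL C.Idx F)) (hΓ : Γ ≠ ⊥) (g : GL C.Idx F) :
    (C.K3_Z Γ g).Nonempty := by
  rw [Subgroup.ne_bot_iff_exists_ne_one] at hΓ
  obtain ⟨⟨γ, hγ⟩, h1⟩ := hΓ
  have h1 : γ ≠ 1 := fun h => h1 (Subtype.ext h)
  by_contra hne
  rw [Set.not_nonempty_iff_eq_empty] at hne
  apply h1
  have h2 : g⁻¹ * γ * g = 1 := by
    apply Units.ext
    rw [← sub_eq_zero]
    ext a b
    by_contra h3
    have : (a, b) ∈ C.K3_Z Γ g := ⟨γ, hγ, h3⟩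
    rw [hne] at this
    exact this
  have h3 : γ = g * (g⁻¹ * γ * g) * g⁻¹ := by group
  rw [h3, h2]
  group

private theorem K3_Sp_iff (Γ : Subgroup (GL C.Idx F)) (g : GL C.Idx F) (lam : Fin n → ℝ) (s : ℝ) :
    C.Sp Γ g lam s ↔ ∀ p ∈ C.K3_Z Γ g, s ≤ C.dg lam p.1 - C.dg lam p.2 := by
  constructor
  · rintro h ⟨a, b⟩ ⟨γ, hγ, h1⟩
    have := h γ hγ a b h1
    simp only
    linarith
  · intro h γ hγ a b h1
    have := h (a, b) ⟨γ, hγ, h1⟩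
    simp only at this
    linarith

private theorem K3_pr_cont (β : C.Root) : Continuous fun lam : Fin n → ℝ => C.pr lam β := by
  unfold pr
  fun_prop

private theorem K3_dg_cont (a : C.Idx) : Continuous fun lam : Fin n → ℝ => C.dg lam a := by
  rcases a with i | β
  · exact continuous_const
  · exact C.K3_pr_cont β

private theorem K3_nrm_cont : Continuous fun lam : Fin n → ℝ => C.nrm lam := by
  unfold nrm
  exact continuous_finsetSum _ fun β _ => (C.K3_pr_cont β).pow 2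

private theorem K3_compact : IsCompact {lam : Fin n → ℝ | C.nrm lam = 1} := by
  apply Metric.isCompact_of_isClosed_isBounded
  · exact isClosed_eq C.K3_nrm_cont continuous_const
  · rw [isBounded_iff_forall_norm_le]
    refine ⟨1, fun lam hlam => ?_⟩
    rw [pi_norm_le_iff_of_nonneg zero_le_one]
    intro i
    have h1 := C.sq_le_nrm lam i
    rw [Set.mem_ofPred_eq] at hlam
    rw [hlam] at h1
    rw [Real.norm_eq_abs]
    exact (sq_le_one_iff_abs_le_one _).mp h1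

private theorem K3_unit (hn : 0 < n) : ∃ c : ℝ, 0 < c ∧ C.nrm (c • fun _ => (1 : ℝ)) = 1 := by
  have h1 := C.sq_le_nrm (fun _ => (1 : ℝ)) ⟨0, hn⟩
  have h2 : 0 < C.nrm (fun _ => (1 : ℝ)) := by
    norm_num at h1
    linarith
  refine ⟨(Real.sqrt (C.nrm (fun _ => (1 : ℝ))))⁻¹, inv_pos.mpr (Real.sqrt_pos.mpr h2), ?_⟩
  rw [C.nrm_smul, inv_pow, Real.sq_sqrt h2.le, inv_mul_cancel₀ h2.ne']

private theorem K3_dg_const (c : ℝ) (a : C.Idx) :
    C.dg (c • fun _ => (1 : ℝ)) a = c * (C.hti a : ℝ) := by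
  rcases a with i | β
  · simp [dg, hti]
  · simp only [dg, hti, Sum.elim_inr, C.pr_smul]
    congr 1
    simp [pr, ht]

theorem exists_opt (hn : 0 < n) (Γ : Subgroup (GL C.Idx F)) (hΓ : Γ ≠ ⊥) (g₀ : GL C.Idx F)
    (hg₀ : g₀ ∈ C.Gad F) (h : ∀ γ ∈ Γ, g₀⁻¹ * γ * g₀ ∈ (C.adS F).U 1) :
    ∃ g lam s, C.Opt Γ g lam s := by
  classical
  obtain ⟨c, hc, hc1⟩ := C.K3_unit hn
  -- the maximum for one set `Z`
  have hZ : ∀ Z : Set (C.Idx × C.Idx), Z.Nonempty → ∃ lam : Fin n → ℝ, ∃ s : ℝ, C.nrm lam = 1 ∧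
      (∀ p ∈ Z, s ≤ C.dg lam p.1 - C.dg lam p.2) ∧
      ∀ lam' s', C.nrm lam' = 1 → (∀ p ∈ Z, s' ≤ C.dg lam' p.1 - C.dg lam' p.2) → s' ≤ s := by
    intro Z hne
    have hne' : (Finset.univ.filter fun p => p ∈ Z).Nonempty := by
      obtain ⟨p, hp⟩ := hne
      exact ⟨p, by simpa using hp⟩
    set φ : (Fin n → ℝ) → ℝ := fun lam =>
      (Finset.univ.filter fun p => p ∈ Z).inf' hne' (fun p => C.dg lam p.1 - C.dg lam p.2) with hφ
    have hcont : Continuous φ := by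
      apply Continuous.finset_inf'_apply
      intro p _
      exact (C.K3_dg_cont p.1).sub (C.K3_dg_cont p.2)
    obtain ⟨lam, hlam, hmax⟩ := C.K3_compact.exists_isMaxOn ⟨_, hc1⟩ hcont.continuousOn
    refine ⟨lam, φ lam, hlam, ?_, ?_⟩
    · intro p hp
      exact Finset.inf'_le _ (by simpa using hp)
    · intro lam' s' h1 h2
      refine le_trans ?_ (hmax h1)
      apply Finset.le_inf'
      intro p hp
      exact h2 p (by simpa using hp)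
  choose! L S hL using hZ
  obtain ⟨Z, ⟨g, hg, rfl⟩, hmax⟩ := Set.exists_max_image
    {Z : Set (C.Idx × C.Idx) | ∃ g ∈ C.Gad F, C.K3_Z Γ g = Z} S (Set.toFinite _)
    ⟨_, g₀, hg₀, rfl⟩
  obtain ⟨h1, h2, h3⟩ := hL _ (C.K3_Z_ne Γ hΓ g)
  have hsp : C.Sp Γ g (L (C.K3_Z Γ g)) (S (C.K3_Z Γ g)) := (C.K3_Sp_iff Γ g _ _).mpr h2
  have hmax' : ∀ g' ∈ C.Gad F, ∀ lam' s', C.nrm lam' = 1 → C.Sp Γ g' lam' s' →
      s' ≤ S (C.K3_Z Γ g) := by
    intro g' hg' lam' s' hn' hs'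
    refine le_trans ?_ (hmax _ ⟨g', hg', rfl⟩)
    exact (hL _ (C.K3_Z_ne Γ hΓ g')).2.2 lam' s' hn' ((C.K3_Sp_iff Γ g' _ _).mp hs')
  have hpos : 0 < S (C.K3_Z Γ g) := by
    refine lt_of_lt_of_le hc (hmax' g₀ hg₀ _ c hc1 ?_)
    intro γ hγ a b hab
    have h4 := Fil_U (C := C) 1 le_rfl _ (h γ hγ)
    have h5 : C.hti b + 1 ≤ C.hti a := by
      by_contra h5
      exact hab (h4 a b (by omega))
    rw [C.K3_dg_const, C.K3_dg_const]
    have h6 : ((C.hti b : ℝ)) + 1 ≤ (C.hti a : ℝ) := by exact_mod_cast h5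
    nlinarith
  obtain ⟨w, hw, hdom⟩ := C.exists_dom (L (C.K3_Z Γ g))
  obtain ⟨ν, hν, hacts⟩ := (C.adS F).exists_N w hw
  refine ⟨g * ν⁻¹, C.wact w (L (C.K3_Z Γ g)), S (C.K3_Z Γ g), ?_, hdom, ?_, hpos, ?_, hmax'⟩
  · refine mul_mem hg (inv_mem ?_)
    rw [← C.gen_adS F]
    exact (C.adS F).N_le_gen hν
  · rw [C.nrm_wact w hw, h1]
  · rw [← C.Sp_N Γ (g * ν⁻¹) ν w hν hacts, inv_mul_cancel_right]
    exact hsp

end SLC

end Pool.Agent.H75.UL
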