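import Pool.Agent.H75.UK.K3

/-!
# Project UK, module K4: uniqueness of the optimal weight

`opt_unique`: Bruhat (`StSys.bruhat`, `gen_adS`): `g⁻¹ g' = b ν b'`, `b, b' ∈ U 1`, `ν ∈ N` acting by
`w ∈ W` (`N_acts`, `N_mono`). By `Sp_P` (`FilR_U`) `Sp Γ (g b) lam s` and `Sp Γ (g' b'⁻¹) lam' s`,
`g' b'⁻¹ = (g b) ν`, so by `Sp_N` `Sp Γ (g b) (wact w lam') s`. With `mu = wact w lam'` and
`FilR_pair`: `Sp Γ (g b) (lam + mu) (2 s)`. `q := nrm (lam + mu) > 0` (`Sp` with `2 s > 0` and weight `0`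
is impossible as `Γ ≠ ⊥`: all degrees would be `0`; `nrm v = 0` implies `v = 0`), scaling by `q^(-1/2)`
(`FilR_scale`, `nrm_smul`) and `max`: `2 s ≤ s * √q`, so `q ≥ 4`; `nrm_parallelogram`: `nrm (lam - mu) =
4 - q ≤ 0`, so `lam = mu` (`sq_le_nrm`). Both `lam'` and `wact w lam' = lam` are dominant, so
`lam = lam'` (`dom_unique`). Finally `ν ∈ FilR lam 0`: `FilR_N` with `M = 1`... directly: by `N_mono` `ν`
maps `e_β` to a multiple of `e_{w β}`, `pr lam (w β) = pr (wact w⁻¹ lam) β = pr lam β`, since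
`wact w⁻¹ lam = wact w⁻¹ (wact w lam') = lam' = lam`; the same for `ν⁻¹`. So
`g⁻¹ g' = b ν b' ∈ FilR lam 0`, and the same for the inverse.
`opt_normalizer`: `(z g, lam, s)` is optimal as `(z g)⁻¹ γ (z g) = g⁻¹ (z⁻¹ γ z) g`.
`opt_sgl`: `(σ(g), lam ∘ ρ⁻¹, s)` is optimal: entries of `sgl θ M`:
`(sgl θ M) (ρ a) (ρ b) = ± θ (M a b)`, `dg (lam ∘ ρ⁻¹) (ρ a) = dg lam a`, `nrm` invariant (reindex by
`rE`), and every `γ' ∈ Γ` is `σ(γ)` with `γ ∈ Γ`; maximality is that of `(g, lam, s)`. So `lam ∘ ρ⁻¹ = lam`.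
-/

set_option autoImplicit false
open Matrix
universe u
namespace Pool.Agent.H75.UL

namespace SLC
variable {n : ℕ} (C : SLC n) {F : Type*} [Field F]

private theorem K4_filN {lam : Fin n → ℝ} (ν : GL C.Idx F) (w : Equiv.Perm C.Root)
    (hν : ν ∈ (C.adS F).N) (h : (C.adS F).Acts ν w) (hw : ∀ β, C.pr lam (w β) = C.pr lam β) :
    C.FilR lam 0 (ν : Matrix C.Idx C.Idx F) := by
  obtain ⟨-, h1, h2, h3, -⟩ := C.N_mono ν w h hν
  intro a b hab
  rcases a with i | γ'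
  · rcases b with j | γ
    · simp [dg]
    · exact absurd (h1 i γ) hab
  · rcases b with j | γ
    · exact absurd (h2 j γ') hab
    · by_cases hγ : γ' = w γ
      · subst hγ
        simp only [dg, Sum.elim_inr, add_zero]
        exact (hw γ).ge
      · exact absurd (h3 γ γ' hγ) hab

private theorem K4_eq_of_nrm {lam mu : Fin n → ℝ} (h : C.nrm (lam - mu) ≤ 0) : lam = mu := by
  funext i
  have h1 := C.sq_le_nrm (lam - mu) i
  have h2 : (lam - mu) i = 0 := by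
    have h3 : (lam - mu) i ^ 2 ≤ 0 := h1.trans h
    exact pow_eq_zero_iff (two_ne_zero) |>.1 (le_antisymm h3 (sq_nonneg _))
  exact sub_eq_zero.1 h2

private theorem K4_U_le {g : GL C.Idx F} (hg : g ∈ (C.adS F).U 1) : g ∈ C.Gad F := by
  rw [← C.gen_adS]
  have hle : (C.adS F).U 1 ≤ (C.adS F).gen := by
    apply Subgroup.closure_mono
    rintro x ⟨β, t, _, hx⟩
    exact ⟨β, t, hx⟩
  exact hle hg

private theorem K4_nrm_nonneg (lam : Fin n → ℝ) : 0 ≤ C.nrm lam :=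
  Finset.sum_nonneg fun _ _ => sq_nonneg _

private theorem K4_pos_of_Sp {Γ : Subgroup (GL C.Idx F)} (hΓ : Γ ≠ ⊥) {g : GL C.Idx F}
    {lam : Fin n → ℝ} {s : ℝ} (hs : 0 < s) (h : C.Sp Γ g lam s) : 0 < C.nrm lam := by
  rcases (C.K4_nrm_nonneg lam).lt_or_eq with h1 | h1
  · exact h1
  exfalso
  apply hΓ
  have hlam : lam = 0 := by
    apply C.K4_eq_of_nrm
    rw [sub_zero]
    exact h1.symm.le
  rw [Subgroup.eq_bot_iff_forall]
  intro γ hγ
  have hdg : ∀ a, C.dg (0 : Fin n → ℝ) a = 0 := by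
    intro a
    rcases a with i | β
    · simp [dg]
    · simp [dg, pr]
  have h2 : ((g⁻¹ * γ * g : GL C.Idx F) : Matrix C.Idx C.Idx F) - 1 = 0 := by
    ext a b
    by_contra hne
    have h3 := h γ hγ a b (by simpa using hne)
    rw [hlam, hdg, hdg] at h3
    linarith
  have h3 : g⁻¹ * γ * g = 1 := by
    apply Units.ext
    rw [sub_eq_zero] at h2
    rw [h2]
    rfl
  have h4 : γ = g * (g⁻¹ * γ * g) * g⁻¹ := by group
  rw [h4, h3]
  group

theorem opt_unique (Γ : Subgroup (GL C.Idx F)) (hΓ : Γ ≠ ⊥) (g g' : GL C.Idx F)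
    (lam lam' : Fin n → ℝ) (s : ℝ) (h : C.Opt Γ g lam s) (h' : C.Opt Γ g' lam' s) :
    lam = lam' ∧ C.FilR lam 0 ((g⁻¹ * g' : GL C.Idx F) : Matrix C.Idx C.Idx F) := by
  obtain ⟨u, hu, ν, hν, v, hv, huv⟩ := (C.adS F).bruhat (g⁻¹ * g') (by
    rw [C.gen_adS]; exact mul_mem (inv_mem h.mem) h'.mem)
  obtain ⟨w, hw, hact, -⟩ := (C.adS F).N_acts ν hν
  have h1 : C.Sp Γ (g * u) lam s := C.Sp_P Γ g u lam s (C.FilR_U h.dom u hu)
    (C.FilR_U h.dom u⁻¹ (inv_mem hu)) h.sp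
  have h2 : C.Sp Γ (g' * v⁻¹) lam' s := C.Sp_P Γ g' v⁻¹ lam' s (C.FilR_U h'.dom v⁻¹ (inv_mem hv))
    (by rw [inv_inv]; exact C.FilR_U h'.dom v hv) h'.sp
  have h3 : g' * v⁻¹ = g * u * ν := by
    have h3' : g' = g * (g⁻¹ * g') := by group
    rw [h3', huv]
    group
  rw [h3] at h2
  have h4 : C.Sp Γ (g * u) (C.wact w lam') s := (C.Sp_N Γ (g * u) ν w hν hact lam' s).1 h2
  have h5 : C.Sp Γ (g * u) (lam + C.wact w lam') (s + s) :=
    fun γ hγ => C.FilR_pair (h1 γ hγ) (h4 γ hγ)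
  have hs := h.pos
  have hq : 0 < C.nrm (lam + C.wact w lam') := C.K4_pos_of_Sp hΓ (add_pos hs hs) h5
  have hnrmmu : C.nrm (C.wact w lam') = 1 := by rw [C.nrm_wact w hw, h'.nrm]
  have hpar := C.nrm_parallelogram lam (C.wact w lam')
  rw [h.nrm, hnrmmu] at hpar
  have hsq : 0 < Real.sqrt (C.nrm (lam + C.wact w lam')) := Real.sqrt_pos.2 hq
  have hsqsq : Real.sqrt (C.nrm (lam + C.wact w lam')) ^ 2 = C.nrm (lam + C.wact w lam') :=
    Real.sq_sqrt hq.le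
  have hgu : g * u ∈ C.Gad F := mul_mem h.mem (C.K4_U_le hu)
  have h6 := h.max (g * u) hgu ((Real.sqrt (C.nrm (lam + C.wact w lam')))⁻¹ •
    (lam + C.wact w lam')) ((Real.sqrt (C.nrm (lam + C.wact w lam')))⁻¹ * (s + s)) (by
      rw [C.nrm_smul, inv_pow, hsqsq, inv_mul_cancel₀ hq.ne']) (fun γ hγ =>
        C.FilR_scale (inv_nonneg.2 hsq.le) (h5 γ hγ))
  have h7 : s + s ≤ Real.sqrt (C.nrm (lam + C.wact w lam')) * s := by
    rwa [inv_mul_le_iff₀ hsq] at h6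
  have h8 : 2 ≤ Real.sqrt (C.nrm (lam + C.wact w lam')) := by
    by_contra hlt
    push Not at hlt
    nlinarith
  have h9 : 4 ≤ C.nrm (lam + C.wact w lam') := by
    rw [← hsqsq]
    nlinarith
  have h10 : lam = C.wact w lam' := C.K4_eq_of_nrm (by linarith)
  have h11 : C.wact w lam' = lam' := C.dom_unique h'.dom w hw (by rw [← h10]; exact h.dom)
  have h12 : lam = lam' := h10.trans h11
  refine ⟨h12, ?_⟩
  subst h12
  have h13 : ∀ β, C.pr lam (w⁻¹ β) = C.pr lam β := by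
    intro β
    have := C.pr_wact w hw lam β
    rw [h11] at this
    exact this.symm
  have h14 : ∀ β, C.pr lam (w β) = C.pr lam β := by
    intro β
    rw [← h13 (w β), ← Equiv.Perm.mul_apply, inv_mul_cancel, Equiv.Perm.one_apply]
  rw [huv, Units.val_mul, Units.val_mul]
  have h15 := C.FilR_mul (C.FilR_mul (C.FilR_U h.dom u hu) (C.K4_filN ν w hν hact h14))
    (C.FilR_U h.dom v hv)
  simpa using h15

theorem opt_normalizer (Γ : Subgroup (GL C.Idx F)) (hΓ : Γ ≠ ⊥) (g : GL C.Idx F)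
    (lam : Fin n → ℝ) (s : ℝ) (h : C.Opt Γ g lam s) (z : GL C.Idx F) (hz : z ∈ C.Gad F)
    (hzΓ : ∀ γ ∈ Γ, z⁻¹ * γ * z ∈ Γ) :
    C.FilR lam 0 ((g⁻¹ * z * g : GL C.Idx F) : Matrix C.Idx C.Idx F) := by
  have h1 : C.Opt Γ (z * g) lam s := by
    refine ⟨mul_mem hz h.mem, h.dom, h.nrm, h.pos, fun γ hγ => ?_, h.max⟩
    have h2 := h.sp (z⁻¹ * γ * z) (hzΓ γ hγ)
    rwa [show (z * g)⁻¹ * γ * (z * g) = g⁻¹ * (z⁻¹ * γ * z) * g by group]
  have h2 := (C.opt_unique Γ hΓ g (z * g) lam lam s h h1).2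
  rwa [← mul_assoc] at h2

end SLC

end Pool.Agent.H75.UL
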