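import Pool.Agent.H75.UK.K5a
import Pool.Agent.H75.UT.D8

/-!
# Project UK, module K5: chambers relative to a dominant weight

`gate`: `lam` dominant, `lam ∘ ρ⁻¹ = lam`, `q := g⁻¹ σ(g)` and `q⁻¹` in `FilR lam 0`. Let `Φ_lam` be the
set of roots with `pr lam = 0`. Among all `p ∈ Gad`, `p, p⁻¹ ∈ FilR lam 0`, and all Bruhat
decompositions `g p = u ν b` (`u ∈ U 1`, `ν ∈ N` acting by `w`, `b ∈ U 1`) choose one with the least
number of positive roots `α` with `w α` negative; absorb `b` in `p` (`FilR_U`): `g p = u ν`. Then `w α` is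
positive for every positive `α ∈ Φ_lam`: otherwise for some simple `α_i ∈ Φ_lam` (a positive root in
`Φ_lam` is a combination of simple roots in `Φ_lam`, as `lam` is dominant) `w α_i` is negative; with
`ν_i ∈ N` acting by `s_i = reflE (simple i)` (`ν_i, ν_i⁻¹ ∈ FilR lam 0`, as `wact s_i lam = lam`) `g p ν_i =
u (ν ν_i)`, `w s_i` makes fewer positive roots negative; contradiction. Now `σ(g p) = σ(u) σ(ν)`, and
`σ(g p) = (g p) q'` with `q' = p⁻¹ q σ(p) ∈ FilR lam 0`, also `q'⁻¹` (`FilR_sgl`). Bruhat: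
`q' = b₁ ν' b₂`, `ν'` acting by `v`. `v` preserves `lam`: `ν' = b₁⁻¹ q' b₂⁻¹ ∈ FilR lam 0`, so
`pr lam (v β) ≥ pr lam β` for all `β` (`N_mono`), equality by summing over all roots. By
`exists_lp_inv` we may take `b₁ = lp t` with `t β = 0` if `v⁻¹ β` is positive; if `β > 0` and `v⁻¹ β < 0`
then `pr lam β = pr lam (v⁻¹ β) ≤ 0`, so `β ∈ Φ_lam` positive, so `w β > 0`: `ν b₁ ν⁻¹ ∈ U 1`. So
`σ(u) σ(ν) = (u (ν b₁ ν⁻¹)) (ν ν') b₂`, and `bruhat_unique` gives `rE w rE⁻¹ = w v`. If `v ≠ 1` there is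
`i` with `v α_i` negative (`eq_one_of_pos`), then `pr lam α_i = pr lam (v α_i) ≤ 0`, `α_i ∈ Φ_lam`,
`-v α_i ∈ Φ_lam` positive, `w (-v α_i) > 0`, so `w v α_i < 0`; but `rE w rE⁻¹ α_i` is positive, since
`rE⁻¹ α_i` is a simple root in `Φ_lam` (`lam ∘ ρ⁻¹ = lam`). So `v = 1`, `q' = b₁ ν' b₂` with
`ν' ∈ T` (`N_one`): `q'` is upper triangular. So `sigma_chamber` applies to `g p`: `g p = g₁ b₃`, `g₁ ∈ Eg`,
`b₃` upper triangular, so `g₁⁻¹ g = b₃ p⁻¹ ∈ FilR lam 0` (`FilR_upper`), and the same for the inverse.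
-/

set_option autoImplicit false
open Matrix
universe u
namespace Pool.Agent.H75.UL

section
variable {n : ℕ} {C : SLC n} {F : Type*} [Field F]

/-- The elements of the parabolic subgroup of `lam`. -/
private def K5_P (lam : Fin n → ℝ) (x : GL C.Idx F) : Prop :=
  C.FilR lam 0 (x : Matrix C.Idx C.Idx F) ∧
    C.FilR lam 0 ((x⁻¹ : GL C.Idx F) : Matrix C.Idx C.Idx F)

private theorem K5_inv {lam : Fin n → ℝ} {x : GL C.Idx F} (h : K5_P lam x) : K5_P lam x⁻¹ := by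
  refine ⟨h.2, ?_⟩
  rw [inv_inv]
  exact h.1

private theorem K5_mul {lam : Fin n → ℝ} {x y : GL C.Idx F} (hx : K5_P lam x) (hy : K5_P lam y) :
    K5_P lam (x * y) := by
  constructor
  · have h1 := C.FilR_mul hx.1 hy.1
    rw [add_zero] at h1
    rw [Units.val_mul]
    exact h1
  · have h1 := C.FilR_mul hy.2 hx.2
    rw [add_zero] at h1
    rw [_root_.mul_inv_rev, Units.val_mul]
    exact h1

private theorem K5_U {lam : Fin n → ℝ} (hd : ∀ i, 0 ≤ lam i) (u : GL C.Idx F)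
    (hu : u ∈ (C.adS F).U 1) : K5_P lam u :=
  ⟨C.FilR_U hd u hu, C.FilR_U hd u⁻¹ (inv_mem hu)⟩

private theorem K5_x {lam : Fin n → ℝ} (β : C.Root) (hβ : 0 ≤ C.pr lam β) (t : F) :
    K5_P lam (C.xg F β t) := by
  have key : ∀ t : F, C.FilR lam 0 (C.xg F β t : Matrix C.Idx C.Idx F) := by
    intro t
    have h1 := C.FilR_add (C.FilR_xg (R := F) le_rfl β hβ t) (C.FilR_one (R := F) (lam := lam) le_rfl)
    rw [sub_add_cancel] at h1
    exact h1
  refine ⟨key t, ?_⟩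
  have h2 : (C.xg F β t)⁻¹ = C.xg F β (-t) := by
    have := (C.adS F).x_neg β t
    exact this.symm
  rw [h2]
  exact key (-t)

private theorem K5_pr_nonpos {lam : Fin n → ℝ} (hd : ∀ i, 0 ≤ lam i) (β : C.Root)
    (hβ : ¬ C.Pos β) : C.pr lam β ≤ 0 := by
  rw [C.not_pos_iff] at hβ
  have h1 := C.pr_pos_of_dom hd (-β) hβ
  rw [C.pr_neg] at h1
  linarith

private theorem K5_root_sum (w : Equiv.Perm C.Root) (hw : w ∈ C.W) (β : C.Root) (k : Fin n) :
    (w β).1 k = ∑ i, β.1 i * (w (C.simple i)).1 k := by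
  obtain ⟨f, hf, -⟩ := C.W_lin w hw
  have h1 : β.1 = ∑ i, β.1 i • (Pi.single i 1 : Fin n → ℤ) := by
    funext j
    rw [Finset.sum_apply]
    simp [Pi.single_apply]
  rw [hf]
  conv_lhs => rw [h1]
  rw [map_sum, Finset.sum_apply]
  apply Finset.sum_congr rfl
  intro i _
  rw [map_zsmul, Pi.smul_apply, smul_eq_mul, hf]
  rfl

/-- Positivity on the positive roots of degree zero. -/
private theorem K5_pos {lam : Fin n → ℝ} (hd : ∀ i, 0 ≤ lam i) (w : Equiv.Perm C.Root)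
    (hw : w ∈ C.W) (hs : ∀ i, lam i = 0 → C.Pos (w (C.simple i))) (β : C.Root) (hβ : C.Pos β)
    (h0 : C.pr lam β = 0) : C.Pos (w β) := by
  rw [C.pos_iff] at hβ ⊢
  have hz : ∀ i, (β.1 i : ℝ) * lam i = 0 := by
    have h1 : ∀ i ∈ Finset.univ, 0 ≤ (β.1 i : ℝ) * lam i := fun i _ =>
      mul_nonneg (by exact_mod_cast hβ i) (hd i)
    intro i
    exact (Finset.sum_eq_zero_iff_of_nonneg h1).mp h0 i (Finset.mem_univ i)
  intro k
  rw [K5_root_sum w hw β k]
  apply Finset.sum_nonneg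
  intro i _
  rcases mul_eq_zero.mp (hz i) with h | h
  · have h2 : β.1 i = 0 := by exact_mod_cast h
    rw [h2, zero_mul]
  · exact mul_nonneg (hβ i) ((C.pos_iff _).mp (hs i h) k)

/-- The number of positive roots made negative. -/
private noncomputable def K5_inv_count (C : SLC n) (w : Equiv.Perm C.Root) : ℕ := by
  classical
  exact (Finset.univ.filter fun α : C.Root => C.Pos α ∧ ¬ C.Pos (w α)).card

private theorem K5_count_lt (w : Equiv.Perm C.Root) (hw : w ∈ C.W) (i : Fin n)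
    (hi : ¬ C.Pos (w (C.simple i))) :
    K5_inv_count C (w * C.reflE (C.simple i)) < K5_inv_count C w := by
  classical
  unfold K5_inv_count
  rw [← Finset.card_image_of_injective _ (C.reflE (C.simple i)).injective]
  apply Finset.card_lt_card
  rw [Finset.ssubset_iff_of_subset]
  · refine ⟨C.simple i, ?_, ?_⟩
    · rw [Finset.mem_filter]
      exact ⟨Finset.mem_univ _, C.simple_pos i, hi⟩
    · rw [Finset.mem_image]
      rintro ⟨α, hα, h1⟩
      rw [Finset.mem_filter] at hα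
      exact C.refl_simple_ne i α hα.2.1 h1
  · intro γ hγ
    rw [Finset.mem_image] at hγ
    obtain ⟨α, hα, rfl⟩ := hγ
    rw [Finset.mem_filter] at hα ⊢
    obtain ⟨-, hα1, hα2⟩ := hα
    refine ⟨Finset.mem_univ _, ?_, hα2⟩
    have hne : α ≠ C.simple i := by
      rintro rfl
      apply hα2
      rw [Equiv.Perm.mul_apply]
      have h3 : C.reflE (C.simple i) (C.simple i) = -(C.simple i) := C.refl_self _
      rw [h3, C.W_neg w hw, ← C.not_pos_iff]
      exact hi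
    exact C.refl_simple_pos i α hα1 hne

private theorem K5_Fil {g h : GL C.Idx F} (hg : C.Fil 0 (g : Matrix C.Idx C.Idx F))
    (hh : C.Fil 0 (h : Matrix C.Idx C.Idx F)) :
    C.Fil 0 ((g * h : GL C.Idx F) : Matrix C.Idx C.Idx F) := by
  have h1 := C.Fil_mul hg hh
  rw [add_zero] at h1
  rw [Units.val_mul]
  exact h1

/-- The Weyl group element of a monomial element of the parabolic subgroup preserves `lam`. -/
private theorem K5_pr_le {lam : Fin n → ℝ} (ν : GL C.Idx F) (v : Equiv.Perm C.Root)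
    (hν : ν ∈ (C.adS F).N) (hv : (C.adS F).Acts ν v)
    (h : C.FilR lam 0 (ν : Matrix C.Idx C.Idx F)) (β : C.Root) :
    C.pr lam β ≤ C.pr lam (v β) := by
  have h1 := h (Sum.inr (v β)) (Sum.inr β) ((C.N_mono ν v hv hν).2.2.2.2 β)
  rw [add_zero] at h1
  exact h1

private theorem K5_pr_eq {lam : Fin n → ℝ} (ν : GL C.Idx F) (v : Equiv.Perm C.Root)
    (hν : ν ∈ (C.adS F).N) (hv : (C.adS F).Acts ν v) (h : K5_P lam ν) (β : C.Root) :
    C.pr lam (v β) = C.pr lam β := by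
  apply le_antisymm
  · have h1 := K5_pr_le ν⁻¹ v⁻¹ (inv_mem hν) (C.Acts_inv _ _ _ hv) h.2 (v β)
    have h2 : v⁻¹ (v β) = β := v.symm_apply_apply β
    rw [h2] at h1
    exact h1
  · exact K5_pr_le ν v hν hv h.1 β

/-- A minimal decomposition. -/
private theorem K5_min {lam : Fin n → ℝ} (hd : ∀ i, 0 ≤ lam i) (g : GL C.Idx F)
    (hg : g ∈ C.Gad F) : ∃ p ∈ C.Gad F, K5_P lam p ∧ ∃ u ∈ (C.adS F).U 1, ∃ ν ∈ (C.adS F).N,
      ∃ w ∈ C.W, (C.adS F).Acts ν w ∧ g * p = u * ν ∧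
        ∀ i, lam i = 0 → C.Pos (w (C.simple i)) := by
  classical
  set S := C.adS F with hS
  have hUG : ∀ x, x ∈ S.U 1 → x ∈ C.Gad F := by
    intro x hx
    rw [← C.gen_adS]
    exact S.U_le_gen 1 hx
  have hNG : ∀ x, x ∈ S.N → x ∈ C.Gad F := by
    intro x hx
    rw [← C.gen_adS]
    exact S.N_le_gen hx
  have hex : ∃ k : ℕ, ∃ p ∈ C.Gad F, K5_P lam p ∧ ∃ u ∈ S.U 1, ∃ ν ∈ S.N,
      ∃ w ∈ C.W, S.Acts ν w ∧ g * p = u * ν ∧ K5_inv_count C w = k := by
    obtain ⟨u, hu, ν, hν, b, hb, h⟩ := S.bruhat g (by rw [C.gen_adS]; exact hg)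
    obtain ⟨w, hw, hact, -⟩ := S.N_acts ν hν
    refine ⟨_, b⁻¹, inv_mem (hUG b hb), K5_U hd _ (inv_mem hb), u, hu, ν, hν, w, hw, hact, ?_, rfl⟩
    rw [h]
    group
  obtain ⟨p, hp, hpP, u, hu, ν, hν, w, hw, hact, hgp, hk⟩ := Nat.find_spec hex
  refine ⟨p, hp, hpP, u, hu, ν, hν, w, hw, hact, hgp, ?_⟩
  intro i hi
  by_contra hcon
  have hpr : C.pr lam (C.simple i) = 0 := by rw [C.pr_simple, hi]
  have hprn : C.pr lam (-(C.simple i)) = 0 := by rw [C.pr_neg, hpr, neg_zero]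
  have hν1 : S.nword [i] ∈ S.N := S.nword_mem [i]
  have hact1 : S.Acts (S.nword [i]) (C.reflE (C.simple i)) := by
    have h1 := S.nword_acts [i]
    have h2 : C.wd [i] = C.reflE (C.simple i) := by simp [SLC.wd]
    rw [h2] at h1
    exact h1
  have hP1 : K5_P lam (S.nword [i]) := by
    have h1 : S.nword [i] = C.xg F (C.simple i) 1 * C.xg F (-(C.simple i)) ((1 : F)⁻¹) *
        C.xg F (C.simple i) 1 := by
      simp only [StSys.nword, List.map_cons, List.map_nil, List.prod_cons, List.prod_nil, mul_one]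
      rfl
    rw [h1]
    exact K5_mul (K5_mul (K5_x _ hpr.ge _) (K5_x _ hprn.ge _)) (K5_x _ hpr.ge _)
  have hlt := K5_count_lt w hw i hcon
  rw [hk] at hlt
  refine Nat.find_min hex hlt ⟨p * S.nword [i], mul_mem hp (hNG _ hν1), K5_mul hpP hP1, u, hu,
    ν * S.nword [i], mul_mem hν hν1, w * C.reflE (C.simple i), mul_mem hw (C.simple_mem_W i),
    C.Acts_mul S _ _ _ _ hact hact1, ?_, rfl⟩
  rw [← mul_assoc, hgp, mul_assoc]

end

section
variable {n : ℕ} {C : SLC n} (D : Dg C) {F : Type*} [Field F]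

theorem gate (θ : F ≃+* F) (hθ : ∀ t, (⇑θ)^[D.m] t = t)
    (hA : D.NA ∨ ∃ e, e ≠ 0 ∧ θ e = -e) (lam : Fin n → ℝ) (hd : ∀ i, 0 ≤ lam i)
    (hl : ∀ i, lam (D.ρ i) = lam i) (g : GL C.Idx F) (hg : g ∈ C.Gad F)
    (h1 : C.FilR lam 0 ((g⁻¹ * D.sgl θ g : GL C.Idx F) : Matrix C.Idx C.Idx F))
    (h2 : C.FilR lam 0 (((D.sgl θ g)⁻¹ * g : GL C.Idx F) : Matrix C.Idx C.Idx F)) :
    ∃ g₁ ∈ Eg (C.adS F) (D.sgl θ),
      C.FilR lam 0 ((g₁⁻¹ * g : GL C.Idx F) : Matrix C.Idx C.Idx F) ∧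
      C.FilR lam 0 ((g⁻¹ * g₁ : GL C.Idx F) : Matrix C.Idx C.Idx F) := by
  have hsig : IsSig D θ (C.adS F) (D.sgl θ) := isSig_adS D θ
  obtain ⟨p, hp, hpP, u, hu, ν, hν, w, hw, hact, hgp, hmin⟩ := K5_min hd g hg
  set S := C.adS F with hS
  have hUG : ∀ x, x ∈ S.U 1 → x ∈ C.Gad F := by
    intro x hx
    rw [← C.gen_adS]
    exact S.U_le_gen 1 hx
  have hσP : ∀ x : GL C.Idx F, K5_P lam x → K5_P lam (D.sgl θ x) := by
    intro x hx
    refine ⟨(FilR_sgl D θ lam hl 0 x).mpr hx.1, ?_⟩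
    rw [← map_inv]
    exact (FilR_sgl D θ lam hl 0 x⁻¹).mpr hx.2
  have hq : K5_P lam (g⁻¹ * D.sgl θ g) := by
    refine ⟨h1, ?_⟩
    have e : (g⁻¹ * D.sgl θ g)⁻¹ = (D.sgl θ g)⁻¹ * g := by group
    rw [e]
    exact h2
  set q' : GL C.Idx F := p⁻¹ * (g⁻¹ * D.sgl θ g) * D.sgl θ p with hq'
  have hq'P : K5_P lam q' := K5_mul (K5_mul (K5_inv hpP) hq) (hσP p hpP)
  have hq'G : q' ∈ C.Gad F :=
    mul_mem (mul_mem (inv_mem hp) (mul_mem (inv_mem hg) (sgl_Gad D θ g hg))) (sgl_Gad D θ p hp)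
  have hσgp : D.sgl θ (g * p) = g * p * q' := by
    rw [hq', map_mul]
    group
  obtain ⟨b₀, hb₀, ν', hν', b₂', hb₂', hbr⟩ := S.bruhat q' (by rw [C.gen_adS]; exact hq'G)
  obtain ⟨v, hv, hact', -⟩ := S.N_acts ν' hν'
  obtain ⟨t, ht, b, hb, hlp⟩ := S.exists_lp_inv ν' v hact' b₀ hb₀
  set b₁ : GL C.Idx F := S.lp C.posList t with hb₁
  set b₂ : GL C.Idx F := b * b₂' with hb₂
  have hb₂U : b₂ ∈ S.U 1 := mul_mem hb hb₂'
  have hb₁U : b₁ ∈ S.U 1 := by
    refine Subgroup.list_prod_mem _ ?_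
    intro y hy
    obtain ⟨β, hβ, rfl⟩ := List.mem_map.1 hy
    refine Subgroup.subset_closure ⟨β, t β, ?_, rfl⟩
    have := (C.mem_posList β).1 hβ
    unfold SLC.Pos at this
    omega
  have hq'eq : q' = b₁ * ν' * b₂ := by
    rw [hbr, hlp, hb₂]
    group
  -- `v` preserves the weight
  have hν'P : K5_P lam ν' := by
    have e : ν' = b₁⁻¹ * q' * b₂⁻¹ := by
      rw [hq'eq]
      group
    rw [e]
    exact K5_mul (K5_mul (K5_inv (K5_U hd _ hb₁U)) hq'P) (K5_inv (K5_U hd _ hb₂U))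
  have hpr : ∀ β, C.pr lam (v β) = C.pr lam β := K5_pr_eq ν' v hν' hact' hν'P
  have hpos : ∀ β : C.Root, C.Pos β → C.pr lam β = 0 → C.Pos (w β) := K5_pos hd w hw hmin
  -- the conjugate of `b₁`
  have hconj : ν * b₁ * ν⁻¹ ∈ S.U 1 := by
    have h3 : b₁ ∈ (S.U 1).comap (MulAut.conj ν).toMonoidHom := by
      refine Subgroup.list_prod_mem _ ?_
      intro y hy
      obtain ⟨β, hβ, rfl⟩ := List.mem_map.1 hy
      have hβ' := (C.mem_posList β).1 hβ
      by_cases hp' : C.Pos (v⁻¹ β)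
      · rw [ht β hp', S.x_zero]
        exact one_mem _
      · rw [Subgroup.mem_comap]
        change ν * S.x β (t β) * ν⁻¹ ∈ S.U 1
        obtain ⟨c, -, hc⟩ := hact
        rw [hc]
        refine Subgroup.subset_closure ⟨w β, _, ?_, rfl⟩
        have h4 : C.pr lam β = 0 := by
          apply le_antisymm
          · have h5 := hpr (v⁻¹ β)
            have h6 : v (v⁻¹ β) = β := v.apply_symm_apply β
            rw [h6] at h5
            rw [h5]
            exact K5_pr_nonpos hd _ hp'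
          · exact C.pr_pos_of_dom hd β hβ'
        have h7 := hpos β hβ' h4
        unfold SLC.Pos at h7
        omega
    exact h3
  -- Bruhat uniqueness
  have hwv : D.rE * w * D.rE⁻¹ = w * v := by
    refine bruhat_unique (D.sgl θ u) (u * (ν * b₁ * ν⁻¹)) (D.sgl θ ν) (ν * ν') b₂ _ _
      (hsig.map_U 1 u hu) (mul_mem hu hconj) (hsig.map_N ν hν) (mul_mem hν hν')
      (hsig.acts ν w hact) (C.Acts_mul S _ _ _ _ hact hact') (hUG _ hb₂U)
      (C.Fil_U_zero _ hb₂U) ?_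
    rw [← map_mul, ← hgp, hσgp, hgp, hq'eq]
    group
  have hv1 : v = 1 := by
    apply C.eq_one_of_pos v hv
    intro i
    by_contra hcon
    have h3 : C.pr lam (C.simple i) = 0 := by
      apply le_antisymm
      · rw [← hpr]
        exact K5_pr_nonpos hd _ hcon
      · exact C.pr_pos_of_dom hd _ (C.simple_pos i)
    have h4 : C.Pos (w (-(v (C.simple i)))) := by
      apply hpos
      · rw [← C.not_pos_iff]
        exact hcon
      · rw [C.pr_neg, hpr, h3, neg_zero]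
    have h5 : ¬ C.Pos (w (v (C.simple i))) := by
      rw [C.not_pos_iff, ← C.W_neg w hw]
      exact h4
    apply h5
    have h6 : w (v (C.simple i)) = D.r (w (C.simple (D.ρ.symm i))) := by
      have h7 : (w * v) (C.simple i) = (D.rE * w * D.rE⁻¹) (C.simple i) := by rw [hwv]
      have h8 : D.rE⁻¹ (C.simple i) = C.simple (D.ρ.symm i) := by
        rw [Equiv.Perm.inv_eq_iff_eq]
        change C.simple i = D.r (C.simple (D.ρ.symm i))
        rw [D.r_simple, Equiv.apply_symm_apply]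
      change (w * v) (C.simple i) = _
      rw [h7, Equiv.Perm.mul_apply, Equiv.Perm.mul_apply, h8]
      rfl
    rw [h6, D.r_pos]
    apply hmin
    have h9 := hl (D.ρ.symm i)
    rw [Equiv.apply_symm_apply] at h9
    rw [← h9, ← C.pr_simple lam i, h3]
  -- `q'` is upper triangular
  have hν'T : ν' ∈ S.T := by
    refine C.N_one ν' ?_ hν'
    rw [hv1] at hact'
    exact hact'
  have hq'0 : C.Fil 0 (q' : Matrix C.Idx C.Idx F) := by
    rw [hq'eq]
    exact K5_Fil (K5_Fil (C.Fil_U_zero _ hb₁U) (C.Fil_T _ hν'T)) (C.Fil_U_zero _ hb₂U)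
  have hgpG : g * p ∈ C.Gad F := mul_mem hg hp
  obtain ⟨g₁, hg₁, hb3⟩ := sigma_chamber D θ hθ hA (g * p) hgpG (by
    rw [hσgp, inv_mul_cancel_left]
    exact hq'0)
  have hg₁G : g₁ ∈ C.Gad F := by
    rw [← C.gen_adS]
    exact Eg_le_gen S (D.sgl θ) hg₁
  have hb3G : g₁⁻¹ * (g * p) ∈ C.Gad F := mul_mem (inv_mem hg₁G) hgpG
  have hb3P : K5_P lam (g₁⁻¹ * (g * p)) :=
    ⟨C.FilR_upper hd _ hb3G hb3, C.FilR_upper hd _ (inv_mem hb3G) (C.upper_inv _ hb3G hb3)⟩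
  have hfin : K5_P lam (g₁⁻¹ * g) := by
    have e : g₁⁻¹ * g = g₁⁻¹ * (g * p) * p⁻¹ := by group
    rw [e]
    exact K5_mul hb3P (K5_inv hpP)
  refine ⟨g₁, hg₁, hfin.1, ?_⟩
  have e : g⁻¹ * g₁ = (g₁⁻¹ * g)⁻¹ := by group
  rw [e]
  exact hfin.2

end

end Pool.Agent.H75.UL
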