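import Pool.Agent.H75.UK.K4
import Pool.Agent.H75.UT.D7

/-!
# Project UK, module K5a: the optimal weight and `σ`

`FilR_sgl`: entries: `(sgl θ g) (ρ a) (ρ b) = ± θ (g a b)` where `ρ (inl i) = inl (ρ i)`,
`ρ (inr β) = inr (r β)`, and `dg (lam ∘ ρ⁻¹) (ρ a) = dg lam a`.
`opt_sgl`: `(σ(g), lam ∘ ρ⁻¹, s)` is optimal: `σ(g)⁻¹ γ' σ(g) - 1 = σ(g⁻¹ γ g) - 1` for `γ' = σ γ`
(`nrm` is invariant: reindex by `rE`; maximality is that of `(g, lam, s)`). `opt_unique`.
-/

set_option autoImplicit false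
open Matrix
universe u
namespace Pool.Agent.H75.UL

section
variable {n : ℕ} {C : SLC n} (D : Dg C)

/-- The permutation of the index set. -/
private def K5a_p (a : C.Idx) : C.Idx := Sum.map D.ρ D.r a

/-- The signs on the index set. -/
private def K5a_s (a : C.Idx) : ℤ := Sum.elim (fun _ => 1) D.sg a

private theorem K5a_s_sq (a : C.Idx) : K5a_s D a * K5a_s D a = 1 := by
  rcases a with i | β
  · simp [K5a_s]
  · exact D.sg_sq β

private theorem K5a_s_cast {R : Type*} [CommRing R] (a : C.Idx) :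
    (K5a_s D a : R) * (K5a_s D a : R) = 1 := by
  rw [← Int.cast_mul, K5a_s_sq]
  simp

private theorem K5a_p_inj : Function.Injective (K5a_p D) := by
  unfold K5a_p
  exact Sum.map_injective.mpr ⟨D.ρ.injective, D.r_injective⟩

private theorem K5a_p_surj : Function.Surjective (K5a_p D) :=
  Finite.surjective_of_injective (K5a_p_inj D)

private theorem K5a_mat (R : Type*) [CommRing R] (a b : C.Idx) :
    D.mat R a b = if a = K5a_p D b then (K5a_s D b : R) else 0 := by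
  rcases a with i | γ <;> rcases b with j | β <;> simp [Dg.mat, K5a_p, K5a_s]

private theorem K5a_entry {R : Type*} [CommRing R] (θ : R ≃+* R) (g : GL C.Idx R) (a b : C.Idx) :
    ((D.sgl θ g : GL C.Idx R) : Matrix C.Idx C.Idx R) (K5a_p D a) (K5a_p D b) =
      (K5a_s D a : R) * (K5a_s D b : R) * θ ((g : Matrix C.Idx C.Idx R) a b) := by
  have h1 : ((D.sgl θ g : GL C.Idx R) : Matrix C.Idx C.Idx R) =
      D.mat R * ((g : Matrix C.Idx C.Idx R).map (θ : R →+* R)) * (D.mat R)ᵀ := by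
    rw [Dg.sgl_apply, Units.val_mul, Units.val_mul, SLC.mp_val]
    rfl
  rw [h1, Matrix.mul_apply, Finset.sum_eq_single b]
  · rw [Matrix.mul_apply, Finset.sum_eq_single a]
    · rw [Matrix.transpose_apply, K5a_mat, K5a_mat, if_pos rfl, if_pos rfl, Matrix.map_apply]
      change _ * θ _ * _ = _
      ring
    · intro c _ hc
      rw [K5a_mat, if_neg, zero_mul]
      intro h
      exact hc (K5a_p_inj D h).symm
    · intro h
      exact absurd (Finset.mem_univ _) h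
  · intro c _ hc
    rw [Matrix.transpose_apply, K5a_mat, if_neg, mul_zero]
    intro h
    exact hc (K5a_p_inj D h).symm
  · intro h
    exact absurd (Finset.mem_univ _) h

private theorem K5a_one (R : Type*) [CommRing R] (a b : C.Idx) :
    (1 : Matrix C.Idx C.Idx R) (K5a_p D a) (K5a_p D b) =
      (K5a_s D a : R) * (K5a_s D b : R) * (1 : Matrix C.Idx C.Idx R) a b := by
  by_cases h : a = b
  · subst h
    rw [Matrix.one_apply_eq, Matrix.one_apply_eq, K5a_s_cast]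
    ring
  · rw [Matrix.one_apply_ne h, Matrix.one_apply_ne (fun h' => h (K5a_p_inj D h'))]
    ring

private theorem K5a_entry_one {R : Type*} [CommRing R] (θ : R ≃+* R) (g : GL C.Idx R)
    (a b : C.Idx) :
    (((D.sgl θ g : GL C.Idx R) : Matrix C.Idx C.Idx R) - 1) (K5a_p D a) (K5a_p D b) =
      (K5a_s D a : R) * (K5a_s D b : R) * θ (((g : Matrix C.Idx C.Idx R) - 1) a b) := by
  rw [Matrix.sub_apply, Matrix.sub_apply, K5a_entry, K5a_one, map_sub, mul_sub]
  congr 2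
  by_cases h : a = b
  · subst h
    rw [Matrix.one_apply_eq, map_one]
  · rw [Matrix.one_apply_ne h, map_zero]

/-- The weight `lam ∘ ρ⁻¹`. -/
private def K5a_l (lam : Fin n → ℝ) : Fin n → ℝ := fun i => lam (D.ρ.symm i)

private theorem K5a_pr (lam : Fin n → ℝ) (β : C.Root) :
    C.pr (K5a_l D lam) (D.r β) = C.pr lam β := by
  unfold SLC.pr K5a_l
  rw [← Equiv.sum_comp D.ρ]
  refine Finset.sum_congr rfl fun i _ => ?_
  rw [D.r_val, Equiv.symm_apply_apply]

private theorem K5a_dg (lam : Fin n → ℝ) (a : C.Idx) :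
    C.dg (K5a_l D lam) (K5a_p D a) = C.dg lam a := by
  rcases a with i | β
  · rfl
  · exact K5a_pr D lam β

private theorem K5a_nrm (lam : Fin n → ℝ) : C.nrm (K5a_l D lam) = C.nrm lam := by
  unfold SLC.nrm
  rw [← Equiv.sum_comp D.rE]
  refine Finset.sum_congr rfl fun β _ => ?_
  rw [Dg.rE_apply, K5a_pr]

private theorem K5a_fil {F : Type*} [Field F] (θ : F ≃+* F) (lam : Fin n → ℝ) (s : ℝ)
    (M N : Matrix C.Idx C.Idx F)
    (h : ∀ a b, N (K5a_p D a) (K5a_p D b) = (K5a_s D a : F) * (K5a_s D b : F) * θ (M a b)) :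
    C.FilR (K5a_l D lam) s N ↔ C.FilR lam s M := by
  have hne : ∀ a b, N (K5a_p D a) (K5a_p D b) ≠ 0 ↔ M a b ≠ 0 := by
    intro a b
    have ha : (K5a_s D a : F) ≠ 0 := left_ne_zero_of_mul_eq_one (K5a_s_cast D a)
    have hb : (K5a_s D b : F) ≠ 0 := left_ne_zero_of_mul_eq_one (K5a_s_cast D b)
    rw [h, ne_eq, mul_eq_zero, mul_eq_zero, map_eq_zero_iff θ θ.injective]
    tauto
  constructor
  · intro hN a b hab
    have := hN (K5a_p D a) (K5a_p D b) ((hne a b).2 hab)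
    rwa [K5a_dg, K5a_dg] at this
  · intro hM a b hab
    obtain ⟨a', rfl⟩ := K5a_p_surj D a
    obtain ⟨b', rfl⟩ := K5a_p_surj D b
    rw [K5a_dg, K5a_dg]
    exact hM a' b' ((hne a' b').1 hab)

end

section
variable {n : ℕ} {C : SLC n} (D : Dg C) {F : Type*} [Field F]

private theorem K5a_opt (θ : F ≃+* F) (Γ : Subgroup (GL C.Idx F)) (hθΓ : Γ.map (D.sgl θ) = Γ)
    (g : GL C.Idx F) (lam : Fin n → ℝ) (s : ℝ) (h : C.Opt Γ g lam s) :
    C.Opt Γ (D.sgl θ g) (K5a_l D lam) s where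
  mem := sgl_Gad D θ g h.mem
  dom := fun i => h.dom _
  nrm := (K5a_nrm D lam).trans h.nrm
  pos := h.pos
  sp := by
    intro γ' hγ'
    rw [← hθΓ] at hγ'
    obtain ⟨γ, hγ, rfl⟩ := hγ'
    have h1 : (D.sgl θ g)⁻¹ * D.sgl θ γ * D.sgl θ g = D.sgl θ (g⁻¹ * γ * g) := by
      rw [map_mul, map_mul, map_inv]
    rw [h1]
    exact (K5a_fil D θ lam s _ _ (K5a_entry_one D θ (g⁻¹ * γ * g))).2 (h.sp γ hγ)
  max := h.max

theorem FilR_sgl (θ : F ≃+* F) (lam : Fin n → ℝ) (hl : ∀ i, lam (D.ρ i) = lam i) (s : ℝ)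
    (g : GL C.Idx F) :
    C.FilR lam s ((D.sgl θ g : GL C.Idx F) : Matrix C.Idx C.Idx F) ↔
      C.FilR lam s (g : Matrix C.Idx C.Idx F) := by
  have h1 : K5a_l D lam = lam := by
    funext i
    have := hl (D.ρ.symm i)
    rw [Equiv.apply_symm_apply] at this
    exact this.symm
  have h2 := K5a_fil D θ lam s _ _ (K5a_entry D θ g)
  rwa [h1] at h2

theorem opt_sgl (θ : F ≃+* F) (Γ : Subgroup (GL C.Idx F)) (hΓ : Γ ≠ ⊥) (hθΓ : Γ.map (D.sgl θ) = Γ)
    (g : GL C.Idx F) (lam : Fin n → ℝ) (s : ℝ) (h : C.Opt Γ g lam s) :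
    (∀ i, lam (D.ρ i) = lam i) ∧
      C.FilR lam 0 ((g⁻¹ * D.sgl θ g : GL C.Idx F) : Matrix C.Idx C.Idx F) ∧
      C.FilR lam 0 (((D.sgl θ g)⁻¹ * g : GL C.Idx F) : Matrix C.Idx C.Idx F) := by
  have h' := K5a_opt D θ Γ hθΓ g lam s h
  obtain ⟨h1, h2⟩ := C.opt_unique Γ hΓ g (D.sgl θ g) lam (K5a_l D lam) s h h'
  obtain ⟨_, h3⟩ := C.opt_unique Γ hΓ (D.sgl θ g) g (K5a_l D lam) lam s h' h
  refine ⟨fun i => ?_, h2, ?_⟩
  · have h4 := congrFun h1 (D.ρ i)
    rw [h4]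
    unfold K5a_l
    rw [Equiv.symm_apply_apply]
  · rwa [← h1] at h3

end

end Pool.Agent.H75.UL
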