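import Mathlib

/-!
# Project UK, module K7: counting equivariant additive maps

Strong induction on `finrank L V` for all `ι` (reindex with finite sets / subtypes of `ι`). If `ι` is
empty there is nothing to prove; otherwise `V ≠ 0`. Common eigenvector: take a nonzero submodule `W`
of minimal dimension stable under all `A τ`; each `A τ` has an eigenvector in `W`
(`Module.End.exists_eigenvalue` for the restriction, `L` algebraically closed), the eigenspace in `W` is
stable under all `A τ'` (commuting), so it is `W`; so every `v ∈ W`, `v ≠ 0`, satisfies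
`A τ v = χ τ • v` for all `τ`. Let `V' = V ⧸ span {v}`, `f' i` the composition of `f i` with the
projection. `ι₀ = {i | f' i = 0}` has at most one element: if `i ≠ j` are in it, `f i x = g_i x • v`,
`f j x = g_j x • v`, take `τ` with `a i τ = 1`, `a j τ ≠ 1`; some `g_i x ≠ 0`, so
`g_i x • v = f i (a i τ * x) = A τ (f i x) = χ τ g_i x • v` gives `χ τ = 1`; then
`f j (a j τ * x) = f j x`, so `f j ((a j τ - 1) * x) = 0` for all `x`, so `f j = 0`, contradiction.
The induction hypothesis for `V'`, the maps induced by `A τ` and `ι ∖ ι₀` gives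
`card ι - 1 ≤ finrank V - 1`.
-/

set_option autoImplicit false
universe u v w
namespace Pool.Agent.H75.UK

/-- commuting endomorphisms of a nonzero space have a common eigenvector -/
private theorem K7_common {L : Type u} [Field L] [IsAlgClosed L] {V : Type v} [AddCommGroup V]
    [Module L V] [FiniteDimensional L V] [Nontrivial V] {T : Type*}
    (A : T → V →ₗ[L] V) (hA : ∀ s t, A s ∘ₗ A t = A t ∘ₗ A s) :
    ∃ v : V, v ≠ 0 ∧ ∀ τ, ∃ c : L, A τ v = c • v := by
  let P : Submodule L V → Prop := fun W => W ≠ ⊥ ∧ ∀ τ, ∀ w ∈ W, A τ w ∈ W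
  have hP : ∃ W, P W := ⟨⊤, top_ne_bot, fun _ _ _ => Submodule.mem_top⟩
  obtain ⟨W, hW, hmin⟩ := WellFounded.has_min (wellFounded_lt (α := Submodule L V)) {W | P W} hP
  obtain ⟨hW0, hWs⟩ := hW
  have key : ∀ τ, ∃ c : L, ∀ w ∈ W, A τ w = c • w := by
    intro τ
    have : Nontrivial W := Submodule.nontrivial_iff_ne_bot.mpr hW0
    obtain ⟨c, hc⟩ := Module.End.exists_eigenvalue ((A τ).restrict (hWs τ))
    obtain ⟨w, hw⟩ := hc.exists_hasEigenvector
    refine ⟨c, ?_⟩
    have hw1 : A τ (w : V) = c • (w : V) := by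
      have := congrArg Subtype.val hw.apply_eq_smul
      simpa using this
    have hw0 : (w : V) ≠ 0 := fun h => hw.2 (Subtype.ext h)
    let W' : Submodule L V := W ⊓ LinearMap.ker (A τ - c • LinearMap.id)
    have hmem : ∀ x, x ∈ W' ↔ x ∈ W ∧ A τ x = c • x := by
      intro x
      simp [W', sub_eq_zero]
    have hW' : P W' := by
      refine ⟨?_, ?_⟩
      · intro h
        have h1 : (w : V) ∈ W' := (hmem _).mpr ⟨w.2, hw1⟩
        rw [h, Submodule.mem_bot] at h1
        exact hw0 h1
      · intro σ x hx
        rw [hmem] at hx ⊢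
        refine ⟨hWs σ x hx.1, ?_⟩
        have h1 := LinearMap.congr_fun (hA τ σ) x
        rw [LinearMap.comp_apply, LinearMap.comp_apply, hx.2, map_smul] at h1
        exact h1
    have hle : W' ≤ W := inf_le_left
    have hnlt := hmin W' hW'
    have heq : W' = W := by
      by_contra hne
      exact hnlt (lt_of_le_of_ne hle hne)
    intro x hx
    rw [← heq] at hx
    exact ((hmem x).mp hx).2
  obtain ⟨v, hv, hv0⟩ := Submodule.exists_mem_ne_zero_of_ne_bot hW0
  exact ⟨v, hv0, fun τ => ⟨_, (key τ).choose_spec v hv⟩⟩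

private theorem K7_main {L : Type u} [Field L] [IsAlgClosed L] {k T : Type*} [Field k] (n : ℕ) :
    ∀ (V : Type v) [AddCommGroup V] [Module L V] [FiniteDimensional L V] (ι : Type w) [Finite ι]
    (a : ι → T → k) (A : T → V →ₗ[L] V) (_ : ∀ s t, A s ∘ₗ A t = A t ∘ₗ A s) (f : ι → k → V)
    (_ : ∀ i x y, f i (x + y) = f i x + f i y) (_ : ∀ i, ∃ x, f i x ≠ 0)
    (_ : ∀ i τ x, f i (a i τ * x) = A τ (f i x))
    (_ : ∀ i j, i ≠ j → ∃ τ, a i τ = 1 ∧ a j τ ≠ 1), Module.finrank L V = n →
    Nat.card ι ≤ n := by
  induction n with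
  | zero =>
    intro V _ _ _ ι _ a A hA f hf hf0 he hs hn
    have : Subsingleton V := Module.finrank_zero_iff.mp hn
    have : IsEmpty ι := ⟨fun i => by
      obtain ⟨x, hx⟩ := hf0 i
      exact hx (Subsingleton.elim _ _)⟩
    rw [Nat.card_of_isEmpty]
  | succ n ih =>
    intro V _ _ _ ι _ a A hA f hf hf0 he hs hn
    have : Nontrivial V := Module.nontrivial_of_finrank_pos (R := L) (by omega)
    obtain ⟨v, hv0, hv⟩ := K7_common A hA
    let N : Submodule L V := Submodule.span L {v}
    have hN : ∀ τ, N ≤ N.comap (A τ) := by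
      intro τ
      rw [Submodule.span_le, Set.singleton_subset_iff]
      obtain ⟨c, hc⟩ := hv τ
      change A τ v ∈ N
      rw [hc]
      exact N.smul_mem _ (Submodule.mem_span_singleton_self v)
    have hfin : Module.finrank L (V ⧸ N) = n := by
      have h1 := Submodule.finrank_quotient_add_finrank N
      rw [finrank_span_singleton hv0, hn] at h1
      omega
    let p : ι → Prop := fun i => ∃ x, N.mkQ (f i x) ≠ 0
    have h1 : Nat.card {i // p i} ≤ n := by
      refine ih (V ⧸ N) {i // p i} (fun i => a i.1) (fun τ => N.mapQ N (A τ) (hN τ)) ?_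
        (fun i x => N.mkQ (f i.1 x)) ?_ ?_ ?_ ?_ hfin
      · intro s t
        apply Submodule.linearMap_qext
        ext x
        have := LinearMap.congr_fun (hA s t) x
        simp only [LinearMap.comp_apply] at this
        simp only [LinearMap.comp_apply, Submodule.mkQ_apply, Submodule.mapQ_apply, this]
      · intro i x y
        rw [hf, map_add]
      · intro i
        exact i.2
      · intro i τ x
        rw [he]
        simp only [Submodule.mkQ_apply, Submodule.mapQ_apply]
      · intro i j hij
        exact hs i.1 j.1 (fun h => hij (Subtype.ext h))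
    have hnp : ∀ i, ¬ p i → ∀ x, ∃ c : L, f i x = c • v := by
      intro i hi x
      have h2 : N.mkQ (f i x) = 0 := by
        by_contra h3
        exact hi ⟨x, h3⟩
      rw [Submodule.mkQ_apply, Submodule.Quotient.mk_eq_zero] at h2
      obtain ⟨c, hc⟩ := Submodule.mem_span_singleton.mp h2
      exact ⟨c, hc.symm⟩
    have : Subsingleton {i // ¬ p i} := by
      constructor
      rintro ⟨i, hi⟩ ⟨j, hj⟩
      by_contra hne
      have hij : i ≠ j := fun h => hne (Subtype.ext h)
      obtain ⟨τ, h3, h4⟩ := hs i j hij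
      obtain ⟨χ, hχ⟩ := hv τ
      obtain ⟨x0, hx0⟩ := hf0 i
      obtain ⟨c, hc⟩ := hnp i hi x0
      have h5 := he i τ x0
      rw [h3, one_mul, hc, map_smul, hχ] at h5
      have hAv : A τ v = v := by
        have hc0 : c ≠ 0 := by
          rintro rfl
          rw [zero_smul] at hc
          exact hx0 hc
        rw [hχ]
        exact (smul_right_injective V hc0 h5).symm
      have h6 : ∀ x, f j (a j τ * x) = f j x := by
        intro x
        obtain ⟨d, hd⟩ := hnp j hj x
        rw [he, hd, map_smul, hAv]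
      have h7 : ∀ x, f j ((a j τ - 1) * x) = 0 := by
        intro x
        have h8 := hf j ((a j τ - 1) * x) x
        rw [show (a j τ - 1) * x + x = a j τ * x by ring, h6] at h8
        exact (left_eq_add.mp (by rw [add_comm] at h8; exact h8))
      obtain ⟨y, hy⟩ := hf0 j
      apply hy
      have h9 : a j τ - 1 ≠ 0 := sub_ne_zero.mpr h4
      have h10 := h7 ((a j τ - 1)⁻¹ * y)
      rwa [← mul_assoc, mul_inv_cancel₀ h9, one_mul] at h10
    have h2 : Nat.card ι = Nat.card {i // p i} + Nat.card {i // ¬ p i} := by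
      classical
      rw [← Nat.card_sum, Nat.card_congr (Equiv.sumCompl p)]
    have h3 : Nat.card {i // ¬ p i} ≤ 1 := Finite.card_le_one_iff_subsingleton.mpr inferInstance
    omega

/-- Nonzero additive maps `f i : k → V`, equivariant for pairwise different characters, number at most
`dim V`. -/
theorem count_le {L : Type u} [Field L] [IsAlgClosed L] {V : Type v} [AddCommGroup V] [Module L V]
    [FiniteDimensional L V] {k T ι : Type*} [Field k] [Finite ι] (a : ι → T → k)
    (A : T → V →ₗ[L] V) (hA : ∀ s t, A s ∘ₗ A t = A t ∘ₗ A s) (f : ι → k → V)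
    (hf : ∀ i x y, f i (x + y) = f i x + f i y) (hf0 : ∀ i, ∃ x, f i x ≠ 0)
    (he : ∀ i τ x, f i (a i τ * x) = A τ (f i x))
    (hs : ∀ i j, i ≠ j → ∃ τ, a i τ = 1 ∧ a j τ ≠ 1) : Nat.card ι ≤ Module.finrank L V :=
  K7_main (Module.finrank L V) V ι a A hA f hf hf0 he hs rfl

end Pool.Agent.H75.UK
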