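import Pool.Agent.H75.UK.K8a
import Pool.Agent.H75.UL.T3

/-!
# Project UK, module K9a: coordinates in the layers

`kap β M = - M (inl i) (inr (-β)) / β_i` where `i` is chosen with `(β_i : F) ≠ 0`
(`exists_coeff_ne_zero` in R5). On `u ∈ U m`, `ht β = m ≥ 1`, it is the coordinate of `u` at `β`:
`kap_lp`: `lp_entry`. `kap_mul`: `u v - 1 = (u-1) + (v-1) + (u-1)(v-1)` and `(u-1)(v-1)` has zero entries
at `(inl i, inr (-β))` (`Fil_U`: it is in `Fil (2m)`, and `hti (inl i) - hti (inr (-β)) = m`).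
`kap_zero`: `u = lp t * u'`, `t` supported in height `m`, `u' ∈ U (m+1)` (`exists_layer`), `t β = kap β u`.
`kap_conj`: `b = τ u₀` (`upper`), closure induction on `u ∈ U m`... or: `u = lp t * u'`; `u₀ lp t u₀⁻¹ ∈
lp t * U (m+1)` (commutators raise the height: `u₀ u u₀⁻¹ - 1 - (u - 1) ∈ Fil (m+1)` by `Fil_U`), and
`T_fix`. `kap_sgl`: `chi_sgl`, `xi_sgl` are similar: `u = lp t * u'`, `D.sgl` of it is the product of
`x_{rβ}(sg β θ(t β))` and an element of `U (m+1)` (`map_U`).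
`mem_of_kap`: downward induction, from `kap_zero`, `exists_U_eq_bot`: `u ∈ U 1`, `u ≠ 1`: there is
a largest `m` with `u ∈ U m`, and some `β` of height `m` with `kap β u ≠ 0`.
-/

set_option autoImplicit false
open Matrix
universe u
namespace Pool.Agent.H75.UL

namespace SLC
variable {n : ℕ} (C : SLC n) {F : Type*} [Field F]

open Classical in
/-- The coordinate at `β`. -/
noncomputable def kap (β : C.Root) (M : Matrix C.Idx C.Idx F) : F :=
  if h : ∃ i, (β.1 i : F) ≠ 0 then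
    - M (Sum.inl h.choose) (Sum.inr (-β)) / (β.1 h.choose : F) else 0

private theorem K9a_kap_of (β : C.Root) (M : Matrix C.Idx C.Idx F) (s : F)
    (h : ∀ i, M (Sum.inl i) (Sum.inr (-β)) = - (s * (β.1 i : F))) : C.kap β M = s := by
  unfold kap
  have h1 : ∃ i, (β.1 i : F) ≠ 0 := C.exists_coeff_ne_zero β F
  rw [dif_pos h1, h, neg_neg, mul_div_assoc, div_self h1.choose_spec, mul_one]

private theorem K9a_kap_congr (β : C.Root) (M N : Matrix C.Idx C.Idx F)
    (h : ∀ i, M (Sum.inl i) (Sum.inr (-β)) = N (Sum.inl i) (Sum.inr (-β))) :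
    C.kap β M = C.kap β N := by
  unfold kap
  split_ifs with h1
  · rw [h]
  · rfl

theorem kap_lp (t : C.Root → F) (m : ℤ) (hm : 1 ≤ m) (h0 : ∀ γ, ht γ.1 < m → t γ = 0)
    (β : C.Root) (hβ : ht β.1 = m) :
    C.kap β ((C.adS F).lp C.posList t : Matrix C.Idx C.Idx F) = t β :=
  C.K9a_kap_of β _ _ fun i => C.lp_entry t m hm h0 β hβ i

theorem kap_xg (γ β : C.Root) (m : ℤ) (hm : 1 ≤ m) (hγ : m ≤ ht γ.1) (hβ : ht β.1 = m) (t : F) :
    C.kap β (C.xg F γ t : Matrix C.Idx C.Idx F) = if γ = β then t else 0 := by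
  have _ := hm
  have _ := hγ
  have _ := hβ
  apply C.K9a_kap_of
  intro i
  change C.X F γ t (Sum.inl i) (Sum.inr (-β)) = _
  unfold X
  have h1 : (C.F γ) (Sum.inl i) (Sum.inr (-β)) = 0 := rfl
  have h2 : (C.E γ) (Sum.inl i) (Sum.inr (-β)) = if (-β).1 = -γ.1 then - γ.1 i else 0 := rfl
  rw [Matrix.add_apply, Matrix.add_apply, Matrix.smul_apply, Matrix.smul_apply, Matrix.map_apply,
    Matrix.map_apply, h1, h2, Matrix.one_apply_ne (by simp)]
  by_cases h : γ = β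
  · subst h
    rw [if_pos rfl, if_pos (Root.neg_val C γ)]
    push_cast
    simp
  · have h3 : ¬ ((-β).1 = -γ.1) := by
      intro h3
      apply h
      apply Root.ext
      rw [Root.neg_val] at h3
      exact (neg_injective h3).symm
    rw [if_neg h, if_neg h3]
    simp

theorem kap_mul (m : ℤ) (hm : 1 ≤ m) (u v : GL C.Idx F) (hu : u ∈ (C.adS F).U m)
    (hv : v ∈ (C.adS F).U m) (β : C.Root) (hβ : ht β.1 = m) :
    C.kap β ((u * v : GL C.Idx F) : Matrix C.Idx C.Idx F) =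
      C.kap β (u : Matrix C.Idx C.Idx F) + C.kap β (v : Matrix C.Idx C.Idx F) := by
  have h1 := C.Fil_mul (C.Fil_U m hm u hu) (C.Fil_U m hm v hv)
  have e1 : ((u * v : GL C.Idx F) : Matrix C.Idx C.Idx F) =
      ((u : Matrix C.Idx C.Idx F) - 1) * ((v : Matrix C.Idx C.Idx F) - 1) +
        (u : Matrix C.Idx C.Idx F) + (v : Matrix C.Idx C.Idx F) - 1 := by
    rw [Units.val_mul, sub_mul, mul_sub, mul_one, one_mul]
    abel
  have h2 : ∀ i, ((u * v : GL C.Idx F) : Matrix C.Idx C.Idx F) (Sum.inl i) (Sum.inr (-β)) =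
      (u : Matrix C.Idx C.Idx F) (Sum.inl i) (Sum.inr (-β)) +
        (v : Matrix C.Idx C.Idx F) (Sum.inl i) (Sum.inr (-β)) := by
    intro i
    rw [e1, Matrix.sub_apply, Matrix.add_apply, Matrix.add_apply, Matrix.one_apply_ne (by simp),
      h1 (Sum.inl i) (Sum.inr (-β)) (by
        simp only [hti, Sum.elim_inl, Sum.elim_inr, Root.neg_val, ht_neg]
        omega)]
    ring
  unfold kap
  split_ifs with h3
  · rw [h2]
    ring
  · ring

theorem kap_zero (m : ℤ) (hm : 1 ≤ m) (u : GL C.Idx F) (hu : u ∈ (C.adS F).U m)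
    (h : ∀ β : C.Root, ht β.1 = m → C.kap β (u : Matrix C.Idx C.Idx F) = 0) :
    u ∈ (C.adS F).U (m + 1) := by
  obtain ⟨t, ht0, rfl⟩ := (C.adS F).exists_lp m hm u hu
  apply StSys.lp_mem
  intro β hβ
  rcases (show ht β.1 < m ∨ ht β.1 = m by omega) with h1 | h1
  · exact ht0 β h1
  · rw [← C.kap_lp t m hm ht0 β h1]
    exact h β h1

private theorem K9a_T_lp (τ : GL C.Idx F) (hτ : τ ∈ (C.adS F).T) (t : C.Root → F)
    (l : List C.Root) : τ * (C.adS F).lp l t * τ⁻¹ =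
      (C.adS F).lp l (fun γ => C.chi (τ : Matrix C.Idx C.Idx F) γ * t γ) := by
  induction l with
  | nil =>
    have e : (C.adS F).lp [] t = 1 := by simp [StSys.lp]
    have e' : (C.adS F).lp [] (fun γ => C.chi (τ : Matrix C.Idx C.Idx F) γ * t γ) = 1 := by
      simp [StSys.lp]
    rw [e, e', mul_one, mul_inv_cancel]
  | cons γ l ih =>
    have e2 : ∀ s : C.Root → F, (C.adS F).lp (γ :: l) s = C.xg F γ (s γ) * (C.adS F).lp l s := by
      intro s
      simp [StSys.lp]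
    rw [e2, e2, ← ih, ← (C.T_fix τ hτ γ (t γ)).2]
    group

theorem kap_conj (m : ℤ) (hm : 1 ≤ m) (b u : GL C.Idx F) (hb : b ∈ C.Gad F)
    (hb0 : C.Fil 0 (b : Matrix C.Idx C.Idx F)) (hu : u ∈ (C.adS F).U m) (β : C.Root)
    (hβ : ht β.1 = m) : b * u * b⁻¹ ∈ (C.adS F).U m ∧
    C.kap β ((b * u * b⁻¹ : GL C.Idx F) : Matrix C.Idx C.Idx F) =
      C.chi (b : Matrix C.Idx C.Idx F) β * C.kap β (u : Matrix C.Idx C.Idx F) := by
  obtain ⟨τ, hτ, u₀, hu₀, rfl⟩ := C.upper b hb hb0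
  have e1 : τ * u₀ * u * (τ * u₀)⁻¹ = τ * (u₀ * u * u₀⁻¹) * τ⁻¹ := by group
  have hv : u₀ * u * u₀⁻¹ ∈ (C.adS F).U m := (C.adS F).U_conj m hm u₀ u hu₀ hu
  have hk : C.kap β ((u₀ * u * u₀⁻¹ : GL C.Idx F) : Matrix C.Idx C.Idx F) =
      C.kap β (u : Matrix C.Idx C.Idx F) := by
    apply C.K9a_kap_congr
    intro i
    have h1 := C.Fil_U 1 le_rfl u₀ hu₀
    have h2 := C.Fil_U m hm u hu
    have h3 := C.Fil_U_zero _ (Subgroup.inv_mem _ hu₀)
    have h4 := C.Fil_inv u₀ 1 le_rfl h1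
    have h5 := C.Fil_mul (C.Fil_mul h1 h2) h3
    have h6 := C.Fil_mul h2 h4
    have e2 : ((u₀ * u * u₀⁻¹ : GL C.Idx F) : Matrix C.Idx C.Idx F) =
        ((u₀ : Matrix C.Idx C.Idx F) - 1) * ((u : Matrix C.Idx C.Idx F) - 1) *
          ((u₀⁻¹ : GL C.Idx F) : Matrix C.Idx C.Idx F) +
        ((u : Matrix C.Idx C.Idx F) - 1) * (((u₀⁻¹ : GL C.Idx F) : Matrix C.Idx C.Idx F) - 1) +
        (u : Matrix C.Idx C.Idx F) := by
      have e3 : (u₀ : Matrix C.Idx C.Idx F) * ((u₀⁻¹ : GL C.Idx F) : Matrix C.Idx C.Idx F) = 1 := by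
        rw [← Units.val_mul, mul_inv_cancel, Units.val_one]
      rw [Units.val_mul, Units.val_mul]
      generalize ((u₀⁻¹ : GL C.Idx F) : Matrix C.Idx C.Idx F) = w at *
      generalize (u₀ : Matrix C.Idx C.Idx F) = v at *
      generalize (u : Matrix C.Idx C.Idx F) = z at *
      have e4 : (v - 1) * (z - 1) * w + (z - 1) * (w - 1) + z = v * z * w - v * w + 1 := by
        noncomm_ring
      rw [e4, e3]
      abel
    rw [e2, Matrix.add_apply, Matrix.add_apply, h5 (Sum.inl i) (Sum.inr (-β)) (by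
        simp only [hti, Sum.elim_inl, Sum.elim_inr, Root.neg_val, ht_neg]
        omega), h6 (Sum.inl i) (Sum.inr (-β)) (by
        simp only [hti, Sum.elim_inl, Sum.elim_inr, Root.neg_val, ht_neg]
        omega), zero_add, zero_add]
  rw [e1, C.chi_mul_U τ u₀ hτ hu₀, ← hk]
  obtain ⟨t, ht0, hlp⟩ := (C.adS F).exists_lp m hm _ hv
  rw [hlp, C.K9a_T_lp τ hτ t C.posList]
  have ht1 : ∀ γ : C.Root, ht γ.1 < m →
      (fun γ => C.chi (τ : Matrix C.Idx C.Idx F) γ * t γ) γ = 0 := by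
    intro γ hγ
    change C.chi (τ : Matrix C.Idx C.Idx F) γ * t γ = 0
    rw [ht0 γ hγ, mul_zero]
  refine ⟨StSys.lp_mem _ m _ ht1, ?_⟩
  rw [C.kap_lp _ m hm ht1 β hβ, C.kap_lp t m hm ht0 β hβ]

private theorem K9a_sgl_lp (D : Dg C) (θ : F ≃+* F) (m : ℤ) (hm : 1 ≤ m) (t : C.Root → F)
    (h0 : ∀ γ : C.Root, ht γ.1 < m → t γ = 0) (β : C.Root) (hβ : ht β.1 = m) (l : List C.Root)
    (hl : l.Nodup) : D.sgl θ ((C.adS F).lp l t) ∈ (C.adS F).U m ∧
    C.kap (D.r β) ((D.sgl θ ((C.adS F).lp l t) : GL C.Idx F) : Matrix C.Idx C.Idx F) =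
      if β ∈ l then (D.sg β : F) * θ (t β) else 0 := by
  have hβ' : ht (D.r β).1 = m := by rw [D.r_ht, hβ]
  induction l with
  | nil =>
    have e : (C.adS F).lp [] t = 1 := by simp [StSys.lp]
    rw [e, map_one]
    refine ⟨Subgroup.one_mem _, ?_⟩
    rw [if_neg (List.not_mem_nil)]
    apply C.K9a_kap_of
    intro i
    rw [Units.val_one, Matrix.one_apply_ne (by simp), zero_mul, neg_zero]
  | cons γ l ih =>
    rw [List.nodup_cons] at hl
    obtain ⟨ih1, ih2⟩ := ih hl.2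
    have e2 : (C.adS F).lp (γ :: l) t = C.xg F γ (t γ) * (C.adS F).lp l t := by
      simp [StSys.lp]
    have e3 : D.sgl θ (C.xg F γ (t γ)) = C.xg F (D.r γ) ((D.sg γ : F) * θ (t γ)) :=
      isSig_adS D θ γ (t γ)
    have hx : D.sgl θ (C.xg F γ (t γ)) ∈ (C.adS F).U m := by
      rw [e3]
      by_cases h : ht γ.1 < m
      · rw [h0 γ h, map_zero, mul_zero]
        have e4 : C.xg F (D.r γ) 0 = 1 := (C.adS F).x_zero (D.r γ)
        rw [e4]
        exact Subgroup.one_mem _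
      · exact Subgroup.subset_closure ⟨D.r γ, _, by rw [D.r_ht]; omega, rfl⟩
    have hk : C.kap (D.r β) ((D.sgl θ (C.xg F γ (t γ)) : GL C.Idx F) : Matrix C.Idx C.Idx F) =
        if γ = β then (D.sg β : F) * θ (t β) else 0 := by
      rw [e3]
      by_cases h : ht γ.1 < m
      · have hne : γ ≠ β := by
          rintro rfl
          omega
        rw [if_neg hne, h0 γ h, map_zero, mul_zero]
        have e4 : C.xg F (D.r γ) 0 = 1 := (C.adS F).x_zero (D.r γ)
        rw [e4]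
        apply C.K9a_kap_of
        intro i
        rw [Units.val_one, Matrix.one_apply_ne (by simp), zero_mul, neg_zero]
      · rw [C.kap_xg (D.r γ) (D.r β) m hm (by rw [D.r_ht]; omega) hβ']
        by_cases h1 : γ = β
        · subst h1
          rw [if_pos rfl, if_pos rfl]
        · rw [if_neg h1, if_neg (fun h2 => h1 (D.r_injective h2))]
    rw [e2, map_mul]
    refine ⟨Subgroup.mul_mem _ hx ih1, ?_⟩
    rw [C.kap_mul m hm _ _ hx ih1 (D.r β) hβ', hk, ih2]
    by_cases h1 : γ = β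
    · subst h1
      rw [if_pos rfl, if_neg hl.1, if_pos (List.mem_cons_self), add_zero]
    · by_cases h2 : β ∈ l
      · rw [if_neg h1, if_pos h2, if_pos (List.mem_cons_of_mem _ h2), zero_add]
      · rw [if_neg h1, if_neg h2, if_neg (fun h3 => (List.mem_cons.mp h3).elim
          (fun h4 => h1 h4.symm) h2), zero_add]

theorem kap_sgl (D : Dg C) (θ : F ≃+* F) (m : ℤ) (hm : 1 ≤ m) (u : GL C.Idx F)
    (hu : u ∈ (C.adS F).U m) (β : C.Root) (hβ : ht β.1 = m) :
    C.kap (D.r β) ((D.sgl θ u : GL C.Idx F) : Matrix C.Idx C.Idx F) =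
      (D.sg β : F) * θ (C.kap β (u : Matrix C.Idx C.Idx F)) := by
  obtain ⟨t, ht0, rfl⟩ := (C.adS F).exists_lp m hm u hu
  rw [(C.K9a_sgl_lp D θ m hm t ht0 β hβ C.posList C.posList_nodup).2, C.kap_lp t m hm ht0 β hβ,
    if_pos ((C.mem_posList β).mpr (by unfold Pos; omega))]

/-- For a set of elements of `U 1`, not all `1`, there is a largest `m` with all in `U m`. -/
theorem exists_max_U (X : Set (GL C.Idx F)) (hX : ∀ u ∈ X, u ∈ (C.adS F).U 1)
    (hne : ∃ u ∈ X, u ≠ 1) : ∃ m : ℤ, 1 ≤ m ∧ (∀ u ∈ X, u ∈ (C.adS F).U m) ∧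
      ∃ u ∈ X, ∃ β : C.Root, ht β.1 = m ∧ C.kap β (u : Matrix C.Idx C.Idx F) ≠ 0 := by
  by_contra hcon
  push Not at hcon
  have key : ∀ k : ℕ, ∀ u ∈ X, u ∈ (C.adS F).U ((k : ℤ) + 1) := by
    intro k
    induction k with
    | zero =>
      intro u hu
      simpa using hX u hu
    | succ k ih =>
      intro u hu
      have h1 := C.kap_zero ((k : ℤ) + 1) (by omega) u (ih u hu)
        (fun β hβ => hcon ((k : ℤ) + 1) (by omega) ih u hu β hβ)
      have h2 : (((k + 1 : ℕ) : ℤ) + 1) = (k : ℤ) + 1 + 1 := by push_cast; ring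
      rw [h2]
      exact h1
  obtain ⟨M, hM1, _, hM3⟩ := (C.adS F).exists_U_eq_bot
  obtain ⟨u, hu, hu1⟩ := hne
  have h3 := key (M - 1).toNat u hu
  have h4 : (((M - 1).toNat : ℕ) : ℤ) + 1 = M := by omega
  rw [h4, hM3, Subgroup.mem_bot] at h3
  exact hu1 h3

end SLC

end Pool.Agent.H75.UL
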