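import Pool.Agent.H75.UK.K9n
import Pool.Agent.H75.UT.D5
import Pool.Agent.H75.UT.D8u

/-!
# Project UK, module K9b: the bijection of orbits

`f i t : POrb → L`: let `m_i` be the number of `exists_max_U` for `{y i t | t}`, and
`f i t q = kap q.out (y i t)` if `ht q.out = m_i`, `0` otherwise. It is additive (`kap_mul`), for some `t`
not zero: some `kap β (y i t) ≠ 0`, `ht β = m_i`, and `β` is in the orbit of `q.out`, `q` its class,
`kap_sgl` along the orbit (`y i t` is fixed, `sg ≠ 0`; `r_ht`). `kap_conj`: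
`f i (a i τ * t) q = chi_q (tt τ) * f i t q`. (1) If `f i t q ≠ 0`, `f j t' q ≠ 0` then `i = j`:
otherwise take `τ` with `a i τ = 1`, `a j τ ≠ 1`: `chi_q (tt τ) = 1`, so `f j ((a j τ - 1) t'') q = 0` for
all `t''`, contradiction with `t'' = (a j τ - 1)⁻¹ t'`. (2) So a choice `O i` of `q` with `f i t q ≠ 0`
is injective, so bijective as the cardinalities are equal. (3) `chi_{O i} (tt τ) = 1` iff `a i τ = 1`:
`f i (a i τ t) = chi f i t` at `O i`; if `a i τ = 1` take `t` with value `≠ 0`; if `chi = 1` then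
`f i ((a i τ - 1) t) = 0` for all `t`, so `a i τ = 1`.
`orbit_inv`: `g = b ν b'` (`bruhat`, `gen_adS`), `ν` acting by `w ∈ W` (`N_acts`). `w` commutes with `rE`:
`σ g = g`: `σ b σ ν σ b' = b ν b'`, `bruhat_unique` (D8u). For `i ≠ i₀`: `u = b⁻¹ (y i t) b ∈ U`, `ν⁻¹ u ν =
b' (g⁻¹ (y i t) g) b'⁻¹ ∈ U 1`, `kap_{O i} u ≠ 0` for some `t` (`kap_conj`, `chi_ne_zero`); `kap_N`: `w⁻¹ (O i).out`
is positive. So for every positive `β` with `w⁻¹ β` negative, `β` is in the orbit `O i₀` (`O` is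
surjective; `w⁻¹` commutes with `r` and `r` preserves positive roots). If `w = 1` then `ν ∈ T`
(`N_one`), `g` is upper triangular in `Gad`, `chi (g x g⁻¹) = chi x` for upper triangular `x ∈ Gad`
(`chi_mul`), so `chi_{O i₀} (tt τ) = chi_{O i₀} (tt τ')`, so (`hτ2`: `tt τ'' = tt τ⁻¹ * tt τ'`)
`chi_{O i₀} (tt τ'') = 1`, contradiction with `a i₀ τ'' ≠ 1`. So `w ≠ 1`, `w⁻¹ ≠ 1`, by `eq_one_of_pos` there is
`j` with `w⁻¹ α_j` negative.
-/

set_option autoImplicit false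
open Matrix
universe u
namespace Pool.Agent.H75.UL

section
variable {n : ℕ} {C : SLC n} (D : Dg C) {L : Type*} [Field L]

/-- Additive one-parameter subgroups with pairwise different characters in `U`, as many as orbits. -/
structure Fam {k T ι : Type*} [Field k] (a : ι → T → k) (tt : T → GL C.Idx L)
    (y : ι → k → GL C.Idx L) : Prop where
  ttG : ∀ τ, tt τ ∈ C.Gad L
  tt0 : ∀ τ, C.Fil 0 (tt τ : Matrix C.Idx C.Idx L)
  yU : ∀ i t, y i t ∈ (C.adS L).U 1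
  yf : ∀ i t, D.sgl (RingEquiv.refl L) (y i t) = y i t
  ya : ∀ i s t, y i (s + t) = y i s * y i t
  y1 : ∀ i, ∃ t, y i t ≠ 1
  yT : ∀ i τ t, tt τ * y i t * (tt τ)⁻¹ = y i (a i τ * t)
  hs : ∀ i j, i ≠ j → ∃ τ, a i τ = 1 ∧ a j τ ≠ 1

/-- The orbit `q` belongs to the index `i`. -/
def Occ {k T ι : Type*} [Field k] (a : ι → T → k) (tt : T → GL C.Idx L)
    (y : ι → k → GL C.Idx L) (i : ι) (β : C.Root) : Prop :=
  (∀ t, y i t ∈ (C.adS L).U (ht β.1)) ∧ (∃ t, C.kap β (y i t : Matrix C.Idx C.Idx L) ≠ 0) ∧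
    ∀ τ, C.chi (tt τ : Matrix C.Idx C.Idx L) β = 1 ↔ a i τ = 1

/-- A property invariant under `r` is invariant along the orbits. -/
private theorem K9b_orb (P : C.Root → Prop) (hP : ∀ β, P (D.r β) ↔ P β) {β γ : C.Root}
    (h : D.rE.SameCycle β γ) : P β ↔ P γ := by
  obtain ⟨k, rfl⟩ := h
  let G : Subgroup (Equiv.Perm C.Root) :=
    { carrier := {g | ∀ δ, P (g δ) ↔ P δ}
      mul_mem' := fun {a b} ha hb δ => (ha (b δ)).trans (hb δ)
      one_mem' := fun δ => Iff.rfl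
      inv_mem' := fun {a} ha δ => by
        have h1 := ha (a⁻¹ δ)
        rw [← Equiv.Perm.mul_apply, mul_inv_cancel, Equiv.Perm.one_apply] at h1
        exact h1.symm }
  have h1 : D.rE ∈ G := fun δ => hP δ
  exact ((G.zpow_mem h1 k) β).symm

private theorem K9b_y0 {k T ι : Type*} [Field k] {a : ι → T → k} {tt : T → GL C.Idx L}
    {y : ι → k → GL C.Idx L} (h : Fam D a tt y) (i : ι) : y i 0 = 1 := by
  have h1 := h.ya i 0 0
  rw [add_zero] at h1
  exact (mul_eq_left.mp h1.symm)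

/-- `kap` of the elements `y i t`, along an orbit. -/
private theorem K9b_kap_r {k T ι : Type*} [Field k] {a : ι → T → k} {tt : T → GL C.Idx L}
    {y : ι → k → GL C.Idx L} (h : Fam D a tt y) (m : ℤ) (hm : 1 ≤ m) (i : ι) (t : k)
    (hy : y i t ∈ (C.adS L).U m) (β : C.Root) :
    (ht (D.r β).1 = m ∧ C.kap (D.r β) (y i t : Matrix C.Idx C.Idx L) ≠ 0) ↔
      (ht β.1 = m ∧ C.kap β (y i t : Matrix C.Idx C.Idx L) ≠ 0) := by
  rw [D.r_ht]
  refine and_congr_right fun hβ => ?_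
  have h1 := C.kap_sgl D (RingEquiv.refl L) m hm (y i t) hy β hβ
  rw [h.yf i t] at h1
  rw [h1, RingEquiv.refl_apply]
  have h2 : (D.sg β : L) ≠ 0 := by
    rcases D.sg_eq β with h3 | h3 <;> rw [h3] <;> simp
  exact ⟨fun h4 h5 => h4 (by rw [h5, mul_zero]), fun h4 => mul_ne_zero h2 h4⟩

/-- Equivariance. -/
private theorem K9b_eq {k T ι : Type*} [Field k] {a : ι → T → k} {tt : T → GL C.Idx L}
    {y : ι → k → GL C.Idx L} (h : Fam D a tt y) (m : ℤ) (hm : 1 ≤ m) (i : ι) (t : k) (τ : T)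
    (hy : y i t ∈ (C.adS L).U m) (β : C.Root) (hβ : ht β.1 = m) :
    C.kap β (y i (a i τ * t) : Matrix C.Idx C.Idx L) =
      C.chi (tt τ : Matrix C.Idx C.Idx L) β * C.kap β (y i t : Matrix C.Idx C.Idx L) := by
  have h1 := (C.kap_conj m hm (tt τ) (y i t) (h.ttG τ) (h.tt0 τ) hy β hβ).2
  rw [h.yT i τ t] at h1
  exact h1

/-- If `chi = 1` and some coordinate is not zero then `a i τ = 1`. -/
private theorem K9b_chi {k T ι : Type*} [Field k] {a : ι → T → k} {tt : T → GL C.Idx L}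
    {y : ι → k → GL C.Idx L} (h : Fam D a tt y) (m : ℤ) (hm : 1 ≤ m) (i : ι) (τ : T)
    (hy : ∀ t, y i t ∈ (C.adS L).U m) (β : C.Root) (hβ : ht β.1 = m)
    (hk : ∃ t, C.kap β (y i t : Matrix C.Idx C.Idx L) ≠ 0) :
    C.chi (tt τ : Matrix C.Idx C.Idx L) β = 1 ↔ a i τ = 1 := by
  constructor
  · intro hc
    by_contra hne
    have hne' : a i τ - 1 ≠ 0 := sub_ne_zero.mpr hne
    obtain ⟨t, ht⟩ := hk
    apply ht
    have h1 := K9b_eq D h m hm i ((a i τ - 1)⁻¹ * t) τ (hy _) β hβ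
    rw [hc, one_mul] at h1
    have e1 : a i τ * ((a i τ - 1)⁻¹ * t) = (a i τ - 1)⁻¹ * t + t := by
      have e2 : a i τ * ((a i τ - 1)⁻¹ * t) = ((a i τ - 1) * (a i τ - 1)⁻¹) * t +
        (a i τ - 1)⁻¹ * t := by ring
      rw [e2, mul_inv_cancel₀ hne', one_mul, add_comm]
    rw [e1, h.ya, C.kap_mul m hm _ _ (hy _) (hy _) β hβ] at h1
    exact left_eq_add.mp h1.symm
  · intro ha
    obtain ⟨t, ht⟩ := hk
    have h1 := K9b_eq D h m hm i t τ (hy _) β hβ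
    rw [ha, one_mul] at h1
    have h2 : (C.chi (tt τ : Matrix C.Idx C.Idx L) β - 1) *
        C.kap β (y i t : Matrix C.Idx C.Idx L) = 0 := by
      rw [sub_mul, one_mul, ← h1, sub_self]
    exact sub_eq_zero.mp ((mul_eq_zero.mp h2).resolve_right ht)

theorem exists_occ {k T ι : Type*} [Field k] [Finite ι] {a : ι → T → k} {tt : T → GL C.Idx L}
    {y : ι → k → GL C.Idx L} (h : Fam D a tt y) (hcard : Nat.card D.POrb = Nat.card ι) :
    ∃ O : ι ≃ D.POrb, ∀ i, Occ a tt y i (Quotient.out (O i).1) := by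
  have key : ∀ i, ∃ m : ℤ, 1 ≤ m ∧ (∀ t, y i t ∈ (C.adS L).U m) ∧ ∃ q : D.POrb,
      ht (Quotient.out q.1).1 = m ∧
        ∃ t, C.kap (Quotient.out q.1) (y i t : Matrix C.Idx C.Idx L) ≠ 0 := by
    intro i
    obtain ⟨m, hm, hU, u, ⟨t, rfl⟩, β, hβ, hk⟩ := C.exists_max_U (Set.range (y i))
      (by rintro _ ⟨t, rfl⟩; exact h.yU i t)
      (by obtain ⟨t, ht⟩ := h.y1 i; exact ⟨_, ⟨t, rfl⟩, ht⟩)
    have hU' : ∀ t, y i t ∈ (C.adS L).U m := fun t => hU _ ⟨t, rfl⟩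
    refine ⟨m, hm, hU', ?_⟩
    set q : Quotient (Equiv.Perm.SameCycle.setoid D.rE) := Quotient.mk _ β with hq
    have h1 : D.rE.SameCycle (Quotient.out q) β := Quotient.exact (Quotient.out_eq q)
    have h2 := (K9b_orb D (fun β => ht β.1 = m ∧ C.kap β (y i t : Matrix C.Idx C.Idx L) ≠ 0)
      (fun β => K9b_kap_r D h m hm i t (hU' t) β) h1).mpr ⟨hβ, hk⟩
    refine ⟨⟨q, ?_⟩, h2.1, t, h2.2⟩
    show 0 < ht (Quotient.out q).1
    rw [h2.1]
    omega
  choose m hm hU q hq hk using key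
  have hinj : Function.Injective q := by
    intro i j hij
    by_contra hne
    obtain ⟨τ, h1, h2⟩ := h.hs i j hne
    have h3 := (K9b_chi D h (m i) (hm i) i τ (hU i) _ (hq i) (hk i)).mpr h1
    rw [hij] at h3
    exact h2 ((K9b_chi D h (m j) (hm j) j τ (hU j) _ (hq j) (hk j)).mp h3)
  have hbij : Function.Bijective q := hinj.bijective_of_nat_card_le hcard.le
  refine ⟨Equiv.ofBijective q hbij, fun i => ⟨fun t => ?_, hk i, fun τ => ?_⟩⟩
  · show y i t ∈ (C.adS L).U (ht (Quotient.out (q i).1).1)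
    rw [hq i]
    exact hU i t
  · exact K9b_chi D h (m i) (hm i) i τ (hU i) _ (hq i) (hk i)

theorem orbit_inv {k T ι : Type*} [Field k] [Finite ι] {a : ι → T → k} {tt : T → GL C.Idx L}
    {y : ι → k → GL C.Idx L} (h : Fam D a tt y) (O : ι ≃ D.POrb)
    (hO : ∀ i, Occ a tt y i (Quotient.out (O i).1)) (i₀ : ι) (g : GL C.Idx L) (hg : g ∈ C.Gad L)
    (hgf : D.sgl (RingEquiv.refl L) g = g)
    (hgy : ∀ i, i ≠ i₀ → ∀ t, g⁻¹ * y i t * g ∈ (C.adS L).U 1)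
    (hτ : ∃ τ τ' τ'', g * tt τ * g⁻¹ = tt τ' ∧ tt τ * tt τ'' = tt τ' ∧ a i₀ τ'' ≠ 1) :
    ∃ j : Fin n, D.rE.SameCycle (Quotient.out (O i₀).1) (C.simple j) := by
  have hg' := hg
  rw [← C.gen_adS L] at hg'
  obtain ⟨b, hb, ν, hν, b', hb', hgb⟩ := (C.adS L).bruhat g hg'
  obtain ⟨w, hw, ha, hT⟩ := (C.adS L).N_acts ν hν
  have hUG : ∀ u ∈ (C.adS L).U 1, u ∈ C.Gad L := fun u hu => by
    rw [← C.gen_adS L]
    exact (C.adS L).U_le_gen 1 hu
  have hsig := isSig_adS D (F := L) (RingEquiv.refl L)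
  -- `w` commutes with `rE`
  have hcomm : w = D.rE * w * D.rE⁻¹ := by
    have hc : D.sgl (RingEquiv.refl L) b' * b'⁻¹ ∈ (C.adS L).U 1 :=
      Subgroup.mul_mem _ (hsig.map_U 1 b' hb') (Subgroup.inv_mem _ hb')
    refine bruhat_unique b (D.sgl (RingEquiv.refl L) b) ν (D.sgl (RingEquiv.refl L) ν)
      (D.sgl (RingEquiv.refl L) b' * b'⁻¹) w (D.rE * w * D.rE⁻¹) hb (hsig.map_U 1 b hb) hν
      (hsig.map_N ν hν) ha (hsig.acts ν w ha) (hUG _ hc) (C.Fil_U_zero _ hc) ?_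
    have e1 : D.sgl (RingEquiv.refl L) b * D.sgl (RingEquiv.refl L) ν *
        D.sgl (RingEquiv.refl L) b' = g := by
      rw [← _root_.map_mul, ← _root_.map_mul, ← hgb, hgf]
    rw [← mul_assoc, e1, hgb]
    group
  have hcomm1 : ∀ β, w⁻¹ (D.r β) = D.r (w⁻¹ β) := by
    intro β
    have h1 : w * D.rE = D.rE * w := by
      conv_lhs => rw [hcomm]
      group
    have h2 : w (D.r (w⁻¹ β)) = D.r β := by
      have h3 := congrArg (fun p : Equiv.Perm C.Root => p (w⁻¹ β)) h1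
      simp only [Equiv.Perm.mul_apply, Dg.rE_apply] at h3
      rw [h3]
      congr 1
      rw [← Equiv.Perm.mul_apply, mul_inv_cancel, Equiv.Perm.one_apply]
    rw [← h2, ← Equiv.Perm.mul_apply, inv_mul_cancel, Equiv.Perm.one_apply]
  have hinv : ∀ β γ, D.rE.SameCycle β γ → (C.Pos (w⁻¹ β) ↔ C.Pos (w⁻¹ γ)) := by
    intro β γ h1
    refine K9b_orb D (fun β => C.Pos (w⁻¹ β)) (fun β => ?_) h1
    rw [hcomm1]
    exact D.r_pos _
  -- the other orbits stay positive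
  have hpos : ∀ i, i ≠ i₀ → C.Pos (w⁻¹ (Quotient.out (O i).1)) := by
    intro i hi
    obtain ⟨h1, ⟨t, h2⟩, -⟩ := hO i
    have hm : 1 ≤ ht (Quotient.out (O i).1).1 := (O i).2
    have h3 := C.kap_conj (ht (Quotient.out (O i).1).1) hm b⁻¹ (y i t)
      (hUG _ (Subgroup.inv_mem _ hb)) (C.Fil_U_zero _ (Subgroup.inv_mem _ hb)) (h1 t) _ rfl
    have h4 : C.kap (Quotient.out (O i).1) ((b⁻¹ * y i t * b⁻¹⁻¹ : GL C.Idx L) :
        Matrix C.Idx C.Idx L) ≠ 0 := by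
      rw [h3.2]
      exact mul_ne_zero (C.chi_ne_zero _ (hUG _ (Subgroup.inv_mem _ hb))
        (C.Fil_U_zero _ (Subgroup.inv_mem _ hb)) _) h2
    refine C.kap_N ν w hν ha (b⁻¹ * y i t * b⁻¹⁻¹) ?_ _ h4
    have e1 : ν⁻¹ * (b⁻¹ * y i t * b⁻¹⁻¹) * ν = b' * (g⁻¹ * y i t * g) * b'⁻¹ := by
      rw [hgb]
      group
    rw [e1]
    exact Subgroup.mul_mem _ (Subgroup.mul_mem _ hb' (hgy i hi t)) (Subgroup.inv_mem _ hb')
  -- `w` is not `1`
  have hw1 : w ≠ 1 := by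
    intro hw1
    have hg0 : C.Fil 0 (g : Matrix C.Idx C.Idx L) := by
      rw [hgb, Units.val_mul, Units.val_mul]
      have h1 := C.Fil_mul (C.Fil_mul (C.Fil_U_zero _ hb) (C.Fil_T _ (hT hw1)))
        (C.Fil_U_zero _ hb')
      simpa using h1
    obtain ⟨τ, τ', τ'', h1, h2, h3⟩ := hτ
    have h4 := C.upper_inv g hg hg0
    have h00 : ∀ M N : Matrix C.Idx C.Idx L, C.Fil 0 M → C.Fil 0 N → C.Fil 0 (M * N) := by
      intro M N hM hN
      have h5 := C.Fil_mul hM hN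
      rwa [add_zero] at h5
    set β : C.Root := Quotient.out (O i₀).1 with hβ
    have h5 : C.chi ((g * tt τ * g⁻¹ : GL C.Idx L) : Matrix C.Idx C.Idx L) β =
        C.chi (tt τ : Matrix C.Idx C.Idx L) β := by
      have e1 := C.chi_mul (g * tt τ) g⁻¹ (Subgroup.mul_mem _ hg (h.ttG τ))
        (Subgroup.inv_mem _ hg) (by rw [Units.val_mul]; exact h00 _ _ hg0 (h.tt0 τ)) h4 β
      have e2 := C.chi_mul g (tt τ) hg (h.ttG τ) hg0 (h.tt0 τ) β
      have e3 := C.chi_mul g g⁻¹ hg (Subgroup.inv_mem _ hg) hg0 h4 β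
      have e4 : C.chi ((g * g⁻¹ : GL C.Idx L) : Matrix C.Idx C.Idx L) β = 1 := by
        rw [mul_inv_cancel]
        unfold SLC.chi
        rw [Units.val_one, Matrix.one_apply_eq]
      rw [e4] at e3
      rw [e1, e2]
      linear_combination -(C.chi (tt τ : Matrix C.Idx C.Idx L) β) * e3
    rw [h1, ← h2, C.chi_mul _ _ (h.ttG τ) (h.ttG τ'') (h.tt0 τ) (h.tt0 τ'')] at h5
    have h6 : C.chi (tt τ'' : Matrix C.Idx C.Idx L) β = 1 :=
      mul_left_cancel₀ (C.chi_ne_zero _ (h.ttG τ) (h.tt0 τ) β) (by rw [h5, mul_one])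
    exact h3 (((hO i₀).2.2 τ'').mp h6)
  have hex : ∃ j, ¬ C.Pos (w⁻¹ (C.simple j)) := by
    by_contra hcon
    push Not at hcon
    exact hw1 (inv_eq_one.mp (C.eq_one_of_pos w⁻¹ (Subgroup.inv_mem _ hw) hcon))
  obtain ⟨j, hj⟩ := hex
  refine ⟨j, ?_⟩
  set q : Quotient (Equiv.Perm.SameCycle.setoid D.rE) := Quotient.mk _ (C.simple j) with hq
  have h1 : D.rE.SameCycle (Quotient.out q) (C.simple j) := Quotient.exact (Quotient.out_eq q)
  have h2 : C.Pos (Quotient.out q) :=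
    (K9b_orb D (fun β => C.Pos β) (fun β => D.r_pos β) h1).mpr (C.simple_pos j)
  obtain ⟨i, hi⟩ := O.surjective ⟨q, h2⟩
  have h3 : i = i₀ := by
    by_contra hne
    have h4 := hpos i hne
    rw [hi] at h4
    exact hj ((hinv _ _ h1).mp h4)
  rw [← h3, hi]
  exact h1

end

end Pool.Agent.H75.UL
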