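import Pool.Agent.H75.UK.K9a
import Pool.Agent.H75.UL.T7

/-!
# Project UK, module K9n: coordinates of `U ∩ ν U ν⁻¹`

`kap β u ≠ 0` gives a nonzero entry of `u`, so of `u - 1`, at `(inl i, inr (-β))` for some `i`. With
`v = ν⁻¹ u ν ∈ U 1`: `u - 1 = ν (v - 1) ν⁻¹`, and by `N_mono` (for `ν` and for `ν⁻¹`, which acts by `w⁻¹`)
some entry of `v - 1` at `(inl j, inr (-w⁻¹ β))` is not zero (`W_neg`: `w⁻¹ (-β) = - w⁻¹ β`), so
`0 ≥ - ht (w⁻¹ β) + 1` (`Fil_U`).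
-/

set_option autoImplicit false
open Matrix
universe u
namespace Pool.Agent.H75.UL

namespace SLC
variable {n : ℕ} (C : SLC n) {F : Type*} [Field F]

theorem kap_N (ν : GL C.Idx F) (w : Equiv.Perm C.Root) (hν : ν ∈ (C.adS F).N)
    (h : (C.adS F).Acts ν w) (u : GL C.Idx F) (hv : ν⁻¹ * u * ν ∈ (C.adS F).U 1) (β : C.Root)
    (hk : C.kap β (u : Matrix C.Idx C.Idx F) ≠ 0) : C.Pos (w⁻¹ β) := by
  obtain ⟨hw, m1, m2, m3, m4⟩ := C.N_mono ν w h hν
  by_contra hj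
  have hi : ∃ i, (u : Matrix C.Idx C.Idx F) (Sum.inl i) (Sum.inr (-β)) ≠ 0 := by
    by_contra hcon
    push Not at hcon
    apply hk
    unfold kap
    split_ifs with h1
    · rw [hcon, neg_zero, zero_div]
    · rfl
  obtain ⟨i, hi⟩ := hi
  set δ : C.Root := -(w⁻¹ β) with hδ
  have hδpos : C.Pos δ := (C.not_pos_iff _).1 hj
  have hwδ : w δ = -β := by
    rw [hδ, C.W_neg w hw, ← Equiv.Perm.mul_apply, mul_inv_cancel, Equiv.Perm.one_apply]
  have h0 : C.Fil 0 ((ν⁻¹ * u * ν : GL C.Idx F) : Matrix C.Idx C.Idx F) := C.Fil_U_zero _ hv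
  have e1 : u * ν = ν * (ν⁻¹ * u * ν) := by group
  have e2 := congrArg (fun g : GL C.Idx F => (g : Matrix C.Idx C.Idx F) (Sum.inl i) (Sum.inr δ)) e1
  beta_reduce at e2
  rw [Units.val_mul u ν, Units.val_mul ν (ν⁻¹ * u * ν), Matrix.mul_apply, Matrix.mul_apply] at e2
  have hR : ∑ a, (ν : Matrix C.Idx C.Idx F) (Sum.inl i) a *
      ((ν⁻¹ * u * ν : GL C.Idx F) : Matrix C.Idx C.Idx F) a (Sum.inr δ) = 0 := by
    refine Finset.sum_eq_zero fun a _ => ?_
    rcases a with j | γ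
    · have h3 : ((ν⁻¹ * u * ν : GL C.Idx F) : Matrix C.Idx C.Idx F) (Sum.inl j) (Sum.inr δ) = 0 := by
        refine h0 _ _ ?_
        show (0 : ℤ) < ht δ.1 + 0
        have : 0 < ht δ.1 := hδpos
        omega
      rw [h3, mul_zero]
    · rw [m1 i γ, zero_mul]
  have hLs : ∑ a, (u : Matrix C.Idx C.Idx F) (Sum.inl i) a * (ν : Matrix C.Idx C.Idx F) a (Sum.inr δ) =
      (u : Matrix C.Idx C.Idx F) (Sum.inl i) (Sum.inr (-β)) *
        (ν : Matrix C.Idx C.Idx F) (Sum.inr (-β)) (Sum.inr δ) := by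
    refine Finset.sum_eq_single (Sum.inr (-β)) ?_ ?_
    · intro a _ hne
      rcases a with j | γ
      · rw [m1 j δ, mul_zero]
      · rw [m3 δ γ, mul_zero]
        rw [hwδ]
        intro h5
        exact hne (congrArg Sum.inr h5)
    · intro h5
      exact absurd (Finset.mem_univ _) h5
  rw [hLs, hR] at e2
  have h6 := m4 δ
  rw [hwδ] at h6
  exact hi ((mul_eq_zero.1 e2).resolve_right h6)

end SLC

end Pool.Agent.H75.UL
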